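import Pool.Agent.H56G.Stm2

/-!
# Piece ACN of project GPR (helper67)
-/

set_option autoImplicit false

noncomputable section

namespace Pool.Agent.H56G

open CategoryTheory groupHomology

namespace ACN

variable {G X : Type} [Group G] [AddCommGroup X]

/-- the projection -/
def pj {N B : Subgroup G} (h : N ≤ B) : G ⧸ N → G ⧸ B := Subgroup.quotientMapOfLE h

theorem pj_mk {N B : Subgroup G} (h : N ≤ B) (g : G) : pj h (g : G ⧸ N) = (g : G ⧸ B) := rfl

theorem pj_smul {N B : Subgroup G} (h : N ≤ B) (g : G) (q : G ⧸ N) : pj h (g • q) = g • pj h q := by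
  induction q using QuotientGroup.induction_on
  rfl

/-- augmented simplices -/
def T {N B : Subgroup G} (h : N ≤ B) (k : ℕ) : Type :=
  {p : (G ⧸ B) × (Fin k → G ⧸ N) // ∀ i, pj h (p.2 i) = p.1}

variable {N B : Subgroup G} {h : N ≤ B}

theorem T_ext {k : ℕ} {s s' : T h k} (h1 : s.1.1 = s'.1.1) (h2 : ∀ i, s.1.2 i = s'.1.2 i) : s = s' :=
  Subtype.ext (Prod.ext h1 (funext h2))

instance (k : ℕ) : MulAction G (T h k) where
  smul g p := ⟨(g • p.1.1, fun i => g • p.1.2 i), fun i => by
    show pj h (g • p.1.2 i) = g • p.1.1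
    rw [pj_smul, p.2]⟩
  one_smul p := T_ext (one_smul G p.1.1) (fun i => one_smul G (p.1.2 i))
  mul_smul g g' p := T_ext (mul_smul g g' p.1.1) (fun i => mul_smul g g' (p.1.2 i))

theorem smul_fst {k : ℕ} (g : G) (s : T h k) : (g • s).1.1 = g • s.1.1 := rfl
theorem smul_snd {k : ℕ} (g : G) (s : T h k) (i : Fin k) : (g • s).1.2 i = g • s.1.2 i := rfl

def face {k : ℕ} (i : Fin (k + 1)) (s : T h (k + 1)) : T h k :=
  ⟨(s.1.1, fun j => s.1.2 (i.succAbove j)), fun _ => s.2 _⟩

theorem face_smul {k : ℕ} (i : Fin (k + 1)) (g : G) (s : T h (k + 1)) :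
    face i (g • s) = g • face i s := rfl

def add (t : G ⧸ B → G ⧸ N) (ht : ∀ c, pj h (t c) = c) {k : ℕ} (s : T h k) : T h (k + 1) :=
  ⟨(s.1.1, Fin.cons (t s.1.1) s.1.2), fun i => by
    refine Fin.cases ?_ (fun i => ?_) i
    · exact ht _
    · exact s.2 i⟩

theorem face_zero_add (t : G ⧸ B → G ⧸ N) (ht : ∀ c, pj h (t c) = c) {k : ℕ} (s : T h k) :
    face 0 (add t ht s) = s := by
  refine T_ext rfl fun i => ?_
  show (Fin.cons (t s.1.1) s.1.2 : Fin (k + 1) → G ⧸ N) (Fin.succAbove 0 i) = s.1.2 i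
  rw [Fin.zero_succAbove, Fin.cons_succ]

theorem face_succ_add (t : G ⧸ B → G ⧸ N) (ht : ∀ c, pj h (t c) = c) {k : ℕ} (i : Fin (k + 1))
    (s : T h (k + 1)) : face i.succ (add t ht s) = add t ht (face i s) := by
  refine T_ext rfl fun j => ?_
  show (Fin.cons (t s.1.1) s.1.2 : Fin (k + 2) → G ⧸ N) (Fin.succAbove i.succ j) =
    (Fin.cons (t s.1.1) (fun j => s.1.2 (i.succAbove j)) : Fin (k + 1) → G ⧸ N) j
  refine Fin.cases ?_ (fun j => ?_) j
  · rw [Fin.succ_succAbove_zero, Fin.cons_zero, Fin.cons_zero]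
  · rw [Fin.succ_succAbove_succ, Fin.cons_succ, Fin.cons_succ]

variable (h X) in
def D (k : ℕ) : (T h (k + 1) →₀ X) →ₗ[ℤ] (T h k →₀ X) :=
  ∑ i : Fin (k + 1), ((-1 : ℤ) ^ (i : ℕ)) • Finsupp.lmapDomain X ℤ (face i)

theorem D_single (k : ℕ) (s : T h (k + 1)) (x : X) :
    D X h k (Finsupp.single s x) =
      ∑ i : Fin (k + 1), ((-1 : ℤ) ^ (i : ℕ)) • Finsupp.single (face i s) x := by
  unfold D
  rw [LinearMap.sum_apply]
  refine Finset.sum_congr rfl fun i _ => ?_
  rw [LinearMap.smul_apply, Finsupp.lmapDomain_apply, Finsupp.mapDomain_single]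

variable (X) in
def Hh (t : G ⧸ B → G ⧸ N) (ht : ∀ c, pj h (t c) = c) (k : ℕ) : (T h k →₀ X) →ₗ[ℤ] (T h (k + 1) →₀ X) :=
  Finsupp.lmapDomain X ℤ (add t ht)

theorem Hh_single (t : G ⧸ B → G ⧸ N) (ht : ∀ c, pj h (t c) = c) (k : ℕ) (s : T h k) (x : X) :
    Hh X t ht k (Finsupp.single s x) = Finsupp.single (add t ht s) x := by
  unfold Hh
  rw [Finsupp.lmapDomain_apply, Finsupp.mapDomain_single]

theorem D_zero_H (t : G ⧸ B → G ⧸ N) (ht : ∀ c, pj h (t c) = c) (y : T h 0 →₀ X) :
    D X h 0 (Hh X t ht 0 y) = y := by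
  induction y using Finsupp.induction_linear with
  | zero => rw [map_zero, map_zero]
  | add a b ha hb => rw [map_add, map_add, ha, hb]
  | single s x =>
    rw [Hh_single, D_single, Fin.sum_univ_one]
    rw [face_zero_add]
    simp

theorem D_succ_H (t : G ⧸ B → G ⧸ N) (ht : ∀ c, pj h (t c) = c) (k : ℕ) (y : T h (k + 1) →₀ X) :
    D X h (k + 1) (Hh X t ht (k + 1) y) = y - Hh X t ht k (D X h k y) := by
  induction y using Finsupp.induction_linear with
  | zero => simp
  | add a b ha hb =>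
    rw [map_add, map_add, ha, hb, map_add, map_add]
    abel
  | single s x =>
    rw [Hh_single, D_single, D_single, Fin.sum_univ_succ, face_zero_add, map_sum,
      sub_eq_add_neg, ← Finset.sum_neg_distrib]
    congr 1
    · simp
    · refine Finset.sum_congr rfl fun i _ => ?_
      rw [face_succ_add, map_zsmul, Hh_single, Fin.val_succ, pow_succ]
      simp

theorem DD (k : ℕ) (t0 : G ⧸ B → G ⧸ N) (ht0 : ∀ c, pj h (t0 c) = c) (y : T h (k + 2) →₀ X) :
    D X h k (D X h (k + 1) y) = 0 := by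
  classical
  induction k with
  | zero =>
    induction y using Finsupp.induction_linear with
    | zero => simp
    | add a b ha hb => rw [map_add, map_add, ha, hb, add_zero]
    | single s x =>
      rw [D_single, map_sum, Fin.sum_univ_two, map_zsmul, map_zsmul, D_single, D_single,
        Fin.sum_univ_one, Fin.sum_univ_one]
      have h1 : ∀ i j : T h 0, i.1.1 = j.1.1 → i = j := fun i j hij => T_ext hij (fun l => l.elim0)
      have h2 : face 0 (face 0 s) = face 0 (face 1 s) := h1 _ _ rfl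
      rw [h2]
      simp
  | succ k ih =>
    induction y using Finsupp.induction_linear with
    | zero => simp
    | add a b ha hb => rw [map_add, map_add, ha, hb, add_zero]
    | single s x =>
      -- the section with the value `s 0`
      have ht : ∀ c, pj h (Function.update t0 s.1.1 (s.1.2 0) c) = c := by
        intro c
        by_cases hc : c = s.1.1
        · subst hc
          rw [Function.update_self]
          exact s.2 0
        · rw [Function.update_of_ne hc]
          exact ht0 c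
      have hs : s = add (Function.update t0 s.1.1 (s.1.2 0)) ht (face 0 s) := by
        refine T_ext rfl fun i => ?_
        show s.1.2 i = (Fin.cons (Function.update t0 s.1.1 (s.1.2 0) s.1.1)
          (fun j => s.1.2 (Fin.succAbove 0 j)) : Fin (k + 3) → G ⧸ N) i
        refine Fin.cases ?_ (fun i => ?_) i
        · rw [Fin.cons_zero, Function.update_self]
        · rw [Fin.cons_succ, Fin.zero_succAbove]
      have h1 : Finsupp.single s x =
          Hh X (Function.update t0 s.1.1 (s.1.2 0)) ht (k + 2) (Finsupp.single (face 0 s) x) := by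
        rw [Hh_single, ← hs]
      rw [h1, D_succ_H, map_sub, D_succ_H, ih, map_zero, sub_zero, sub_self]

theorem ext_pr {S : Type} [MulAction G S] (ρ : Representation ℤ G X) (g : G) (s : S) (x : X) :
    pr ρ S g (Finsupp.single s x) = Finsupp.single (g • s) (ρ g x) := by
  simp [pr]

theorem D_comm (ρ : Representation ℤ G X) (k : ℕ) (g : G) (y : T h (k + 1) →₀ X) :
    D X h k (pr ρ (T h (k + 1)) g y) = pr ρ (T h k) g (D X h k y) := by
  induction y using Finsupp.induction_linear with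
  | zero => simp
  | add a b ha hb => rw [map_add, map_add, ha, hb, map_add, map_add]
  | single s x =>
    rw [ext_pr, D_single, D_single, map_sum]
    refine Finset.sum_congr rfl fun i _ => ?_
    rw [map_zsmul, ext_pr, face_smul]

/-- the sequence of representations -/
def YY (h : N ≤ B) (ρ : Representation ℤ G X) (k : ℕ) : Rep.{0} ℤ G := Rep.of (pr ρ (T h k))

def dR (h : N ≤ B) (ρ : Representation ℤ G X) (k : ℕ) : YY h ρ (k + 1) ⟶ YY h ρ k :=
  Rep.ofHom ⟨D X h k, fun g => LinearMap.ext fun y => D_comm ρ k g y⟩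

theorem dR_hom (h : N ≤ B) (ρ : Representation ℤ G X) (k : ℕ) (y : T h (k + 1) →₀ X) :
    (dR h ρ k).hom y = D X h k y := rfl

theorem map_inv_map {S S' : Type} (e : S ≃ S') (y : S →₀ X) :
    Finsupp.lmapDomain X ℤ e.symm (Finsupp.lmapDomain X ℤ e y) = y := by
  rw [Finsupp.lmapDomain_apply, Finsupp.lmapDomain_apply, ← Finsupp.mapDomain_comp,
    Equiv.symm_comp_self, Finsupp.mapDomain_id]

theorem map_map_inv {S S' : Type} (e : S ≃ S') (y : S' →₀ X) :
    Finsupp.lmapDomain X ℤ e (Finsupp.lmapDomain X ℤ e.symm y) = y := by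
  rw [Finsupp.lmapDomain_apply, Finsupp.lmapDomain_apply, ← Finsupp.mapDomain_comp,
    Equiv.self_comp_symm, Finsupp.mapDomain_id]

theorem D_exact (t : G ⧸ B → G ⧸ N) (ht : ∀ c, pj h (t c) = c) (k : ℕ) (y : T h (k + 1) →₀ X)
    (hy : D X h k y = 0) : D X h (k + 1) (Hh X t ht (k + 1) y) = y := by
  rw [D_succ_H, hy, map_zero, sub_zero]

/-- `T 0` is `G ⧸ B` -/
def e0 (h : N ≤ B) : T h 0 ≃ G ⧸ B where
  toFun s := s.1.1
  invFun c := ⟨(c, Fin.elim0), fun i => i.elim0⟩
  left_inv _ := T_ext rfl (fun i => i.elim0)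
  right_inv _ := rfl

def iso0 (h : N ≤ B) (ρ : Representation ℤ G X) : YY h ρ 0 ≅ Rep.of (pr ρ (G ⧸ B)) where
  hom := Rep.ofHom ⟨Finsupp.lmapDomain X ℤ (e0 h), fun g => by
    refine LinearMap.ext fun y => ?_
    induction y using Finsupp.induction_linear with
    | zero => simp
    | add a b ha hb => rw [map_add, map_add, ha, hb]
    | single s x =>
      show Finsupp.lmapDomain X ℤ (e0 h) (pr ρ (T h 0) g (Finsupp.single s x)) =
        pr ρ (G ⧸ B) g (Finsupp.lmapDomain X ℤ (e0 h) (Finsupp.single s x))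
      rw [ext_pr, Finsupp.lmapDomain_apply, Finsupp.mapDomain_single, Finsupp.lmapDomain_apply,
        Finsupp.mapDomain_single, ext_pr]
      rfl⟩
  inv := Rep.ofHom ⟨Finsupp.lmapDomain X ℤ (e0 h).symm, fun g => by
    refine LinearMap.ext fun y => ?_
    induction y using Finsupp.induction_linear with
    | zero => simp
    | add a b ha hb => rw [map_add, map_add, ha, hb]
    | single s x =>
      show Finsupp.lmapDomain X ℤ (e0 h).symm (pr ρ (G ⧸ B) g (Finsupp.single s x)) =
        pr ρ (T h 0) g (Finsupp.lmapDomain X ℤ (e0 h).symm (Finsupp.single s x))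
      rw [ext_pr, Finsupp.lmapDomain_apply, Finsupp.mapDomain_single, Finsupp.lmapDomain_apply,
        Finsupp.mapDomain_single, ext_pr]
      congr 1
      exact T_ext rfl (fun i => i.elim0)⟩
  hom_inv_id := by
    apply Rep.hom_ext
    refine DFunLike.ext _ _ fun y => ?_
    exact map_inv_map (e0 h) y
  inv_hom_id := by
    apply Rep.hom_ext
    refine DFunLike.ext _ _ fun y => ?_
    exact map_map_inv (e0 h) y

/-- the central elements -/
def zf (z : G) (q : G ⧸ N) : G := q.out * z * (q.out)⁻¹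

theorem zf_mk (z : G) (hz : ∀ n ∈ N, Commute z n) (g : G) : zf z (g : G ⧸ N) = g * z * g⁻¹ := by
  unfold zf
  obtain ⟨n, hn⟩ := QuotientGroup.mk_out_eq_mul N g
  rw [hn]
  have h1 := hz n.1 n.2
  have h2 : (n : G) * z * (n : G)⁻¹ = z := by
    rw [← h1.eq]; group
  calc g * (n : G) * z * (g * (n : G))⁻¹ = g * ((n : G) * z * (n : G)⁻¹) * g⁻¹ := by group
    _ = g * z * g⁻¹ := by rw [h2]

theorem zf_smul (z : G) (hz : ∀ n ∈ N, Commute z n) (g : G) (q : G ⧸ N) :
    zf z (g • q) = g * zf z q * g⁻¹ := by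
  induction q using QuotientGroup.induction_on with
  | H a =>
    have h1 : (g • (a : G ⧸ N)) = ((g * a : G) : G ⧸ N) := rfl
    rw [h1, zf_mk z hz, zf_mk z hz]
    group

theorem zf_fix (z : G) (hN : ∀ b ∈ B, ∀ n ∈ N, b * n * b⁻¹ ∈ N) (hzN : z ∈ N)
    (hz : ∀ n ∈ N, Commute z n) (q q' : G ⧸ N) (hq : pj h q = pj h q') : zf z q • q' = q' := by
  induction q using QuotientGroup.induction_on with
  | H a =>
    induction q' using QuotientGroup.induction_on with
    | H b =>
      rw [pj_mk, pj_mk, QuotientGroup.eq] at hq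
      rw [zf_mk z hz]
      have h1 : ((a * z * a⁻¹) • (b : G ⧸ N)) = ((a * z * a⁻¹ * b : G) : G ⧸ N) := rfl
      rw [h1, QuotientGroup.eq]
      have h2 := hN (a⁻¹ * b)⁻¹ (B.inv_mem hq) z⁻¹ (N.inv_mem hzN)
      have h3 : (a * z * a⁻¹ * b)⁻¹ * b = (a⁻¹ * b)⁻¹ * z⁻¹ * ((a⁻¹ * b)⁻¹)⁻¹ := by group
      rw [h3]
      exact h2

end ACN

theorem t_ACN : S_ACN := by
  intro hACY hACR G X _ _ ρ N B z h hN hzN hz hbij n
  have key : (inhomogeneousChains (ACN.YY h ρ 0)).ExactAt n := by
    have ht : ∀ c, ACN.pj h (((Quotient.out c : G) : G ⧸ N)) = c := by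
      intro c
      rw [ACN.pj_mk]
      exact Quotient.out_eq' c
    refine hACR G n (ACN.YY h ρ) (ACN.dR h ρ) ?_ ?_ ?_
    · intro y
      exact ⟨ACN.Hh X (fun c => ((Quotient.out c : G) : G ⧸ N)) ht 0 y, ACN.D_zero_H _ ht y⟩
    · intro k y
      constructor
      · intro hy
        refine ⟨ACN.Hh X (fun c => ((Quotient.out c : G) : G ⧸ N)) ht (k + 1) y, ?_⟩
        exact ACN.D_exact (h := h) (X := X) (fun c => ((Quotient.out c : G) : G ⧸ N)) ht k y hy
      · rintro ⟨w, rfl⟩
        exact ACN.DD k _ ht w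
    · intro k m
      refine hACY G X ρ (ACN.T h (k + 1)) (fun s => ACN.zf z (s.1.2 0)) ?_ ?_ ?_ m
      · intro g s
        exact ACN.zf_smul z hz g _
      · intro s
        refine ACN.T_ext ?_ fun i => ?_
        · rw [ACN.smul_fst]
          have h1 := ACN.zf_fix (h := h) z hN hzN hz (s.1.2 0) (s.1.2 0) rfl
          have h2 := ACN.pj_smul h (ACN.zf z (s.1.2 0)) (s.1.2 0)
          rw [h1, s.2 0] at h2
          exact h2.symm
        · exact ACN.zf_fix (h := h) z hN hzN hz (s.1.2 0) (s.1.2 i) (by rw [s.2 0, s.2 i])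
      · intro s
        exact hbij _
  exact key.of_iso ((chainsFunctor ℤ G).mapIso (ACN.iso0 h ρ))

end Pool.Agent.H56G
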