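import Pool.Agent.H56G.Stm2

/-!
# Project GPR, piece ACR: acyclic resolutions

A diagram chase in the double complex of the chains `C_n (Y k)`, by induction on `n` (`ACR.main`).
-/

set_option autoImplicit false

noncomputable section

namespace Pool.Agent.H56G

open CategoryTheory groupHomology

namespace ACR

theorem exact_zero (C : ChainComplex (ModuleCat.{0} ℤ) ℕ) :
    C.ExactAt 0 ↔ ∀ v : C.X 0, ∃ w : C.X 1, C.d 1 0 w = v := by
  rw [HomologicalComplex.exactAt_iff' _ 1 0 0 (by simp) (by simp), ShortComplex.moduleCat_exact_iff]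
  have hz : C.d 0 0 = 0 := C.shape 0 0 (by simp)
  constructor
  · intro h v
    refine h v ?_
    show C.d 0 0 v = 0
    rw [hz]
    rfl
  · intro h v _
    exact h v

theorem exact_succ (C : ChainComplex (ModuleCat.{0} ℤ) ℕ) (n : ℕ) :
    C.ExactAt (n + 1) ↔ ∀ v : C.X (n + 1), C.d (n + 1) n v = 0 → ∃ w : C.X (n + 2), C.d (n + 2) (n + 1) w = v := by
  rw [HomologicalComplex.exactAt_iff' _ (n + 2) (n + 1) n (by simp) (by simp), ShortComplex.moduleCat_exact_iff]
  exact Iff.rfl

theorem gen_apply {k G : Type} [CommRing k] [Group G] {A B : Rep.{0} k G} (φ : A ⟶ B) (n : ℕ)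
    (v : (Fin n → G) →₀ A) (g : Fin n → G) :
    (show (Fin n → G) →₀ B from (chainsMap (MonoidHom.id G) φ).f n v) g = φ.hom (v g) := by
  have h := LinearMap.congr_fun (chainsMap_id_f_hom_eq_mapRange n φ) v
  exact DFunLike.congr_fun h g

variable {G : Type} [Group G] {Y : ℕ → Rep.{0} ℤ G} (d : ∀ k, Y (k + 1) ⟶ Y k)

/-- the induced map of chains -/
def e (k n : ℕ) : (inhomogeneousChains (Y (k + 1))).X n ⟶ (inhomogeneousChains (Y k)).X n :=
  (chainsMap (MonoidHom.id G) (d k)).f n

theorem e_apply (k n : ℕ) (v : (Fin n → G) →₀ Y (k + 1)) (g : Fin n → G) :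
    (show (Fin n → G) →₀ Y k from e d k n v) g = (d k).hom (v g) :=
  gen_apply (d k) n v g

theorem e_comm (k n : ℕ) (v : (inhomogeneousChains (Y (k + 1))).X (n + 1)) :
    e d k n ((inhomogeneousChains (Y (k + 1))).d (n + 1) n v) =
      (inhomogeneousChains (Y k)).d (n + 1) n (e d k (n + 1) v) := by
  have h := (chainsMap (MonoidHom.id G) (d k)).comm (n + 1) n
  have h2 := congrArg (fun f => f.hom v) h
  exact h2.symm

theorem D_D (A : Rep.{0} ℤ G) (n : ℕ) (v : (inhomogeneousChains A).X (n + 2)) :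
    (inhomogeneousChains A).d (n + 1) n ((inhomogeneousChains A).d (n + 2) (n + 1) v) = 0 := by
  have h := (inhomogeneousChains A).d_comp_d (n + 2) (n + 1) n
  have h2 := congrArg (fun f => f.hom v) h
  exact h2

theorem e_e (hex : ∀ k (y : Y (k + 1)), (d k).hom y = 0 ↔ ∃ w : Y (k + 2), (d (k + 1)).hom w = y) (k n : ℕ)
    (v : (inhomogeneousChains (Y (k + 2))).X n) : e d k n (e d (k + 1) n v) = 0 := by
  have key : (show (Fin n → G) →₀ Y k from e d k n (e d (k + 1) n v)) = 0 := by
    refine Finsupp.ext fun g => ?_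
    refine (e_apply d k n _ g).trans ?_
    refine (hex k _).2 ⟨(show (Fin n → G) →₀ Y (k + 2) from v) g, ?_⟩
    exact (e_apply d (k + 1) n v g).symm
  exact key

theorem e_sur (h0 : Function.Surjective (d 0).hom) (n : ℕ) (v : (inhomogeneousChains (Y 0)).X n) :
    ∃ w, e d 0 n w = v := by
  obtain ⟨w, hw⟩ := Finsupp.mapRange_surjective (α := Fin n → G) (d 0).hom (map_zero _) h0 v
  refine ⟨w, ?_⟩
  have key : (show (Fin n → G) →₀ Y 0 from e d 0 n w) = v := by
    refine Finsupp.ext fun g => ?_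
    exact (e_apply d 0 n w g).trans (DFunLike.congr_fun hw g)
  exact key

theorem e_exact (hex : ∀ k (y : Y (k + 1)), (d k).hom y = 0 ↔ ∃ w : Y (k + 2), (d (k + 1)).hom w = y) (k n : ℕ)
    (v : (inhomogeneousChains (Y (k + 1))).X n) (hv : e d k n v = 0) :
    ∃ w, e d (k + 1) n w = v := by
  classical
  have hv1 : (show (Fin n → G) →₀ Y k from e d k n v) = 0 := hv
  have hv2 : ∀ g : Fin n → G, (d k).hom ((show (Fin n → G) →₀ Y (k + 1) from v) g) = 0 := fun g =>
    (e_apply d k n v g).symm.trans (DFunLike.congr_fun hv1 g)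
  let f : Y (k + 1) → Y (k + 2) := fun y => if y = 0 then 0 else
    if h : ∃ w : Y (k + 2), (d (k + 1)).hom w = y then h.choose else 0
  have hf0 : f 0 = 0 := if_pos rfl
  have hf : ∀ y, (d k).hom y = 0 → (d (k + 1)).hom (f y) = y := by
    intro y hy
    by_cases h0 : y = 0
    · rw [h0, hf0, map_zero]
    · have h := (hex k y).1 hy
      show (d (k + 1)).hom (if y = 0 then 0 else
        if h : ∃ w : Y (k + 2), (d (k + 1)).hom w = y then h.choose else 0) = y
      rw [if_neg h0, dif_pos h]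
      exact h.choose_spec
  refine ⟨Finsupp.mapRange f hf0 (show (Fin n → G) →₀ Y (k + 1) from v), ?_⟩
  have key : (show (Fin n → G) →₀ Y (k + 1) from
      e d (k + 1) n (Finsupp.mapRange f hf0 (show (Fin n → G) →₀ Y (k + 1) from v))) = v := by
    refine Finsupp.ext fun g => ?_
    exact (e_apply d (k + 1) n _ g).trans (hf _ (hv2 g))
  exact key

theorem main (hex : ∀ k (y : Y (k + 1)), (d k).hom y = 0 ↔ ∃ w : Y (k + 2), (d (k + 1)).hom w = y)
    (hY : ∀ k m, (inhomogeneousChains (Y (k + 1))).ExactAt m) (n : ℕ) :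
    ∀ (k : ℕ) (v : (inhomogeneousChains (Y (k + 1))).X n),
      (∀ m (_ : n = m + 1), e d k m ((inhomogeneousChains (Y (k + 1))).d n m v) = 0) →
      ∃ (w : (inhomogeneousChains (Y (k + 1))).X (n + 1)) (x : (inhomogeneousChains (Y (k + 2))).X n),
        v = (inhomogeneousChains (Y (k + 1))).d (n + 1) n w + e d (k + 1) n x := by
  induction n with
  | zero =>
    intro k v _
    obtain ⟨w, hw⟩ := (exact_zero _).1 (hY k 0) v
    exact ⟨w, 0, by rw [hw, map_zero, add_zero]⟩
  | succ n ih =>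
    intro k v hv
    obtain ⟨v', hv'⟩ := e_exact d hex k n _ (hv n rfl)
    obtain ⟨w', x', h1⟩ := ih (k + 1) v' (by
      rintro m rfl
      rw [e_comm, hv', D_D])
    have h2 : (inhomogeneousChains (Y (k + 1))).d (n + 1) n (v - e d (k + 1) (n + 1) w') = 0 := by
      rw [map_sub, ← e_comm, ← hv', h1, map_add, e_e d hex, add_zero, sub_self]
    obtain ⟨w, hw⟩ := (exact_succ _ n).1 (hY k (n + 1)) _ h2
    exact ⟨w, w', by rw [hw, sub_add_cancel]⟩

end ACR

theorem t_ACR : S_ACR := by
  intro G _ n Y d h0 hex hY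
  have key : ∀ v : (inhomogeneousChains (Y 0)).X n,
      (∀ m (h : n = m + 1), (inhomogeneousChains (Y 0)).d n m v = 0) →
      ∃ w : (inhomogeneousChains (Y 0)).X (n + 1), (inhomogeneousChains (Y 0)).d (n + 1) n w = v := by
    intro v hv
    obtain ⟨v₁, hv₁⟩ := ACR.e_sur d h0 n v
    obtain ⟨w, x, h1⟩ := ACR.main d hex hY n 0 v₁ (by
      rintro m rfl
      rw [ACR.e_comm, hv₁]
      exact hv m rfl)
    refine ⟨ACR.e d 0 (n + 1) w, ?_⟩
    rw [← ACR.e_comm, ← hv₁, h1, map_add, ACR.e_e d hex, add_zero]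
  rcases n with _ | n
  · rw [ACR.exact_zero]
    intro v
    exact key v (fun m h => by omega)
  · rw [ACR.exact_succ]
    intro v hv
    exact key v (fun m h => by
      obtain rfl : m = n := by omega
      exact hv)

end Pool.Agent.H56G
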