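import Pool.Agent.H56G.BAS

/-!
# Project GPR, piece ACY: central elements kill the homology

`K u` is the homotopy between the left multiplication by `u` and the identity on the chains of degree `n`:
`K u (b, g') = (u, b, g') - (b, K (b⁻¹ u b) g')`.
-/

set_option autoImplicit false
set_option linter.unusedSectionVars false

noncomputable section

namespace Pool.Agent.H56G

open CategoryTheory groupHomology
open BAS (contract_zero contract_succ pr_single dd' dd_single)

namespace ACY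

variable {G W : Type} [Group G] [AddCommGroup W]

/-- the prefix `b` -/
def J (W : Type) [AddCommGroup W] (n : ℕ) (b : G) : ((Fin n → G) →₀ W) →ₗ[ℤ] ((Fin (n + 1) → G) →₀ W) :=
  Finsupp.lmapDomain W ℤ (fun g => (Fin.cons b g : Fin (n + 1) → G))

theorem J_single (n : ℕ) (b : G) (g : Fin n → G) (w : W) :
    J W n b (Finsupp.single g w) = Finsupp.single (Fin.cons b g : Fin (n + 1) → G) w := by
  simp [J]

/-- the boundary without the first face -/
def R (W : Type) [AddCommGroup W] (n : ℕ) : ((Fin (n + 1) → G) →₀ W) →ₗ[ℤ] ((Fin n → G) →₀ W) :=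
  Finsupp.lsum ℤ fun g => Finset.univ.sum fun j : Fin (n + 1) =>
    (-1 : ℤ) ^ ((j : ℕ) + 1) • Finsupp.lsingle (Fin.contractNth j (· * ·) g)

theorem R_single (n : ℕ) (g : Fin (n + 1) → G) (w : W) :
    R W n (Finsupp.single g w) = Finset.univ.sum fun j : Fin (n + 1) =>
      (-1 : ℤ) ^ ((j : ℕ) + 1) • Finsupp.single (Fin.contractNth j (· * ·) g) w := by
  unfold R
  rw [Finsupp.lsum_single, LinearMap.sum_apply]
  rfl

/-- multiplication of the first entry -/
def M (W : Type) [AddCommGroup W] (n : ℕ) (b : G) : ((Fin (n + 1) → G) →₀ W) →ₗ[ℤ] ((Fin (n + 1) → G) →₀ W) :=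
  Finsupp.lmapDomain W ℤ (fun g => (Fin.cons (b * g 0) (fun i => g i.succ) : Fin (n + 1) → G))

theorem M_single (n : ℕ) (b : G) (g : Fin (n + 1) → G) (w : W) :
    M W n b (Finsupp.single g w) = Finsupp.single (Fin.cons (b * g 0) (fun i => g i.succ) : Fin (n + 1) → G) w := by
  simp [M]

theorem M_J (n : ℕ) (b x : G) (c : (Fin n → G) →₀ W) : M W n b (J W n x c) = J W n (b * x) c := by
  have key : M W n b ∘ₗ J W n x = J W n (b * x) := by
    refine Finsupp.lhom_ext' fun g => LinearMap.ext fun w => ?_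
    simp only [LinearMap.comp_apply, Finsupp.lsingle_apply]
    rw [J_single, M_single, J_single]
    rfl
  exact LinearMap.congr_fun key c

theorem ext_J {Y : Type} [AddCommGroup Y] (n : ℕ) (f f' : ((Fin (n + 1) → G) →₀ W) →ₗ[ℤ] Y)
    (h : ∀ b (g : Fin n → G) w, f (J W n b (Finsupp.single g w)) = f' (J W n b (Finsupp.single g w)))
    (c : (Fin (n + 1) → G) →₀ W) : f c = f' c := by
  have key : f = f' := by
    refine Finsupp.lhom_ext' fun g => LinearMap.ext fun w => ?_
    simp only [LinearMap.comp_apply, Finsupp.lsingle_apply]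
    have := h (g 0) (fun i => g i.succ) w
    rw [J_single] at this
    have e : (Fin.cons (g 0) (fun i => g i.succ) : Fin (n + 1) → G) = g := Fin.cons_self_tail g
    rwa [e] at this
  rw [key]

theorem R_J_zero (b : G) (c : (Fin 0 → G) →₀ W) : R W 0 (J W 0 b c) = -c := by
  have key : R W 0 ∘ₗ J W 0 b = - LinearMap.id := by
    refine Finsupp.lhom_ext' fun g => LinearMap.ext fun w => ?_
    simp only [LinearMap.comp_apply, Finsupp.lsingle_apply, LinearMap.neg_apply, LinearMap.id_apply]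
    rw [J_single, R_single, Fin.sum_univ_one]
    have : (Fin.contractNth 0 (· * ·) (Fin.cons b g : Fin 1 → G)) = g := Subsingleton.elim _ _
    rw [this]
    simp
  exact LinearMap.congr_fun key c

theorem R_J (n : ℕ) (b : G) (c : (Fin (n + 1) → G) →₀ W) :
    R W (n + 1) (J W (n + 1) b c) = - M W n b c - J W n b (R W n c) := by
  have key : R W (n + 1) ∘ₗ J W (n + 1) b = - M W n b - J W n b ∘ₗ R W n := by
    refine Finsupp.lhom_ext' fun g => LinearMap.ext fun w => ?_
    simp only [LinearMap.comp_apply, Finsupp.lsingle_apply, LinearMap.neg_apply, LinearMap.sub_apply]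
    rw [J_single, R_single, R_single, M_single, map_sum, Fin.sum_univ_succ, contract_zero]
    have h8 : ∀ j : Fin (n + 1), (-1 : ℤ) ^ ((j.succ : ℕ) + 1) •
        Finsupp.single (Fin.contractNth j.succ (· * ·) (Fin.cons b g : Fin (n + 2) → G)) w =
        - (J W n b ((-1 : ℤ) ^ ((j : ℕ) + 1) • Finsupp.single (Fin.contractNth j (· * ·) g) w)) := by
      intro j
      rw [map_smul, J_single, contract_succ, Fin.val_succ, pow_succ (-1 : ℤ) ((j : ℕ) + 1), mul_neg_one, neg_smul]
    rw [Finset.sum_congr rfl fun j _ => h8 j, Finset.sum_neg_distrib]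
    simp
    abel
  exact LinearMap.congr_fun key c

/-- the homotopy on one tuple -/
def K' (W : Type) [AddCommGroup W] : (n : ℕ) → G → (Fin n → G) → (W →ₗ[ℤ] ((Fin (n + 1) → G) →₀ W))
  | 0, u, g => J W 0 u ∘ₗ Finsupp.lsingle g
  | n + 1, u, g => J W (n + 1) u ∘ₗ Finsupp.lsingle g -
      J W (n + 1) (g 0) ∘ₗ K' W n ((g 0)⁻¹ * u * g 0) (fun i => g i.succ)

/-- the homotopy for a fixed `u` -/
def K (W : Type) [AddCommGroup W] (n : ℕ) (u : G) : ((Fin n → G) →₀ W) →ₗ[ℤ] ((Fin (n + 1) → G) →₀ W) :=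
  Finsupp.lsum ℤ fun g => K' W n u g

theorem K_single (n : ℕ) (u : G) (g : Fin n → G) (w : W) : K W n u (Finsupp.single g w) = K' W n u g w := by
  unfold K
  rw [Finsupp.lsum_single]

theorem K_zero (u : G) (c : (Fin 0 → G) →₀ W) : K W 0 u c = J W 0 u c := by
  have key : K W 0 u = J W 0 u := by
    refine Finsupp.lhom_ext' fun g => LinearMap.ext fun w => ?_
    simp only [LinearMap.comp_apply, Finsupp.lsingle_apply]
    rw [K_single]
    rfl
  rw [key]

theorem K_J (n : ℕ) (u b : G) (c : (Fin n → G) →₀ W) :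
    K W (n + 1) u (J W n b c) = J W (n + 1) u (J W n b c) - J W (n + 1) b (K W n (b⁻¹ * u * b) c) := by
  have key : K W (n + 1) u ∘ₗ J W n b = J W (n + 1) u ∘ₗ J W n b - J W (n + 1) b ∘ₗ K W n (b⁻¹ * u * b) := by
    refine Finsupp.lhom_ext' fun g => LinearMap.ext fun w => ?_
    simp only [LinearMap.comp_apply, Finsupp.lsingle_apply, LinearMap.sub_apply]
    rw [J_single, K_single, K_single]
    rfl
  exact LinearMap.congr_fun key c

theorem K_M (n : ℕ) (u b : G) (c : (Fin (n + 1) → G) →₀ W) :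
    K W (n + 1) u (M W n b c) = J W (n + 1) u (M W n b c) + M W (n + 1) b (K W (n + 1) (b⁻¹ * u * b) c) -
      J W (n + 1) (u * b) c := by
  have key := ext_J n (K W (n + 1) u ∘ₗ M W n b) (J W (n + 1) u ∘ₗ M W n b +
    M W (n + 1) b ∘ₗ K W (n + 1) (b⁻¹ * u * b) - J W (n + 1) (u * b)) (by
    intro x g w
    simp only [LinearMap.comp_apply, LinearMap.sub_apply, LinearMap.add_apply]
    rw [M_J, K_J, K_J, map_sub, M_J, M_J]
    have e1 : (b * x)⁻¹ * u * (b * x) = x⁻¹ * (b⁻¹ * u * b) * x := by group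
    have e2 : b * (b⁻¹ * u * b) = u * b := by group
    rw [e1, e2]
    abel) c
  simpa only [LinearMap.comp_apply, LinearMap.sub_apply, LinearMap.add_apply] using key

theorem R_K_zero (u : G) (c : (Fin 0 → G) →₀ W) : R W 0 (K W 0 u c) = -c := by
  rw [K_zero, R_J_zero]

theorem R_K (n : ℕ) : ∀ (u : G) (c : (Fin (n + 1) → G) →₀ W),
    R W (n + 1) (K W (n + 1) u c) = - c - K W n u (R W n c) := by
  induction n with
  | zero =>
    intro u c
    have key := ext_J 0 (R W 1 ∘ₗ K W 1 u) (- LinearMap.id - K W 0 u ∘ₗ R W 0) (by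
      intro b g w
      simp only [LinearMap.comp_apply, LinearMap.sub_apply, LinearMap.neg_apply, LinearMap.id_apply]
      have e2 : b * (b⁻¹ * u * b) = u * b := by group
      rw [K_J, map_sub, R_J, R_J, K_zero, K_zero, R_J_zero, R_J_zero, M_J, M_J, e2, map_neg, map_neg]
      abel) c
    simpa only [LinearMap.comp_apply, LinearMap.sub_apply, LinearMap.neg_apply, LinearMap.id_apply] using key
  | succ n ih =>
    intro u c
    have key := ext_J (n + 1) (R W (n + 2) ∘ₗ K W (n + 2) u) (- LinearMap.id - K W (n + 1) u ∘ₗ R W (n + 1)) (by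
      intro b g w
      simp only [LinearMap.comp_apply, LinearMap.sub_apply, LinearMap.neg_apply, LinearMap.id_apply]
      obtain ⟨c', hc'⟩ : ∃ c', c' = Finsupp.single g w := ⟨_, rfl⟩
      rw [← hc', K_J, map_sub, R_J, R_J (n + 1) b (K W (n + 1) (b⁻¹ * u * b) c'), ih, M_J, R_J]
      simp only [map_sub, map_neg]
      rw [K_M, K_J]
      abel) c
    simpa only [LinearMap.comp_apply, LinearMap.sub_apply, LinearMap.neg_apply, LinearMap.id_apply] using key

/-- the action on the coefficients -/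
def act (τ : Representation ℤ G W) (n : ℕ) (b : G) : ((Fin n → G) →₀ W) →ₗ[ℤ] ((Fin n → G) →₀ W) :=
  Finsupp.mapRange.linearMap (τ b)

theorem act_single (τ : Representation ℤ G W) (n : ℕ) (b : G) (g : Fin n → G) (w : W) :
    act τ n b (Finsupp.single g w) = Finsupp.single g (τ b w) := by
  simp [act]

theorem act_J (τ : Representation ℤ G W) (n : ℕ) (b x : G) (c : (Fin n → G) →₀ W) :
    act τ (n + 1) b (J W n x c) = J W n x (act τ n b c) := by
  have key : act τ (n + 1) b ∘ₗ J W n x = J W n x ∘ₗ act τ n b := by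
    refine Finsupp.lhom_ext' fun g => LinearMap.ext fun w => ?_
    simp only [LinearMap.comp_apply, Finsupp.lsingle_apply]
    rw [J_single, act_single, act_single, J_single]
  exact LinearMap.congr_fun key c

theorem act_K (τ : Representation ℤ G W) (b : G) (n : ℕ) : ∀ (u : G) (c : (Fin n → G) →₀ W),
    act τ (n + 1) b (K W n u c) = K W n u (act τ n b c) := by
  induction n with
  | zero =>
    intro u c
    rw [K_zero, K_zero, act_J]
  | succ n ih =>
    intro u c
    have key := ext_J n (act τ (n + 2) b ∘ₗ K W (n + 1) u) (K W (n + 1) u ∘ₗ act τ (n + 1) b) (by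
      intro x g w
      simp only [LinearMap.comp_apply]
      rw [K_J, map_sub, act_J, act_J, act_J, K_J, ih]) c
    simpa only [LinearMap.comp_apply] using key

/-- the first face -/
def F (τ : Representation ℤ G W) (n : ℕ) : ((Fin (n + 1) → G) →₀ W) →ₗ[ℤ] ((Fin n → G) →₀ W) :=
  Finsupp.lsum ℤ fun g => Finsupp.lsingle (fun i => g i.succ) ∘ₗ τ (g 0)⁻¹

theorem F_single (τ : Representation ℤ G W) (n : ℕ) (g : Fin (n + 1) → G) (w : W) :
    F τ n (Finsupp.single g w) = Finsupp.single (fun i => g i.succ) (τ (g 0)⁻¹ w) := by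
  unfold F
  rw [Finsupp.lsum_single]
  rfl

theorem F_J (τ : Representation ℤ G W) (n : ℕ) (b : G) (c : (Fin n → G) →₀ W) :
    F τ n (J W n b c) = act τ n b⁻¹ c := by
  have key : F τ n ∘ₗ J W n b = act τ n b⁻¹ := by
    refine Finsupp.lhom_ext' fun g => LinearMap.ext fun w => ?_
    simp only [LinearMap.comp_apply, Finsupp.lsingle_apply]
    rw [J_single, F_single, act_single]
    rfl
  exact LinearMap.congr_fun key c

variable {X S : Type} [AddCommGroup X] [MulAction G S]

theorem dd_eq (ρ : Representation ℤ G X) (n : ℕ) (c : (Fin (n + 1) → G) →₀ (S →₀ X)) :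
    dd' ρ S n c = F (pr ρ S) n c + R (S →₀ X) n c := by
  have key : dd' ρ S n = F (pr ρ S) n + R (S →₀ X) n := by
    refine Finsupp.lhom_ext' fun g => LinearMap.ext fun w => ?_
    simp only [LinearMap.comp_apply, Finsupp.lsingle_apply, LinearMap.add_apply]
    rw [dd_single, F_single, R_single]
  exact LinearMap.congr_fun key c

/-- the homotopy -/
def H (X : Type) [AddCommGroup X] (z : S → G) (n : ℕ) :
    ((Fin n → G) →₀ (S →₀ X)) →ₗ[ℤ] ((Fin (n + 1) → G) →₀ (S →₀ X)) :=
  Finsupp.lsum ℤ fun g => Finsupp.lsum ℤ fun s => K (S →₀ X) n (z s) ∘ₗ Finsupp.lsingle g ∘ₗ Finsupp.lsingle s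

theorem H_single (z : S → G) (n : ℕ) (g : Fin n → G) (s : S) (x : X) :
    H X z n (Finsupp.single g (Finsupp.single s x)) =
      K (S →₀ X) n (z s) (Finsupp.single g (Finsupp.single s x)) := by
  unfold H
  rw [Finsupp.lsum_single, Finsupp.lsum_single]
  rfl

theorem H_R (z : S → G) (n : ℕ) (g : Fin (n + 1) → G) (s : S) (x : X) :
    H X z n (R (S →₀ X) n (Finsupp.single g (Finsupp.single s x))) =
      K (S →₀ X) n (z s) (R (S →₀ X) n (Finsupp.single g (Finsupp.single s x))) := by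
  rw [R_single, map_sum, map_sum]
  refine Finset.sum_congr rfl fun j _ => ?_
  rw [map_smul, map_smul, H_single]

/-- the map `τ - 1` -/
def T (θ : S → X →ₗ[ℤ] X) (n : ℕ) : ((Fin n → G) →₀ (S →₀ X)) →ₗ[ℤ] ((Fin n → G) →₀ (S →₀ X)) :=
  Finsupp.mapRange.linearMap (Finsupp.lsum ℤ fun s => Finsupp.lsingle s ∘ₗ θ s)

theorem T_single (θ : S → X →ₗ[ℤ] X) (n : ℕ) (g : Fin n → G) (s : S) (x : X) :
    T θ n (Finsupp.single g (Finsupp.single s x)) = Finsupp.single g (Finsupp.single s (θ s x)) := by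
  unfold T
  rw [Finsupp.mapRange.linearMap_apply, Finsupp.mapRange_single, Finsupp.lsum_single]
  rfl

theorem T_inv (θ θ' : S → X →ₗ[ℤ] X) (h : ∀ s x, θ s (θ' s x) = x) (n : ℕ) (c : (Fin n → G) →₀ (S →₀ X)) :
    T θ n (T θ' n c) = c := by
  have key : T (G := G) θ n ∘ₗ T θ' n = LinearMap.id := by
    refine Finsupp.lhom_ext' fun g => Finsupp.lhom_ext' fun s => LinearMap.ext fun x => ?_
    simp only [LinearMap.comp_apply, Finsupp.lsingle_apply, LinearMap.id_apply]
    rw [T_single, T_single, h]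
  exact LinearMap.congr_fun key c

/-- `τ - 1` on `X` -/
def th (ρ : Representation ℤ G X) (z : S → G) (s : S) : X →ₗ[ℤ] X := ρ (z s)⁻¹ - LinearMap.id

theorem act_fix (ρ : Representation ℤ G X) (z : S → G) (h2 : ∀ s, z s • s = s) (n : ℕ) (g : Fin n → G) (s : S)
    (x : X) : act (pr ρ S) n (z s)⁻¹ (Finsupp.single g (Finsupp.single s x)) =
      T (th ρ z) n (Finsupp.single g (Finsupp.single s x)) + Finsupp.single g (Finsupp.single s x) := by
  rw [act_single, pr_single, T_single, inv_smul_eq_iff.2 (h2 s).symm, ← Finsupp.single_add, ← Finsupp.single_add]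
  congr 2
  simp [th]

theorem hom_zero (ρ : Representation ℤ G X) (z : S → G) (h2 : ∀ s, z s • s = s)
    (v : (Fin 0 → G) →₀ (S →₀ X)) : dd' ρ S 0 (H X z 0 v) = T (th ρ z) 0 v := by
  have key : dd' ρ S 0 ∘ₗ H X z 0 = T (th ρ z) 0 := by
    refine Finsupp.lhom_ext' fun g => Finsupp.lhom_ext' fun s => LinearMap.ext fun x => ?_
    simp only [LinearMap.comp_apply, Finsupp.lsingle_apply]
    rw [H_single, dd_eq, R_K_zero, K_zero, F_J, act_fix ρ z h2]
    abel
  exact LinearMap.congr_fun key v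

theorem hom_succ (ρ : Representation ℤ G X) (z : S → G) (h1 : ∀ (g : G) (s : S), z (g • s) = g * z s * g⁻¹)
    (h2 : ∀ s, z s • s = s) (n : ℕ) (v : (Fin (n + 1) → G) →₀ (S →₀ X)) :
    dd' ρ S (n + 1) (H X z (n + 1) v) + H X z n (dd' ρ S n v) = T (th ρ z) (n + 1) v := by
  have key : dd' ρ S (n + 1) ∘ₗ H X z (n + 1) + H X z n ∘ₗ dd' ρ S n = T (th ρ z) (n + 1) := by
    refine Finsupp.lhom_ext' fun g => Finsupp.lhom_ext' fun s => LinearMap.ext fun x => ?_
    simp only [LinearMap.comp_apply, Finsupp.lsingle_apply, LinearMap.add_apply]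
    obtain ⟨b, hb⟩ : ∃ b, b = g 0 := ⟨_, rfl⟩
    obtain ⟨g', hg'⟩ : ∃ g' : Fin n → G, g' = fun i => g i.succ := ⟨_, rfl⟩
    have e : g = (Fin.cons b g' : Fin (n + 1) → G) := by
      rw [hb, hg']
      exact (Fin.cons_self_tail g).symm
    have e1 : (Finsupp.single g (Finsupp.single s x) : (Fin (n + 1) → G) →₀ (S →₀ X)) =
        J (S →₀ X) n b (Finsupp.single g' (Finsupp.single s x)) := by
      rw [J_single, e]
    have e3 : H X z n (act (pr ρ S) n b⁻¹ (Finsupp.single g' (Finsupp.single s x))) =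
        K (S →₀ X) n (b⁻¹ * z s * b) (act (pr ρ S) n b⁻¹ (Finsupp.single g' (Finsupp.single s x))) := by
      rw [act_single, pr_single, H_single, h1, inv_inv]
    rw [H_single, dd_eq ρ n, map_add, H_R, dd_eq, R_K, e1, F_J, e3, K_J, map_sub, F_J, F_J, act_K, ← e1,
      act_fix ρ z h2]
    abel
  exact LinearMap.congr_fun key v

theorem dd_dd (ρ : Representation ℤ G X) (n : ℕ) (v : (Fin (n + 2) → G) →₀ (S →₀ X)) :
    dd' ρ S n (dd' ρ S (n + 1) v) = 0 := by
  have h : inhomogeneousChains.d (Rep.of (pr ρ S)) (n + 1) ≫ inhomogeneousChains.d (Rep.of (pr ρ S)) n = 0 :=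
    inhomogeneousChains.d_comp_d (Rep.of (pr ρ S)) n
  have h3 := congrArg (fun f => f.hom v) h
  exact h3

theorem commute_T (ρ : Representation ℤ G X) (z : S → G) (h1 : ∀ (g : G) (s : S), z (g • s) = g * z s * g⁻¹)
    (h2 : ∀ s, z s • s = s) (n : ℕ) (w : (Fin (n + 1) → G) →₀ (S →₀ X)) :
    dd' ρ S n (T (th ρ z) (n + 1) w) = T (th ρ z) n (dd' ρ S n w) := by
  rw [← hom_succ ρ z h1 h2, map_add, dd_dd, zero_add]
  rcases n with _ | n
  · rw [hom_zero ρ z h2]
  · rw [← hom_succ ρ z h1 h2, dd_dd, map_zero, add_zero]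

end ACY

theorem t_ACY : S_ACY := by
  intro G X _ _ ρ S _ z h1 h2 h3 n
  have hbij : ∀ s, Function.Bijective (ACY.th ρ z s) := by
    intro s
    have e : (ACY.th ρ z s : X → X) = (fun x => ρ (z s)⁻¹ x) ∘ (fun x : X => x - ρ (z s) x) := by
      funext x
      show ρ (z s)⁻¹ x - x = ρ (z s)⁻¹ (x - ρ (z s) x)
      rw [map_sub, ← Module.End.mul_apply, ← map_mul, inv_mul_cancel, map_one]
      rfl
    rw [e]
    refine Function.Bijective.comp ⟨?_, ?_⟩ (h3 s)
    · intro x y hxy
      have hxy' : ρ (z s)⁻¹ x = ρ (z s)⁻¹ y := hxy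
      have := congrArg (ρ (z s)) hxy'
      rw [← Module.End.mul_apply, ← Module.End.mul_apply, ← map_mul, mul_inv_cancel, map_one] at this
      exact this
    · intro y
      refine ⟨ρ (z s) y, ?_⟩
      show ρ (z s)⁻¹ (ρ (z s) y) = y
      rw [← Module.End.mul_apply, ← map_mul, inv_mul_cancel, map_one]
      rfl
  obtain ⟨θ', hθ'⟩ : ∃ θ' : S → X →ₗ[ℤ] X, θ' = fun s => ((LinearEquiv.ofBijective _ (hbij s)).symm : X →ₗ[ℤ] X) :=
    ⟨_, rfl⟩
  have hr : ∀ s x, ACY.th ρ z s (θ' s x) = x := by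
    intro s x
    rw [hθ']
    exact (LinearEquiv.ofBijective _ (hbij s)).apply_symm_apply x
  have hl : ∀ s x, θ' s (ACY.th ρ z s x) = x := by
    intro s x
    rw [hθ']
    exact (LinearEquiv.ofBijective _ (hbij s)).symm_apply_apply x
  rcases n with _ | n
  · rw [HomologicalComplex.exactAt_iff' _ 1 0 0 (by simp) (by simp)]
    rw [ShortComplex.moduleCat_exact_iff]
    intro v _
    refine ⟨ACY.H X z 0 (ACY.T θ' 0 v), ?_⟩
    have e1 : (inhomogeneousChains (Rep.of (pr ρ S))).d 1 0 = inhomogeneousChains.d (Rep.of (pr ρ S)) 0 :=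
      inhomogeneousChains.d_def _ 0
    show (inhomogeneousChains (Rep.of (pr ρ S))).d 1 0 (ACY.H X z 0 (ACY.T θ' 0 v)) = v
    rw [e1]
    exact (ACY.hom_zero ρ z h2 _).trans (ACY.T_inv _ _ hr 0 v)
  · rw [HomologicalComplex.exactAt_iff' _ (n + 2) (n + 1) n (by simp) (by simp)]
    rw [ShortComplex.moduleCat_exact_iff]
    intro v hv
    have hv' : dd' ρ S n v = 0 := by
      have : (inhomogeneousChains (Rep.of (pr ρ S))).d (n + 1) n = inhomogeneousChains.d (Rep.of (pr ρ S)) n :=
        inhomogeneousChains.d_def _ n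
      have hv2 : (inhomogeneousChains (Rep.of (pr ρ S))).d (n + 1) n v = 0 := hv
      rw [this] at hv2
      exact hv2
    obtain ⟨w, hw⟩ : ∃ w, w = ACY.T θ' (n + 1) v := ⟨_, rfl⟩
    have hTw : ACY.T (ACY.th ρ z) (n + 1) w = v := by rw [hw]; exact ACY.T_inv _ _ hr (n + 1) v
    have hdw : dd' ρ S n w = 0 := by
      have h4 : ACY.T (ACY.th ρ z) n (dd' ρ S n w) = 0 := by
        rw [← ACY.commute_T ρ z h1 h2, hTw, hv']
      rw [← ACY.T_inv θ' (ACY.th ρ z) hl n (dd' ρ S n w), h4, map_zero]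
    refine ⟨ACY.H X z (n + 1) w, ?_⟩
    have e1 : (inhomogeneousChains (Rep.of (pr ρ S))).d (n + 2) (n + 1) =
        inhomogeneousChains.d (Rep.of (pr ρ S)) (n + 1) := inhomogeneousChains.d_def _ (n + 1)
    show (inhomogeneousChains (Rep.of (pr ρ S))).d (n + 2) (n + 1) (ACY.H X z (n + 1) w) = v
    rw [e1]
    have h5 := ACY.hom_succ ρ z h1 h2 n w
    rw [hdw, map_zero, add_zero, hTw] at h5
    exact h5

end Pool.Agent.H56G
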