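import Pool.Agent.H56G.Stm

set_option autoImplicit false

noncomputable section

namespace Pool.Agent.H56G

open Pool.Agent.W907.SG Pool.Agent.H56T

theorem t_AGP : S_AGP := by
  intro V _ Γ
  refine ⟨fun u v huv a b => ?_, fun K _ f hf => ?_, fun S hS => ?_⟩
  · rw [zpowersHom_apply, zpowersHom_apply]
    exact (agen_comm huv).zpow_zpow _ _
  · have h1 : ∀ r ∈ ragRel Γ, FreeGroup.lift (fun v => f v (Multiplicative.ofAdd (1 : ℤ))) r = 1 := by
      rintro r ⟨u, v, huv, rfl⟩
      rw [map_mul, map_mul, map_mul, map_inv, map_inv, FreeGroup.lift_apply_of, FreeGroup.lift_apply_of,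
        (hf u v huv _ _).eq]
      group
    refine ⟨PresentedGroup.toGroup h1, fun v a => ?_⟩
    rw [zpowersHom_apply, map_zpow]
    unfold agen
    rw [PresentedGroup.toGroup.of, ← map_zpow]
    congr 1
    rw [← ofAdd_zsmul]
    simp
  · have h1 : ∀ v, agen Γ v ∈ S := by
      intro v
      have h2 := hS v (Multiplicative.ofAdd (1 : ℤ))
      rw [zpowersHom_apply] at h2
      simpa using h2
    rw [eq_top_iff, ← PresentedGroup.closure_range_of (ragRel Γ), Subgroup.closure_le]
    rintro _ ⟨v, rfl⟩
    exact h1 v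

end Pool.Agent.H56G
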