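import Pool.Agent.H56G.Stm

/-!
# Project GPR, piece BAS: regular sets

For a `G`-set `T` on which `G` acts simply transitively the complex of the inhomogeneous chains with coefficients in the
functions on `T` is contracted by `hh` in positive degrees, and its homology in degree zero is `X` (augmentation `ep`).
-/

set_option autoImplicit false

noncomputable section

namespace Pool.Agent.H56G

open CategoryTheory groupHomology

namespace BAS

variable {G X T : Type} [Group G] [AddCommGroup X] [MulAction G T]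

theorem pr_single (ρ : Representation ℤ G X) (g : G) (s : T) (x : X) :
    pr ρ T g (Finsupp.single s x) = Finsupp.single (g • s) (ρ g x) := by
  simp [pr]

/-- the coordinate -/
def zz (t : T) (ht : Function.Bijective (fun g : G => g • t)) (s : T) : G := (Equiv.ofBijective _ ht).symm s

theorem zz_smul (t : T) (ht : Function.Bijective (fun g : G => g • t)) (s : T) : zz t ht s • t = s :=
  (Equiv.ofBijective _ ht).apply_symm_apply s

theorem zz_eq (t : T) (ht : Function.Bijective (fun g : G => g • t)) (s : T) (g : G) (h : g • t = s) :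
    zz t ht s = g :=
  ht.1 ((zz_smul t ht s).trans h.symm)

theorem zz_mul (t : T) (ht : Function.Bijective (fun g : G => g • t)) (s : T) (g : G) :
    zz t ht (g • s) = g * zz t ht s :=
  zz_eq t ht _ _ (by rw [mul_smul, zz_smul])

/-- the contraction -/
def hh (ρ : Representation ℤ G X) (t : T) (ht : Function.Bijective (fun g : G => g • t)) (n : ℕ) :
    ((Fin n → G) →₀ (T →₀ X)) →ₗ[ℤ] ((Fin (n + 1) → G) →₀ (T →₀ X)) :=
  Finsupp.lsum ℤ fun g => Finsupp.lsum ℤ fun s =>
    (Finsupp.lsingle (Fin.cons (zz t ht s)⁻¹ g : Fin (n + 1) → G)) ∘ₗ (Finsupp.lsingle t) ∘ₗ (ρ (zz t ht s)⁻¹)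

theorem hh_single (ρ : Representation ℤ G X) (t : T) (ht : Function.Bijective (fun g : G => g • t)) (n : ℕ)
    (g : Fin n → G) (s : T) (x : X) : hh ρ t ht n (Finsupp.single g (Finsupp.single s x)) =
      Finsupp.single (Fin.cons (zz t ht s)⁻¹ g : Fin (n + 1) → G) (Finsupp.single t (ρ (zz t ht s)⁻¹ x)) := by
  unfold hh
  rw [Finsupp.lsum_single, Finsupp.lsum_single]
  rfl

/-- the boundary -/
def dd' (ρ : Representation ℤ G X) (T : Type) [MulAction G T] (n : ℕ) :
    ((Fin (n + 1) → G) →₀ (T →₀ X)) →ₗ[ℤ] ((Fin n → G) →₀ (T →₀ X)) :=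
  (inhomogeneousChains.d (Rep.of (pr ρ T)) n).hom

theorem dd_single (ρ : Representation ℤ G X) (n : ℕ) (g : Fin (n + 1) → G) (a : T →₀ X) :
    dd' ρ T n (Finsupp.single g a) = Finsupp.single (fun i => g i.succ) (pr ρ T (g 0)⁻¹ a) +
      Finset.univ.sum fun j : Fin (n + 1) =>
        (-1 : ℤ) ^ ((j : ℕ) + 1) • Finsupp.single (Fin.contractNth j (· * ·) g) a :=
  inhomogeneousChains.d_single (A := Rep.of (pr ρ T)) n g a

theorem contract_zero (n : ℕ) (a : G) (g : Fin (n + 1) → G) :
    Fin.contractNth 0 (· * ·) (Fin.cons a g : Fin (n + 2) → G) =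
      Fin.cons (a * g 0) (fun i => g i.succ) := by
  funext i
  refine Fin.cases ?_ (fun i => ?_) i
  · rw [Fin.contractNth_apply_of_eq _ _ _ _ rfl]
    rfl
  · rw [Fin.contractNth_apply_of_gt _ _ _ _ (by simp)]
    rfl

theorem contract_succ (n : ℕ) (a : G) (g : Fin (n + 1) → G) (j : Fin (n + 1)) :
    Fin.contractNth j.succ (· * ·) (Fin.cons a g : Fin (n + 2) → G) =
      Fin.cons a (Fin.contractNth j (· * ·) g) := by
  funext i
  refine Fin.cases ?_ (fun i => ?_) i
  · rw [Fin.contractNth_apply_of_lt _ _ _ _ (by simp)]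
    rfl
  · rw [Fin.cons_succ]
    rcases lt_trichotomy (i : ℕ) (j : ℕ) with h | h | h
    · rw [Fin.contractNth_apply_of_lt _ _ _ _ (by simpa using h), Fin.contractNth_apply_of_lt _ _ _ _ h]
      rfl
    · rw [Fin.contractNth_apply_of_eq _ _ _ _ (by simpa using h), Fin.contractNth_apply_of_eq _ _ _ _ h]
      rfl
    · rw [Fin.contractNth_apply_of_gt _ _ _ _ (by simpa using h), Fin.contractNth_apply_of_gt _ _ _ _ h]
      rfl

theorem homotopy (ρ : Representation ℤ G X) (t : T) (ht : Function.Bijective (fun g : G => g • t)) (n : ℕ)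
    (v : (Fin (n + 1) → G) →₀ (T →₀ X)) :
    dd' ρ T (n + 1) (hh ρ t ht (n + 1) v) + hh ρ t ht n (dd' ρ T n v) = v := by
  have key : dd' ρ T (n + 1) ∘ₗ hh ρ t ht (n + 1) + hh ρ t ht n ∘ₗ dd' ρ T n = LinearMap.id := by
    refine Finsupp.lhom_ext' fun g => Finsupp.lhom_ext' fun s => LinearMap.ext fun x => ?_
    obtain ⟨a, ha⟩ : ∃ a, a = zz t ht s := ⟨_, rfl⟩
    simp only [LinearMap.comp_apply, LinearMap.add_apply, LinearMap.id_apply, Finsupp.lsingle_apply]
    rw [hh_single, ← ha, dd_single, dd_single, map_add, map_sum, pr_single, pr_single, hh_single, zz_mul, ← ha,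
      Fin.sum_univ_succ]
    have h1 : (Fin.cons a⁻¹ g : Fin (n + 2) → G) 0 = a⁻¹ := rfl
    have h2 : (fun i : Fin (n + 1) => (Fin.cons a⁻¹ g : Fin (n + 2) → G) i.succ) = g := rfl
    have h3 : a • t = s := by rw [ha]; exact zz_smul t ht s
    have h4 : ρ a (ρ a⁻¹ x) = x := by
      rw [← Module.End.mul_apply, ← map_mul, mul_inv_cancel, map_one]; rfl
    have h5 : ρ ((g 0)⁻¹ * a)⁻¹ (ρ (g 0)⁻¹ x) = ρ a⁻¹ x := by
      rw [← Module.End.mul_apply, ← map_mul]
      congr 2
      group
    have h6 : ((g 0)⁻¹ * a)⁻¹ = a⁻¹ * g 0 := by group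
    rw [h1, h2, inv_inv, h3, h4, h5, h6, contract_zero]
    have h7 : ∀ j : Fin (n + 1), hh ρ t ht n ((-1 : ℤ) ^ ((j : ℕ) + 1) •
        Finsupp.single (Fin.contractNth j (· * ·) g) (Finsupp.single s x)) =
        (-1 : ℤ) ^ ((j : ℕ) + 1) • Finsupp.single (Fin.cons a⁻¹ (Fin.contractNth j (· * ·) g) : Fin (n + 1) → G)
          (Finsupp.single t (ρ a⁻¹ x)) := by
      intro j
      rw [map_smul, hh_single, ← ha]
    rw [Finset.sum_congr rfl fun j _ => h7 j]
    have h8 : ∀ j : Fin (n + 1), (-1 : ℤ) ^ ((j.succ : ℕ) + 1) •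
        Finsupp.single (Fin.contractNth j.succ (· * ·) (Fin.cons a⁻¹ g : Fin (n + 2) → G))
          (Finsupp.single t (ρ a⁻¹ x)) = - ((-1 : ℤ) ^ ((j : ℕ) + 1) •
        Finsupp.single (Fin.cons a⁻¹ (Fin.contractNth j (· * ·) g) : Fin (n + 1) → G)
          (Finsupp.single t (ρ a⁻¹ x))) := by
      intro j
      rw [contract_succ, Fin.val_succ, pow_succ (-1 : ℤ) ((j : ℕ) + 1), mul_neg_one, neg_smul]
    rw [Finset.sum_congr rfl fun j _ => h8 j, Finset.sum_neg_distrib]
    simp
    abel
  exact LinearMap.congr_fun key v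

theorem exact (ρ : Representation ℤ G X) (t : T) (ht : Function.Bijective (fun g : G => g • t)) (n : ℕ) :
    (inhomogeneousChains (Rep.of (pr ρ T))).ExactAt (n + 1) := by
  rw [HomologicalComplex.exactAt_iff' _ (n + 2) (n + 1) n (by simp) (by simp)]
  rw [ShortComplex.moduleCat_exact_iff]
  intro v hv
  have hv' : dd' ρ T n v = 0 := by
    have : (inhomogeneousChains (Rep.of (pr ρ T))).d (n + 1) n = inhomogeneousChains.d (Rep.of (pr ρ T)) n :=
      inhomogeneousChains.d_def _ n
    have hv2 : (inhomogeneousChains (Rep.of (pr ρ T))).d (n + 1) n v = 0 := hv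
    rw [this] at hv2
    exact hv2
  refine ⟨hh ρ t ht (n + 1) v, ?_⟩
  have h1 := homotopy ρ t ht n v
  rw [hv', map_zero, add_zero] at h1
  have h2 : (inhomogeneousChains (Rep.of (pr ρ T))).d (n + 2) (n + 1) = inhomogeneousChains.d (Rep.of (pr ρ T)) (n + 1) :=
    inhomogeneousChains.d_def _ (n + 1)
  show (inhomogeneousChains (Rep.of (pr ρ T))).d (n + 2) (n + 1) (hh ρ t ht (n + 1) v) = v
  rw [h2]
  exact h1

/-- the augmentation -/
def ep (ρ : Representation ℤ G X) (t : T) (ht : Function.Bijective (fun g : G => g • t)) : (T →₀ X) →ₗ[ℤ] X :=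
  Finsupp.lsum ℤ fun s => ρ (zz t ht s)⁻¹

theorem ep_single (ρ : Representation ℤ G X) (t : T) (ht : Function.Bijective (fun g : G => g • t)) (s : T) (x : X) :
    ep ρ t ht (Finsupp.single s x) = ρ (zz t ht s)⁻¹ x := by
  simp [ep]

theorem ep_pr (ρ : Representation ℤ G X) (t : T) (ht : Function.Bijective (fun g : G => g • t)) (g : G)
    (v : T →₀ X) : ep ρ t ht (pr ρ T g v) = ep ρ t ht v := by
  have key : ep ρ t ht ∘ₗ pr ρ T g = ep ρ t ht := by
    refine Finsupp.lhom_ext' fun s => LinearMap.ext fun x => ?_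
    simp only [LinearMap.comp_apply, Finsupp.lsingle_apply]
    rw [pr_single, ep_single, ep_single, zz_mul, ← Module.End.mul_apply, ← map_mul]
    congr 2
    group
  exact LinearMap.congr_fun key v

theorem ker_of_ep (ρ : Representation ℤ G X) (t : T) (ht : Function.Bijective (fun g : G => g • t))
    (v : T →₀ X) : v - Finsupp.single t (ep ρ t ht v) ∈ Representation.Coinvariants.ker (pr ρ T) := by
  induction v using Finsupp.induction_linear with
  | zero => simp
  | add v w hv hw =>
    have : v + w - Finsupp.single t (ep ρ t ht (v + w)) =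
        (v - Finsupp.single t (ep ρ t ht v)) + (w - Finsupp.single t (ep ρ t ht w)) := by
      rw [map_add, Finsupp.single_add]
      abel
    rw [this]
    exact Submodule.add_mem _ hv hw
  | single s x =>
    rw [ep_single]
    have h1 : Finsupp.single s x = pr ρ T (zz t ht s) (Finsupp.single t (ρ (zz t ht s)⁻¹ x)) := by
      rw [pr_single, zz_smul, ← Module.End.mul_apply, ← map_mul, mul_inv_cancel, map_one]
      rfl
    rw [h1]
    exact Representation.Coinvariants.sub_mem_ker _ _

theorem ep_ker (ρ : Representation ℤ G X) (t : T) (ht : Function.Bijective (fun g : G => g • t))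
    (v : T →₀ X) (hv : v ∈ Representation.Coinvariants.ker (pr ρ T)) : ep ρ t ht v = 0 := by
  have : Representation.Coinvariants.ker (pr ρ T) ≤ LinearMap.ker (ep ρ t ht) := by
    refine Submodule.span_le.2 ?_
    rintro _ ⟨⟨g, v⟩, rfl⟩
    rw [SetLike.mem_coe, LinearMap.mem_ker, map_sub, ep_pr, sub_self]
  exact this hv

end BAS
namespace BAS

variable {G X T : Type} [Group G] [AddCommGroup X] [MulAction G T]

theorem H0_zero {Y : Type} [AddCommGroup Y] (τ : Representation ℤ G Y) (x : Y) :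
    H0π (Rep.of τ) x = 0 ↔ x ∈ Representation.Coinvariants.ker τ := by
  have h1 : (H0Iso (Rep.of τ)).hom (H0π (Rep.of τ) x) = Representation.Coinvariants.mk τ x :=
    H0π_comp_H0Iso_hom_apply (Rep.of τ) x
  rw [← Representation.Coinvariants.mk_eq_zero, ← h1]
  constructor
  · intro h
    rw [h, map_zero]
  · intro h
    have hinj : Function.Injective (H0Iso (Rep.of τ)).hom :=
      (ConcreteCategory.bijective_of_isIso (H0Iso (Rep.of τ)).hom).1
    apply hinj
    rw [h, map_zero]

end BAS

theorem t_BAS : S_BAS := by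
  intro A G X _ _ _ φ ρ S S' _ _ f t hf hA hG
  refine ⟨hf, ?_⟩
  rw [quasiIso_iff]
  intro i
  rcases i with _ | n
  · rw [quasiIsoAt_iff_isIso_homologyMap]
    have key : Function.Bijective (groupHomology.map φ (fm φ ρ f hf) 0) := by
      have hmap : ∀ a : S →₀ X, groupHomology.map φ (fm φ ρ f hf) 0 (H0π (Rep.of (pr (ρ.comp φ) S)) a) =
          H0π (Rep.of (pr ρ S')) (a.mapDomain f) := fun a => H0π_comp_map_apply φ (fm φ ρ f hf) a
      have hz : ∀ s : S, BAS.zz (f t) hG (f s) = φ (BAS.zz t hA s) := by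
        intro s
        apply BAS.zz_eq
        rw [← hf, BAS.zz_smul]
      have hep : ∀ a : S →₀ X, BAS.ep ρ (f t) hG (a.mapDomain f) = BAS.ep (ρ.comp φ) t hA a := by
        intro a
        have h1 : BAS.ep ρ (f t) hG ∘ₗ Finsupp.lmapDomain X ℤ f = BAS.ep (ρ.comp φ) t hA := by
          refine Finsupp.lhom_ext' fun s => LinearMap.ext fun x => ?_
          simp only [LinearMap.comp_apply, Finsupp.lsingle_apply, Finsupp.lmapDomain_apply,
            Finsupp.mapDomain_single]
          rw [BAS.ep_single, BAS.ep_single, hz, MonoidHom.comp_apply, map_inv φ]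
        exact LinearMap.congr_fun h1 a
      constructor
      · rw [injective_iff_map_eq_zero]
        intro x hx
        obtain ⟨a, rfl⟩ : ∃ a : S →₀ X, H0π (Rep.of (pr (ρ.comp φ) S)) a = x :=
          (ModuleCat.epi_iff_surjective (H0π (Rep.of (pr (ρ.comp φ) S)))).1 inferInstance x
        rw [hmap, BAS.H0_zero] at hx
        rw [BAS.H0_zero]
        have h1 := BAS.ep_ker ρ (f t) hG _ hx
        rw [hep] at h1
        have h2 := BAS.ker_of_ep (ρ.comp φ) t hA a
        rw [h1, Finsupp.single_zero, sub_zero] at h2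
        exact h2
      · intro y
        obtain ⟨b, rfl⟩ : ∃ b : S' →₀ X, H0π (Rep.of (pr ρ S')) b = y :=
          (ModuleCat.epi_iff_surjective (H0π (Rep.of (pr ρ S')))).1 inferInstance y
        refine ⟨H0π (Rep.of (pr (ρ.comp φ) S)) (Finsupp.single t (BAS.ep ρ (f t) hG b)), ?_⟩
        rw [hmap, Finsupp.mapDomain_single]
        have h2 := BAS.ker_of_ep ρ (f t) hG b
        have h3 : H0π (Rep.of (pr ρ S')) (b - Finsupp.single (f t) (BAS.ep ρ (f t) hG b)) = 0 :=
          (BAS.H0_zero (pr ρ S') _).2 h2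
        have h4 : H0π (Rep.of (pr ρ S')) (b - Finsupp.single (f t) (BAS.ep ρ (f t) hG b)) =
            H0π (Rep.of (pr ρ S')) b - H0π (Rep.of (pr ρ S')) (Finsupp.single (f t) (BAS.ep ρ (f t) hG b)) :=
          map_sub (H0π (Rep.of (pr ρ S'))).hom _ _
        rw [h4] at h3
        exact (sub_eq_zero.1 h3).symm
    exact (ConcreteCategory.isIso_iff_bijective (groupHomology.map φ (fm φ ρ f hf) 0)).2 key
  · rw [quasiIsoAt_iff_exactAt _ _ (BAS.exact (ρ.comp φ) t hA n)]
    exact BAS.exact ρ (f t) hG n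

end Pool.Agent.H56G
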