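import Pool.Agent.H56G.Stm

set_option autoImplicit false

noncomputable section

namespace Pool.Agent.H56G

namespace BRE

variable {K : Type} [Group K]

/-- the homotopy -/
def hh (n : ℕ) : ((Fin n → K) →₀ MonoidAlgebra ℤ K) →+ ((Fin (n + 1) → K) →₀ MonoidAlgebra ℤ K) :=
  Finsupp.liftAddHom fun g =>
    (Finsupp.liftAddHom fun x : K =>
      (smulAddHom ℤ ((Fin (n + 1) → K) →₀ MonoidAlgebra ℤ K)).flip
        (Finsupp.single (Fin.cons x g : Fin (n + 1) → K) (1 : MonoidAlgebra ℤ K))).comp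
      (MonoidAlgebra.coeffAddEquiv (R := ℤ) (M := K)).toAddMonoidHom

theorem hh_single (n : ℕ) (g : Fin n → K) (x : K) (m : ℤ) :
    hh n (Finsupp.single g (MonoidAlgebra.single x m)) =
      m • Finsupp.single (Fin.cons x g : Fin (n + 1) → K) (1 : MonoidAlgebra ℤ K) := by
  simp [hh]

theorem bd_single (n : ℕ) (g : Fin (n + 1) → K) (a : MonoidAlgebra ℤ K) :
    bd K n (Finsupp.single g a) = a • (Finsupp.single (fun i => g i.succ) (MonoidAlgebra.single (g 0) (1 : ℤ)) +
    Finset.univ.sum fun j : Fin (n + 1) =>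
      ((-1 : MonoidAlgebra ℤ K) ^ ((j : ℕ) + 1)) • Finsupp.single (Fin.contractNth j (· * ·) g) (1 : MonoidAlgebra ℤ K)) := by
  simp [bd]

theorem contract_zero (n : ℕ) (x : K) (g : Fin (n + 1) → K) :
    Fin.contractNth (0 : Fin (n + 2)) (· * ·) (Fin.cons x g : Fin (n + 2) → K) = Fin.cons (x * g 0) (fun i => g i.succ) := by
  funext k
  refine Fin.cases ?_ (fun i => ?_) k
  · rw [Fin.contractNth_apply_of_eq _ _ _ _ (by simp)]
    simp
  · rw [Fin.contractNth_apply_of_gt _ _ _ _ (by simp)]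
    simp

theorem contract_succ (n : ℕ) (x : K) (g : Fin (n + 1) → K) (j : Fin (n + 1)) :
    Fin.contractNth j.succ (· * ·) (Fin.cons x g : Fin (n + 2) → K) =
      Fin.cons x (Fin.contractNth j (· * ·) g) := by
  funext k
  refine Fin.cases ?_ (fun i => ?_) k
  · rw [Fin.contractNth_apply_of_lt _ _ _ _ (by simp)]
    simp
  · rcases lt_trichotomy (i : ℕ) (j : ℕ) with h | h | h
    · rw [Fin.contractNth_apply_of_lt _ _ _ _ (by simpa using h), Fin.cons_succ, 
        Fin.contractNth_apply_of_lt _ _ _ _ h]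
      rw [← Fin.succ_castSucc, Fin.cons_succ]
    · rw [Fin.contractNth_apply_of_eq _ _ _ _ (by simpa using h), ← Fin.succ_castSucc, Fin.cons_succ,
        Fin.cons_succ, Fin.cons_succ, Fin.contractNth_apply_of_eq _ _ _ _ h]
    · rw [Fin.contractNth_apply_of_gt _ _ _ _ (by simpa using h), Fin.cons_succ, Fin.cons_succ,
        Fin.contractNth_apply_of_gt _ _ _ _ h]

/-- values of the homotopy on monomials with a sign -/
theorem hh_smul_single (n : ℕ) (g : Fin n → K) (x : K) (i : ℕ) :
    hh n (MonoidAlgebra.single x (1 : ℤ) • ((-1 : MonoidAlgebra ℤ K) ^ i) • Finsupp.single g (1 : MonoidAlgebra ℤ K)) =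
      ((-1 : MonoidAlgebra ℤ K) ^ i) • Finsupp.single (Fin.cons x g : Fin (n + 1) → K) (1 : MonoidAlgebra ℤ K) := by
  have h1 : (MonoidAlgebra.single x (1 : ℤ) • ((-1 : MonoidAlgebra ℤ K) ^ i) • Finsupp.single g (1 : MonoidAlgebra ℤ K)) =
      Finsupp.single g (MonoidAlgebra.single x ((-1 : ℤ) ^ i)) := by
    rw [Finsupp.smul_single, Finsupp.smul_single, smul_eq_mul, smul_eq_mul, mul_one]
    congr 1
    rcases Nat.even_or_odd i with h | h
    · rw [h.neg_one_pow, h.neg_one_pow, mul_one]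
    · rw [h.neg_one_pow, h.neg_one_pow, mul_neg, mul_one, MonoidAlgebra.single_neg]
  rw [h1, hh_single]
  rcases Nat.even_or_odd i with h | h
  · rw [h.neg_one_pow, h.neg_one_pow, one_smul, one_smul]
  · rw [h.neg_one_pow, h.neg_one_pow, neg_smul, neg_smul, one_smul, one_smul]

/-- the homotopy in positive degrees -/
theorem homotopy (n : ℕ) (v : (Fin (n + 1) → K) →₀ MonoidAlgebra ℤ K) :
    bd K (n + 1) (hh (n + 1) v) + hh n (bd K n v) = v := by
  have key : ((bd K (n + 1)).toAddMonoidHom.comp (hh (n + 1))) + (hh n).comp (bd K n).toAddMonoidHom =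
      AddMonoidHom.id _ := by
    refine Finsupp.addHom_ext' fun g => MonoidAlgebra.addHom_ext' fun x => AddMonoidHom.ext_int ?_
    show bd K (n + 1) (hh (n + 1) (Finsupp.single g (MonoidAlgebra.single x (1 : ℤ)))) +
      hh n (bd K n (Finsupp.single g (MonoidAlgebra.single x (1 : ℤ)))) =
      Finsupp.single g (MonoidAlgebra.single x (1 : ℤ))
    rw [hh_single, one_smul, bd_single, one_smul, bd_single, smul_add, Finset.smul_sum, map_add, map_sum,
      Fin.sum_univ_succ]
    simp only [contract_succ, contract_zero, hh_smul_single]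
    have h3 : MonoidAlgebra.single x (1 : ℤ) • Finsupp.single (fun i : Fin n => g i.succ)
        (MonoidAlgebra.single (g 0) (1 : ℤ)) = Finsupp.single (fun i : Fin n => g i.succ)
        (MonoidAlgebra.single (x * g 0) (1 : ℤ)) := by
      rw [Finsupp.smul_single, smul_eq_mul, MonoidAlgebra.single_mul_single, mul_one]
    rw [h3, hh_single, one_smul]
    simp only [Fin.cons_succ, Fin.cons_zero, Fin.val_zero, zero_add, pow_one, Fin.val_succ, neg_smul, one_smul]
    have h2 : (∑ x_1 : Fin (n + 1), (-1 : MonoidAlgebra ℤ K) ^ ((x_1 : ℕ) + 1 + 1) •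
        (Finsupp.single (Fin.cons x (Fin.contractNth x_1 (· * ·) g) : Fin (n + 1) → K) (1 : MonoidAlgebra ℤ K))) =
        - ∑ x_1 : Fin (n + 1), (-1 : MonoidAlgebra ℤ K) ^ ((x_1 : ℕ) + 1) •
        (Finsupp.single (Fin.cons x (Fin.contractNth x_1 (· * ·) g) : Fin (n + 1) → K) (1 : MonoidAlgebra ℤ K)) := by
      rw [← Finset.sum_neg_distrib]
      refine Finset.sum_congr rfl fun j _ => ?_
      rw [pow_succ _ ((j : ℕ) + 1), mul_neg, mul_one, neg_smul]
    rw [h2]
    abel
  exact DFunLike.congr_fun key v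

/-- the augmentation -/
def eps : ((Fin 0 → K) →₀ MonoidAlgebra ℤ K) →+ ℤ :=
  (MonoidAlgebra.lift ℤ ℤ K (1 : K →* ℤ)).toRingHom.toAddMonoidHom.comp (Finsupp.applyAddHom default)

theorem eps_single (x : K) (m : ℤ) :
    eps (Finsupp.single (default : Fin 0 → K) (MonoidAlgebra.single x m)) = m := by
  simp [eps]

/-- the homotopy in degree zero -/
theorem homotopy_zero (v : (Fin 0 → K) →₀ MonoidAlgebra ℤ K) :
    bd K 0 (hh 0 v) + eps v • Finsupp.single default (1 : MonoidAlgebra ℤ K) = v := by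
  have key : ((bd K 0).toAddMonoidHom.comp (hh 0)) +
      ((smulAddHom ℤ ((Fin 0 → K) →₀ MonoidAlgebra ℤ K)).flip
        (Finsupp.single default (1 : MonoidAlgebra ℤ K))).comp (eps (K := K)) = AddMonoidHom.id _ := by
    refine Finsupp.addHom_ext' fun g => MonoidAlgebra.addHom_ext' fun x => AddMonoidHom.ext_int ?_
    obtain rfl : g = default := Subsingleton.elim _ _
    show bd K 0 (hh 0 (Finsupp.single default (MonoidAlgebra.single x (1 : ℤ)))) +
      eps (Finsupp.single (default : Fin 0 → K) (MonoidAlgebra.single x (1 : ℤ))) •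
        Finsupp.single default (1 : MonoidAlgebra ℤ K) =
      Finsupp.single default (MonoidAlgebra.single x (1 : ℤ))
    rw [hh_single, one_smul, bd_single, one_smul, eps_single, one_smul, Fin.sum_univ_one, Fin.cons_zero]
    have h1 : (fun i : Fin 0 => (Fin.cons x default : Fin 1 → K) i.succ) = default := Subsingleton.elim _ _
    have h2 : Fin.contractNth (0 : Fin 1) (· * ·) (Fin.cons x default : Fin 1 → K) = default :=
      Subsingleton.elim _ _
    rw [h1, h2]
    simp
  exact DFunLike.congr_fun key v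

theorem eps_smul (a : MonoidAlgebra ℤ K) (v : (Fin 0 → K) →₀ MonoidAlgebra ℤ K) :
    eps (a • v) = MonoidAlgebra.lift ℤ ℤ K (1 : K →* ℤ) a * eps v := by
  simp [eps]

theorem eps_bd (v : (Fin 1 → K) →₀ MonoidAlgebra ℤ K) : eps (bd K 0 v) = 0 := by
  induction v using Finsupp.induction_linear with
  | zero => simp
  | add f g hf hg => rw [map_add, map_add, hf, hg, add_zero]
  | single g a =>
    rw [bd_single, eps_smul, Fin.sum_univ_one]
    have h1 : (fun i : Fin 0 => g i.succ) = default := Subsingleton.elim _ _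
    have h2 : Fin.contractNth (0 : Fin 1) (· * ·) g = default := Subsingleton.elim _ _
    rw [h1, h2, map_add, eps_single]
    have h3 : eps ((-1 : MonoidAlgebra ℤ K) ^ (((0 : Fin 1) : ℕ) + 1) •
        Finsupp.single (default : Fin 0 → K) (1 : MonoidAlgebra ℤ K)) = -1 := by
      rw [eps_smul, MonoidAlgebra.one_def, eps_single]
      simp
    rw [h3]
    simp

/-- the generators are values of the homotopy -/
theorem single_eq (n : ℕ) (g : Fin (n + 1) → K) (a : MonoidAlgebra ℤ K) :
    Finsupp.single g a = a • hh n (Finsupp.single (fun i => g i.succ) (MonoidAlgebra.single (g 0) (1 : ℤ))) := by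
  rw [hh_single, one_smul, Finsupp.smul_single, smul_eq_mul, mul_one]
  congr 1
  exact (Fin.cons_self_tail g).symm

/-- a linear map which vanishes on the values of the homotopy vanishes -/
theorem zero_of_hh (n : ℕ) {X : Type} [AddCommGroup X] [Module (MonoidAlgebra ℤ K) X]
    (f : ((Fin (n + 1) → K) →₀ MonoidAlgebra ℤ K) →ₗ[MonoidAlgebra ℤ K] X) (h : ∀ v, f (hh n v) = 0) (v) :
    f v = 0 := by
  induction v using Finsupp.induction_linear with
  | zero => simp
  | add f g hf hg => rw [map_add, hf, hg, add_zero]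
  | single g a => rw [single_eq, map_smul, h, smul_zero]

theorem bd_bd (n : ℕ) (v : (Fin (n + 2) → K) →₀ MonoidAlgebra ℤ K) : bd K n (bd K (n + 1) v) = 0 := by
  induction n with
  | zero =>
    refine zero_of_hh 1 ((bd K 0).comp (bd K 1)) (fun w => ?_) v
    show bd K 0 (bd K 1 (hh 1 w)) = 0
    have h1 := homotopy 0 w
    have h2 := homotopy_zero (bd K 0 w)
    rw [eps_bd, zero_smul, add_zero] at h2
    have h3 : bd K 1 (hh 1 w) = w - hh 0 (bd K 0 w) := eq_sub_of_add_eq h1
    rw [h3, map_sub, h2, sub_self]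
  | succ n ih =>
    refine zero_of_hh (n + 2) ((bd K (n + 1)).comp (bd K (n + 2))) (fun w => ?_) v
    show bd K (n + 1) (bd K (n + 2) (hh (n + 2) w)) = 0
    have h1 := homotopy (n + 1) w
    have h2 := homotopy n (bd K (n + 1) w)
    rw [ih, map_zero, add_zero] at h2
    have h3 : bd K (n + 2) (hh (n + 2) w) = w - hh (n + 1) (bd K (n + 1) w) := eq_sub_of_add_eq h1
    rw [h3, map_sub, h2, sub_self]

end BRE

theorem t_BRE : S_BRE := by
  intro K _
  refine ⟨fun n v => ⟨fun h => ⟨BRE.hh (n + 1) v, ?_⟩, ?_⟩, fun v => ⟨fun h => ⟨BRE.hh 0 v, ?_⟩, ?_⟩⟩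
  · have h1 := BRE.homotopy n v
    rw [h, map_zero, add_zero] at h1
    exact h1
  · rintro ⟨w, rfl⟩
    exact BRE.bd_bd n w
  · have h1 := BRE.homotopy_zero v
    have h2 : BRE.eps v = 0 := h
    rw [h2, zero_smul, add_zero] at h1
    exact h1
  · rintro ⟨w, rfl⟩
    exact BRE.eps_bd w

end Pool.Agent.H56G
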