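import Pool.Agent.H56G.Stm
import Pool.Agent.Helper970.V7.P_v7_succ

/-!
# Project GPR, piece BRI: group homology by the bar resolution
-/

set_option autoImplicit false

noncomputable section

attribute [local instance] V7N.bcF_additive

namespace Pool.Agent.H56G

open CategoryTheory Pool.Agent.N496.CV V7N

open scoped TensorProduct

namespace BRI

/-- the modules of the bar resolution -/
abbrev XX (K : Type) [Group K] (n : ℕ) : Type := (Fin n → K) →₀ MonoidAlgebra ℤ K

section bc

variable {K R : Type} [Group K] [Ring R] (c : K →* R)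

/-- the class of `x ⊗ p` -/
def tm {n : ℕ} (x : R) (p : XX K n) : BCG c (XX K n) := Submodule.Quotient.mk (x ⊗ₜ[ℤ] p)

theorem tm_add {n : ℕ} (x : R) (p q : XX K n) : tm c x (p + q) = tm c x p + tm c x q := by
  unfold tm
  rw [TensorProduct.tmul_add]
  rfl

theorem tm_zero {n : ℕ} (x : R) : tm c x (0 : XX K n) = 0 := by
  unfold tm
  rw [TensorProduct.tmul_zero]
  rfl

theorem tm_zsmul {n : ℕ} (x : R) (z : ℤ) (p : XX K n) : tm c x (z • p) = z • tm c x p := by
  unfold tm
  rw [TensorProduct.tmul_smul]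
  rfl

theorem tm_smul {n : ℕ} (y x : R) (p : XX K n) : y • tm c x p = tm c (y * x) p := by
  unfold tm
  rw [← Submodule.Quotient.mk_smul, TensorProduct.smul_tmul', smul_eq_mul]

theorem tm_sum {n : ℕ} {ι : Type} (s : Finset ι) (x : R) (p : ι → XX K n) :
    tm c x (∑ i ∈ s, p i) = ∑ i ∈ s, tm c x (p i) := by
  classical
  induction s using Finset.induction_on with
  | empty => simp [tm_zero]
  | insert a s ha ih => rw [Finset.sum_insert ha, Finset.sum_insert ha, tm_add, ih]

theorem tm_rel {n : ℕ} (x : R) (g : K) (p : XX K n) :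
    tm c x ((MonoidAlgebra.single g (1 : ℤ)) • p) = tm c (x * c g) p := by
  unfold tm
  symm
  rw [Submodule.Quotient.eq]
  exact Submodule.subset_span ⟨x, g, p, rfl⟩

/-- from chains to the base change -/
def fi (n : ℕ) : ((Fin n → K) →₀ R) →ₗ[R] BCG c (XX K n) :=
  Finsupp.linearCombination R fun g => tm c 1 (Finsupp.single g (1 : MonoidAlgebra ℤ K))

theorem fi_single (n : ℕ) (g : Fin n → K) (r : R) :
    fi c n (Finsupp.single g r) = tm c r (Finsupp.single g (1 : MonoidAlgebra ℤ K)) := by
  unfold fi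
  rw [Finsupp.linearCombination_single, tm_smul, mul_one]

/-- evaluation of the coefficients -/
def FF (n : ℕ) : XX K n →ₗ[ℤ] ((Fin n → K) →₀ R) :=
  Finsupp.mapRange.linearMap (evM c).toAddMonoidHom.toIntLinearMap

theorem FF_single (n : ℕ) (g : Fin n → K) (a : MonoidAlgebra ℤ K) :
    FF c n (Finsupp.single g a) = Finsupp.single g (evM c a) := by
  unfold FF
  rw [Finsupp.mapRange.linearMap_apply, Finsupp.mapRange_single]
  rfl

theorem evM_single (g : K) : evM c (MonoidAlgebra.single g (1 : ℤ)) = c g := by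
  simp [evM]

theorem FF_smul (n : ℕ) (g : K) (p : XX K n) :
    FF c n ((MonoidAlgebra.single g (1 : ℤ)) • p) = c g • FF c n p := by
  unfold FF
  rw [Finsupp.mapRange.linearMap_apply, Finsupp.mapRange.linearMap_apply]
  ext a
  rw [Finsupp.mapRange_apply, Finsupp.smul_apply, Finsupp.smul_apply, Finsupp.mapRange_apply,
    smul_eq_mul, smul_eq_mul]
  change evM c (_ * _) = c g * evM c (p a)
  rw [map_mul, evM_single]

/-- from the base change to chains -/
def ps (n : ℕ) : BCG c (XX K n) →ₗ[R] ((Fin n → K) →₀ R) :=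
  Submodule.liftQ (bcR c (XX K n))
    (TensorProduct.AlgebraTensorModule.lift (LinearMap.toSpanSingleton R
      (XX K n →ₗ[ℤ] ((Fin n → K) →₀ R)) (FF c n))) (by
    rw [bcR, Submodule.span_le]
    rintro z ⟨x, g, p, rfl⟩
    rw [SetLike.mem_coe, LinearMap.mem_ker, map_sub, TensorProduct.AlgebraTensorModule.lift_tmul,
      TensorProduct.AlgebraTensorModule.lift_tmul, LinearMap.toSpanSingleton_apply,
      LinearMap.toSpanSingleton_apply, LinearMap.smul_apply, LinearMap.smul_apply, FF_smul,
      smul_smul, sub_self])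

theorem ps_tm (n : ℕ) (x : R) (p : XX K n) : ps c n (tm c x p) = x • FF c n p := rfl

theorem ps_fi (n : ℕ) (v : (Fin n → K) →₀ R) : ps c n (fi c n v) = v := by
  induction v using Finsupp.induction_linear with
  | zero => simp
  | add v w hv hw => rw [map_add, map_add, hv, hw]
  | single g r =>
    rw [fi_single, ps_tm, FF_single, map_one, Finsupp.smul_single, smul_eq_mul, mul_one]

theorem fi_FF (n : ℕ) (p : XX K n) : fi c n (FF c n p) = tm c 1 p := by
  induction p using Finsupp.induction_linear with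
  | zero => rw [map_zero, map_zero, tm_zero]
  | add v w hv hw => rw [map_add, map_add, hv, hw, tm_add]
  | single g a =>
    rw [FF_single, fi_single]
    induction a using MonoidAlgebra.induction_on with
    | of k =>
      have h1 : (Finsupp.single g (MonoidAlgebra.of ℤ K k) : XX K n) =
          (MonoidAlgebra.single k (1 : ℤ)) • Finsupp.single g (1 : MonoidAlgebra ℤ K) := by
        rw [Finsupp.smul_single, smul_eq_mul, mul_one]
        rfl
      rw [h1, tm_rel, one_mul]
      congr 1
      exact evM_single c k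
    | add a b ha hb =>
      rw [map_add, Finsupp.single_add, tm_add, ← ha, ← hb]
      unfold tm
      rw [TensorProduct.add_tmul]
      rfl
    | smul r a ha =>
      rw [map_zsmul, ← Finsupp.smul_single, tm_zsmul, ← ha]
      unfold tm
      rw [← TensorProduct.smul_tmul']
      rfl

theorem fi_ps (n : ℕ) (z : BCG c (XX K n)) : fi c n (ps c n z) = z := by
  have h : (fi c n).comp (ps c n) = LinearMap.id := by
    apply bc_ind
    intro p
    show fi c n (ps c n (tm c 1 p)) = tm c 1 p
    rw [ps_tm, one_smul, fi_FF]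
  exact LinearMap.congr_fun h z

theorem fi_inj (n : ℕ) : Function.Injective (fi c n) := fun v w h => by
  rw [← ps_fi c n v, ← ps_fi c n w, h]

theorem fi_sur (n : ℕ) : Function.Surjective (fi c n) := fun z => ⟨ps c n z, fi_ps c n z⟩

theorem dd_single (n : ℕ) (g : Fin (n + 1) → K) (r : R) :
    dd c n (Finsupp.single g r) = Finsupp.single (fun i => g i.succ) (r * c (g 0)) +
      Finset.univ.sum fun j : Fin (n + 1) =>
        (-1 : ℤ) ^ ((j : ℕ) + 1) • Finsupp.single (Fin.contractNth j (· * ·) g) r := by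
  unfold dd
  rw [groupHomology.inhomogeneousChains.d_def]
  refine (groupHomology.inhomogeneousChains.d_single (A := Rep.of (rr c)) n g r).trans ?_
  congr 2
  show r * c ((g 0)⁻¹)⁻¹ = _
  rw [inv_inv]

theorem bd_single (n : ℕ) (g : Fin (n + 1) → K) :
    bd K n (Finsupp.single g 1) =
      (Finsupp.single (fun i => g i.succ) (MonoidAlgebra.single (g 0) (1 : ℤ)) : XX K n) +
      Finset.univ.sum fun j : Fin (n + 1) =>
        (-1 : ℤ) ^ ((j : ℕ) + 1) • (Finsupp.single (Fin.contractNth j (· * ·) g) 1 : XX K n) := by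
  unfold bd
  rw [Finsupp.linearCombination_single, one_smul]
  congr 1
  refine Finset.sum_congr rfl fun j _ => ?_
  rcases neg_one_pow_eq_or (MonoidAlgebra ℤ K) ((j : ℕ) + 1) with h | h
  · rcases neg_one_pow_eq_or ℤ ((j : ℕ) + 1) with h' | h'
    · rw [h, h', one_smul, one_smul]
    · exfalso
      have h2 : Odd ((j : ℕ) + 1) := by
        by_contra hc
        rw [Nat.not_odd_iff_even] at hc
        rw [hc.neg_one_pow] at h'
        norm_num at h'
      rw [h2.neg_one_pow] at h
      have h3 := congrArg (augG K) h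
      rw [map_neg, map_one] at h3
      norm_num at h3
  · rcases neg_one_pow_eq_or ℤ ((j : ℕ) + 1) with h' | h'
    · exfalso
      have h2 : Even ((j : ℕ) + 1) := by
        by_contra hc
        rw [Nat.not_even_iff_odd] at hc
        rw [hc.neg_one_pow] at h'
        norm_num at h'
      rw [h2.neg_one_pow] at h
      have h3 := congrArg (augG K) h
      rw [map_neg, map_one] at h3
      norm_num at h3
    · rw [h, h', neg_smul, neg_smul, one_smul, one_smul]

/-- the comparison of the boundaries -/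
theorem bc_bd (n : ℕ) (v : (Fin (n + 1) → K) →₀ R) :
    bcM c (bd K n) (fi c (n + 1) v) = fi c n (dd c n v) := by
  induction v using Finsupp.induction_linear with
  | zero => simp only [map_zero]
  | add v w hv hw => simp only [map_add, hv, hw]
  | single g r =>
    have h1 : bcM c (bd K n) (fi c (n + 1) (Finsupp.single g r)) =
        tm c r (bd K n (Finsupp.single g 1)) := by
      rw [fi_single]
      exact bcM_mk c (bd K n) r _
    have h2 : (Finsupp.single (fun i => g i.succ) (MonoidAlgebra.single (g 0) (1 : ℤ)) : XX K n) =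
        (MonoidAlgebra.single (g 0) (1 : ℤ)) •
          Finsupp.single (fun i => g i.succ) (1 : MonoidAlgebra ℤ K) := by
      rw [Finsupp.smul_single, smul_eq_mul, mul_one]
    rw [h1, bd_single, tm_add, tm_sum, h2, tm_rel, dd_single, map_add, map_sum, fi_single]
    congr 1
    refine Finset.sum_congr rfl fun j _ => ?_
    rw [tm_zsmul, map_zsmul, fi_single]

end bc

/-- the augmentation -/
def epL (K : Type) [Group K] : XX K 0 →ₗ[MonoidAlgebra ℤ K] trivG K where
  toFun v := (show ℤ from augG K (v default))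
  map_add' v w := by
    show augG K ((v + w) default) = augG K (v default) + augG K (w default)
    rw [Finsupp.add_apply, map_add]
  map_smul' a v := by
    show augG K ((a • v) default) = augG K a * augG K (v default)
    rw [Finsupp.smul_apply, smul_eq_mul, map_mul]

theorem aug_single (K : Type) [Group K] (z : ℤ) : augG K (MonoidAlgebra.single 1 z) = z := by
  simp [augG, MonoidAlgebra.lift_single]

theorem sq (hB : S_BRE) (K : Type) [Group K] (n : ℕ) :
    (ModuleCat.ofHom (bd K (n + 1)) : ModuleCat.of (MonoidAlgebra ℤ K) (XX K (n + 1 + 1)) ⟶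
      ModuleCat.of (MonoidAlgebra ℤ K) (XX K (n + 1))) ≫
    (ModuleCat.ofHom (bd K n) : ModuleCat.of (MonoidAlgebra ℤ K) (XX K (n + 1)) ⟶
      ModuleCat.of (MonoidAlgebra ℤ K) (XX K n)) = 0 := by
  apply ModuleCat.hom_ext
  apply LinearMap.ext
  intro v
  exact ((hB K).1 n _).2 ⟨v, rfl⟩

/-- the bar resolution -/
def cx (hB : S_BRE) (K : Type) [Group K] :
    ChainComplex (ModuleCat.{0} (MonoidAlgebra ℤ K)) ℕ :=
  ChainComplex.of (fun n => ModuleCat.of (MonoidAlgebra ℤ K) (XX K n))
    (fun n => ModuleCat.ofHom (bd K n)) (sq hB K)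

theorem res (hB : S_BRE) (K : Type) [Group K] :
    ∃ P : ProjectiveResolution (trivG K), P.complex = cx hB K := by
  refine gen_res (fun n => ModuleCat.of (MonoidAlgebra ℤ K) (XX K n))
    (fun n => ModuleCat.ofHom (bd K n)) (sq hB K) (trivG K)
    (ModuleCat.ofHom (X := XX K 0) (Y := trivG K) (epL K)) ?_ ?_ ?_ ?_ ?_
  · intro n
    have : Module.Projective (MonoidAlgebra ℤ K) (XX K n) := inferInstance
    exact (IsProjective.iff_projective (R := MonoidAlgebra ℤ K) (XX K n)).1 this
  · apply ModuleCat.hom_ext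
    apply LinearMap.ext
    intro v
    exact ((hB K).2 _).2 ⟨v, rfl⟩
  · intro z
    refine ⟨Finsupp.single default (MonoidAlgebra.single 1 (show ℤ from z)), ?_⟩
    show augG K ((Finsupp.single default (MonoidAlgebra.single 1 (show ℤ from z)) : XX K 0)
      default) = (show ℤ from z)
    rw [Finsupp.single_eq_same]
    exact aug_single K _
  · intro v hv
    exact ((hB K).2 v).1 hv
  · intro n v hv
    exact ((hB K).1 n v).1 hv

theorem cx_d (hB : S_BRE) (K : Type) [Group K] (n : ℕ) :
    (cx hB K).d (n + 1) n = ModuleCat.ofHom (bd K n) :=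
  ChainComplex.of_d (fun n => ModuleCat.of (MonoidAlgebra ℤ K) (XX K n))
    (fun n => ModuleCat.ofHom (bd K n)) n

theorem hom_eq (hB : S_BRE) {K R : Type} [Group K] [Ring R] (c : K →* R) (n : ℕ) :
    Nonempty (homR c (n + 1) ≃ₗ[R] (LinearMap.ker (bcM c (bd K n)) ⧸
      (LinearMap.range (bcM c (bd K (n + 1)))).submoduleOf (LinearMap.ker (bcM c (bd K n))))) := by
  obtain ⟨P, hP⟩ := res hB K
  have h1 : Nonempty (((bcF c).leftDerived (n + 1)).obj (trivG K) ≅
      (((bcF c).mapHomologicalComplex (ComplexShape.down ℕ)).obj P.complex).homology (n + 1)) :=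
    ⟨P.isoLeftDerivedObj (bcF c) (n + 1)⟩
  rw [hP] at h1
  obtain ⟨i1⟩ := h1
  have l1 := i1.toLinearEquiv
  obtain ⟨l2⟩ := homology_succ
    (((bcF c).mapHomologicalComplex (ComplexShape.down ℕ)).obj (cx hB K)) n
  have d1 : (((bcF c).mapHomologicalComplex (ComplexShape.down ℕ)).obj (cx hB K)).d
      (n + 1 + 1) (n + 1) = ModuleCat.ofHom (bcM c (bd K (n + 1))) := by
    change (bcF c).map ((cx hB K).d (n + 1 + 1) (n + 1)) = _
    rw [cx_d]
    rfl
  have d0 : (((bcF c).mapHomologicalComplex (ComplexShape.down ℕ)).obj (cx hB K)).d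
      (n + 1) n = ModuleCat.ofHom (bcM c (bd K n)) := by
    change (bcF c).map ((cx hB K).d (n + 1) n) = _
    rw [cx_d]
    rfl
  rw [d1, d0] at l2
  exact ⟨l1.trans l2⟩

end BRI

open BRI in
theorem t_BRI : S_BRI := by
  intro hB K R _ _ c n
  obtain ⟨E⟩ := hom_eq hB c n
  have hker : ∀ v : (Fin (n + 1) → K) →₀ R, dd c n v = 0 →
      fi c (n + 1) v ∈ LinearMap.ker (bcM c (bd K n)) := fun v hv => by
    rw [LinearMap.mem_ker, bc_bd, hv, map_zero]
  refine ⟨fun v => E.symm (Submodule.Quotient.mk ⟨fi c (n + 1) v.1, hker v.1 v.2⟩), ?_, ?_, ?_⟩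
  · intro z
    obtain ⟨⟨y, hy⟩, hyz⟩ := Submodule.Quotient.mk_surjective _ (E z)
    obtain ⟨v, rfl⟩ := fi_sur c (n + 1) y
    have hv : dd c n v = 0 := by
      apply fi_inj c n
      rw [← bc_bd, map_zero]
      exact hy
    refine ⟨⟨v, hv⟩, ?_⟩
    show E.symm (Submodule.Quotient.mk ⟨fi c (n + 1) v, _⟩) = z
    rw [LinearEquiv.symm_apply_eq]
    exact hyz
  · intro v
    show E.symm (Submodule.Quotient.mk ⟨fi c (n + 1) v.1, _⟩) = 0 ↔ _
    rw [LinearEquiv.map_eq_zero_iff, Submodule.Quotient.mk_eq_zero]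
    constructor
    · rintro ⟨x, hx⟩
      obtain ⟨y, rfl⟩ := fi_sur c (n + 1 + 1) x
      refine ⟨y, ?_⟩
      apply fi_inj c (n + 1)
      rw [← bc_bd]
      exact hx
    · rintro ⟨y, hy⟩
      refine ⟨fi c (n + 1 + 1) y, ?_⟩
      rw [bc_bd, hy]
      rfl
  · intro s v w hw
    show E.symm (Submodule.Quotient.mk ⟨fi c (n + 1) w.1, _⟩) =
      s • E.symm (Submodule.Quotient.mk ⟨fi c (n + 1) v.1, _⟩)
    rw [← map_smul, ← Submodule.Quotient.mk_smul]
    congr 2
    apply Subtype.ext
    show fi c (n + 1) w.1 = s • fi c (n + 1) v.1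
    rw [hw, map_smul]

end Pool.Agent.H56G
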