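import Pool.Agent.H56G.Stm

/-!
Piece GPG of project GPR (helper45).
-/

set_option autoImplicit false


namespace Pool.Agent.H56G

theorem t_GPG : S_GPG := by
  intro V Γ H _
  refine ⟨?_, ?_, ?_⟩
  · intro u v huv a b
    rw [← commutatorElement_eq_one_iff_commute, commutatorElement_def]
    have h : (Monoid.CoprodI.of a * Monoid.CoprodI.of b * (Monoid.CoprodI.of a)⁻¹ * (Monoid.CoprodI.of b)⁻¹ :
        Monoid.CoprodI H) ∈ Subgroup.normalClosure (gpRel Γ H) :=
      Subgroup.subset_normalClosure ⟨u, v, a, b, huv, rfl⟩
    exact (QuotientGroup.eq_one_iff _).2 h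
  · intro K _ f hf
    have hle : Subgroup.normalClosure (gpRel Γ H) ≤ (Monoid.CoprodI.lift f).ker := by
      apply Subgroup.normalClosure_le_normal
      rintro r ⟨u, v, a, b, huv, rfl⟩
      have h := (commutatorElement_eq_one_iff_commute.2 (hf u v huv a b))
      rw [commutatorElement_def] at h
      rw [SetLike.mem_coe, MonoidHom.mem_ker]
      simp only [map_mul, map_inv, Monoid.CoprodI.lift_of]
      exact h
    refine ⟨QuotientGroup.lift _ (Monoid.CoprodI.lift f) (fun x hx => hle hx), ?_⟩
    intro v a
    exact Monoid.CoprodI.lift_of f a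
  · intro S hS
    rw [eq_top_iff]
    intro x _
    obtain ⟨y, rfl⟩ := QuotientGroup.mk_surjective x
    induction y using Monoid.CoprodI.induction_on with
    | one => exact S.one_mem
    | of i m => exact hS i m
    | mul x y hx hy => exact S.mul_mem (hx trivial) (hy trivial)

end Pool.Agent.H56G
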