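import Pool.Agent.H56G.Stm

set_option autoImplicit false

/-!
Project GPR (helper56), piece GPI (by helper72): the graph product as an amalgam, injectivity.
-/

noncomputable section

namespace Pool.Agent.H56G.GPI

variable {G : Type} [Group G]

/-- translation of the functions on the cosets -/
def TT (C : Subgroup G) : G →* Equiv.Perm ((G ⧸ C) → ℤ) where
  toFun g :=
    { toFun := fun y s => y (g⁻¹ • s)
      invFun := fun y s => y (g • s)
      left_inv := fun y => by funext s; simp
      right_inv := fun y => by funext s; simp }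
  map_one' := by ext y s; simp
  map_mul' g h := by ext y s; simp [mul_smul]

theorem TT_apply (C : Subgroup G) (g : G) (y : (G ⧸ C) → ℤ) (s : G ⧸ C) :
    TT C g y s = y (g⁻¹ • s) := rfl

open Classical in
/-- the function of the coset `C` -/
def ee (C : Subgroup G) : (G ⧸ C) → ℤ := fun s => if s = ((1 : G) : G ⧸ C) then 1 else 0

theorem ee_pos (C : Subgroup G) (s : G ⧸ C) (h : s = ((1 : G) : G ⧸ C)) : ee C s = 1 := if_pos h

theorem ee_neg (C : Subgroup G) (s : G ⧸ C) (h : s ≠ ((1 : G) : G ⧸ C)) : ee C s = 0 := if_neg h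

/-- translation by `ee` -/
def ta (C : Subgroup G) : Equiv.Perm ((G ⧸ C) → ℤ) := Equiv.addRight (ee C)

theorem ta_apply (C : Subgroup G) (y : (G ⧸ C) → ℤ) : ta C y = y + ee C := rfl

theorem ta_inv_apply (C : Subgroup G) (y : (G ⧸ C) → ℤ) : (ta C)⁻¹ y = y - ee C := by
  rw [sub_eq_add_neg]; rfl

/-- the conjugated action -/
def CC (C : Subgroup G) : G →* Equiv.Perm ((G ⧸ C) → ℤ) :=
  (MulAut.conj (ta C)⁻¹).toMonoidHom.comp (TT C)

theorem CC_apply (C : Subgroup G) (g : G) (y : (G ⧸ C) → ℤ) :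
    CC C g y = TT C g (y + ee C) - ee C := by
  have h : CC C g = (ta C)⁻¹ * TT C g * ((ta C)⁻¹)⁻¹ := rfl
  rw [h, Equiv.Perm.mul_apply, Equiv.Perm.mul_apply, ta_inv_apply, inv_inv, ta_apply]

theorem TT_add (C : Subgroup G) (g : G) (y z : (G ⧸ C) → ℤ) :
    TT C g (y + z) = TT C g y + TT C g z := rfl

theorem TT_sub (C : Subgroup G) (g : G) (y z : (G ⧸ C) → ℤ) :
    TT C g (y - z) = TT C g y - TT C g z := rfl

theorem TT_zero (C : Subgroup G) (g : G) : TT C g 0 = 0 := rfl

theorem TT_ee (C : Subgroup G) (c : G) (hc : c ∈ C) : TT C c (ee C) = ee C := by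
  funext s
  rw [TT_apply]
  have h : (c⁻¹ • s = ((1 : G) : G ⧸ C)) ↔ (s = ((1 : G) : G ⧸ C)) := by
    rw [inv_smul_eq_iff]
    have h1 : c • ((1 : G) : G ⧸ C) = ((1 : G) : G ⧸ C) := by
      rw [MulAction.Quotient.smul_coe, QuotientGroup.eq]
      simpa using hc
    rw [h1]
  by_cases hs : s = ((1 : G) : G ⧸ C)
  · rw [ee_pos C s hs, ee_pos C _ (h.2 hs)]
  · rw [ee_neg C s hs, ee_neg C _ (fun h' => hs (h.1 h'))]

theorem CC_eq (C : Subgroup G) (c : G) (hc : c ∈ C) : CC C c = TT C c := by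
  apply Equiv.ext
  intro y
  rw [CC_apply, TT_add, TT_ee C c hc, add_sub_cancel_right]

/-- the representative -/
def rp (P : Subgroup G) (g : G) : G := Quotient.out (g : G ⧸ P)

theorem rp_mem (P : Subgroup G) (g : G) : (rp P g)⁻¹ * g ∈ P := by
  rw [← QuotientGroup.eq]
  exact Quotient.out_eq _

theorem rp_mul (P : Subgroup G) (g h : G) (hh : h ∈ P) : rp P (g * h) = rp P g := by
  have h1 : ((g * h : G) : G ⧸ P) = (g : G ⧸ P) := by
    rw [eq_comm, QuotientGroup.eq]
    simpa using hh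
  unfold rp
  rw [h1]

/-- the function for `B` -/
def pB (C P : Subgroup G) (F : G →* Equiv.Perm ((G ⧸ C) → ℤ)) (g : G) : (G ⧸ C) → ℤ :=
  TT C (rp P g) (F ((rp P g)⁻¹ * g) 0)

/-- the function for `A` -/
def pA (C P : Subgroup G) (F : G →* Equiv.Perm ((G ⧸ C) → ℤ)) (g : G) : (G ⧸ C) → ℤ :=
  TT C g (ee C) - pB C P F g

theorem pB_mul (C P B : Subgroup G) (F : G →* Equiv.Perm ((G ⧸ C) → ℤ)) (hBP : B ≤ P)
    (hB : ∀ b ∈ B, F b = TT C b) (g b : G) (hb : b ∈ B) : pB C P F (g * b) = pB C P F g := by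
  unfold pB
  rw [rp_mul P g b (hBP hb), ← mul_assoc, map_mul, Equiv.Perm.mul_apply, hB b hb, TT_zero]

theorem pA_mul (C P A : Subgroup G) (F : G →* Equiv.Perm ((G ⧸ C) → ℤ)) (hAP : A ≤ P)
    (hA : ∀ a ∈ A, F a = CC C a) (hP : ∀ h ∈ P, ∀ y, F h y = TT C h y + F h 0)
    (g a : G) (ha : a ∈ A) : pA C P F (g * a) = pA C P F g := by
  unfold pA pB
  rw [rp_mul P g a (hAP ha), ← mul_assoc, map_mul F, Equiv.Perm.mul_apply, hA a ha, CC_apply,
    zero_add, hP _ (rp_mem P g), TT_sub, TT_add, TT_sub, ← Equiv.Perm.mul_apply,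
    ← Equiv.Perm.mul_apply, ← Equiv.Perm.mul_apply, ← map_mul, ← map_mul]
  rw [mul_inv_cancel_left]
  abel

theorem fin_sum {S X : Type} [AddCommGroup X] (x : S →₀ X) (s0 : S) (f : S → ℤ)
    (h1 : f s0 = 1) (h2 : ∀ s, s ≠ s0 → f s = 0) : x.sum (fun s m => f s • m) = x s0 := by
  classical
  rw [Finsupp.sum, Finset.sum_eq_single s0]
  · rw [h1, one_smul]
  · intro s _ hs
    rw [h2 s hs, zero_smul]
  · intro hs
    rw [Finsupp.notMem_support_iff.1 hs, smul_zero]

theorem core (C A B P : Subgroup G) (hCA : C ≤ A) (hCB : C ≤ B) (hAP : A ≤ P) (hBP : B ≤ P)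
    (F : G →* Equiv.Perm ((G ⧸ C) → ℤ)) (hA : ∀ a ∈ A, F a = CC C a)
    (hB : ∀ b ∈ B, F b = TT C b) (hP : ∀ h ∈ P, ∀ y, F h y = TT C h y + F h 0)
    (X : Type) [AddCommGroup X] (x : (G ⧸ C) →₀ X)
    (h1 : x.mapDomain (Subgroup.quotientMapOfLE hCA) = 0)
    (h2 : x.mapDomain (Subgroup.quotientMapOfLE hCB) = 0) : x = 0 := by
  ext s0
  have k1 : (x.mapDomain (Subgroup.quotientMapOfLE hCA)).sum
      (fun s m => pA C P F (Quotient.out s) s0 • m) = 0 := by
    rw [h1, Finsupp.sum_zero_index]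
  have k2 : (x.mapDomain (Subgroup.quotientMapOfLE hCB)).sum
      (fun s m => pB C P F (Quotient.out s) s0 • m) = 0 := by
    rw [h2, Finsupp.sum_zero_index]
  rw [Finsupp.sum_mapDomain_index (fun _ => smul_zero _) (fun _ _ _ => smul_add _ _ _)] at k1 k2
  have k3 : x.sum (fun s m => (pA C P F (Quotient.out (Subgroup.quotientMapOfLE hCA s)) s0
      + pB C P F (Quotient.out (Subgroup.quotientMapOfLE hCB s)) s0) • m) = 0 := by
    simp only [add_smul]
    rw [Finsupp.sum_add, k1, k2, add_zero]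
  have k4 : ∀ s : G ⧸ C, pA C P F (Quotient.out (Subgroup.quotientMapOfLE hCA s)) s0
      + pB C P F (Quotient.out (Subgroup.quotientMapOfLE hCB s)) s0
      = ee C ((Quotient.out s)⁻¹ • s0) := by
    intro s
    obtain ⟨g, rfl⟩ := QuotientGroup.mk_surjective s
    have a1 : pA C P F (Quotient.out (Subgroup.quotientMapOfLE hCA (g : G ⧸ C))) = pA C P F g := by
      obtain ⟨a, ha⟩ := QuotientGroup.mk_out_eq_mul A g
      have : Quotient.out (Subgroup.quotientMapOfLE hCA (g : G ⧸ C)) = g * a := ha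
      rw [this, pA_mul C P A F hAP hA hP g a a.2]
    have a2 : pB C P F (Quotient.out (Subgroup.quotientMapOfLE hCB (g : G ⧸ C))) = pB C P F g := by
      obtain ⟨b, hb⟩ := QuotientGroup.mk_out_eq_mul B g
      have : Quotient.out (Subgroup.quotientMapOfLE hCB (g : G ⧸ C)) = g * b := hb
      rw [this, pB_mul C P B F hBP hB g b b.2]
    rw [a1, a2]
    have a3 : ee C ((Quotient.out (g : G ⧸ C))⁻¹ • s0) = TT C g (ee C) s0 := by
      obtain ⟨c, hc⟩ := QuotientGroup.mk_out_eq_mul C g
      rw [hc, ← TT_apply C (g * c) (ee C) s0, map_mul, Equiv.Perm.mul_apply, TT_ee C c c.2]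
    rw [a3]
    unfold pA
    rw [Pi.sub_apply, sub_add_cancel]
  rw [← fin_sum x s0 (fun s => pA C P F (Quotient.out (Subgroup.quotientMapOfLE hCA s)) s0
      + pB C P F (Quotient.out (Subgroup.quotientMapOfLE hCB s)) s0)]
  · exact k3
  · rw [k4]
    have : (Quotient.out s0)⁻¹ • s0 = ((1 : G) : G ⧸ C) := by
      rw [inv_smul_eq_iff, MulAction.Quotient.smul_coe, smul_eq_mul, mul_one]
      exact (Quotient.out_eq s0).symm
    rw [this]
    exact ee_pos C _ rfl
  · intro s hs
    rw [k4]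
    apply ee_neg
    intro h
    apply hs
    rw [inv_smul_eq_iff, MulAction.Quotient.smul_coe, smul_eq_mul, mul_one] at h
    rw [h]
    exact (Quotient.out_eq s).symm

end Pool.Agent.H56G.GPI

namespace Pool.Agent.H56G

open GPI in
theorem t_GPI : S_GPI := by
  intro V Γ H _ G _ ι hG D v hv X _ x h1 h2
  classical
  let C : Subgroup G := gs ι (D ∩ Γ.neighborSet v)
  let f : ∀ u, H u →* Equiv.Perm ((G ⧸ C) → ℤ) := fun u =>
    if u ∈ D then (if u = v then (TT C).comp (ι u) else (CC C).comp (ι u)) else 1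
  have hf : ∀ u w, Γ.Adj u w → ∀ a b, Commute (f u a) (f w b) := by
    intro u w huw a b
    by_cases hu : u ∈ D
    · by_cases hw : w ∈ D
      · by_cases huv : u = v
        · by_cases hwv : w = v
          · subst huv; subst hwv
            exact absurd rfl (Γ.ne_of_adj huw)
          · have e1 : f u a = TT C (ι u a) := by simp [f, hv, huv]
            have e2 : f w b = CC C (ι w b) := by simp [f, hw, hwv]
            have e3 : ι w b ∈ C := Subgroup.subset_closure ⟨w, ⟨hw, huv ▸ huw⟩, b, rfl⟩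
            rw [e1, e2, CC_eq C _ e3]
            exact (hG.comm u w huw a b).map (TT C)
        · by_cases hwv : w = v
          · have e1 : f u a = CC C (ι u a) := by simp [f, hu, huv]
            have e2 : f w b = TT C (ι w b) := by simp [f, hv, hwv]
            have e3 : ι u a ∈ C := Subgroup.subset_closure ⟨u, ⟨hu, hwv ▸ huw.symm⟩, a, rfl⟩
            rw [e1, e2, CC_eq C _ e3]
            exact (hG.comm u w huw a b).map (TT C)
          · have e1 : f u a = CC C (ι u a) := by simp [f, hu, huv]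
            have e2 : f w b = CC C (ι w b) := by simp [f, hw, hwv]
            rw [e1, e2]
            exact (hG.comm u w huw a b).map (CC C)
      · have e2 : f w b = 1 := by simp [f, hw]
        rw [e2]
        exact Commute.one_right _
    · have e1 : f u a = 1 := by simp [f, hu]
      rw [e1]
      exact Commute.one_left _
  obtain ⟨F, hF⟩ := hG.lift (Equiv.Perm ((G ⧸ C) → ℤ)) f hf
  have gv : ∀ a, F (ι v a) = TT C (ι v a) := by
    intro a
    rw [hF]
    simp [f, hv]
  have gu : ∀ u, u ∈ D → u ≠ v → ∀ a, F (ι u a) = CC C (ι u a) := by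
    intro u hu huv a
    rw [hF]
    simp [f, hu, huv]
  refine core C (gs ι (D \ {v})) (gs ι (insert v (D ∩ Γ.neighborSet v))) (gs ι D) _ _
    (gs_mono ι Set.sdiff_subset)
    (gs_mono ι (Set.insert_subset hv Set.inter_subset_left)) F ?_ ?_ ?_ X x h1 h2
  · intro a ha
    have : gs ι (D \ {v}) ≤ MonoidHom.eqLocus F (CC C) := by
      unfold gs
      rw [Subgroup.closure_le]
      rintro x ⟨u, hu, a, rfl⟩
      exact gu u hu.1 hu.2 a
    exact this ha
  · intro b hb
    have : gs ι (insert v (D ∩ Γ.neighborSet v)) ≤ MonoidHom.eqLocus F (TT C) := by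
      unfold gs
      rw [Subgroup.closure_le]
      rintro x ⟨u, hu, a, rfl⟩
      by_cases huv : u = v
      · subst huv
        exact gv a
      · have hu' : u ∈ D ∩ Γ.neighborSet v := by
          rcases hu with hu | hu
          · exact absurd hu huv
          · exact hu
        show F (ι u a) = TT C (ι u a)
        rw [gu u hu'.1 huv a, CC_eq C _ (Subgroup.subset_closure ⟨u, hu', a, rfl⟩)]
    exact this hb
  · intro h hh
    induction hh using Subgroup.closure_induction with
    | mem x hx =>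
      obtain ⟨u, hu, a, rfl⟩ := hx
      intro y
      by_cases huv : u = v
      · subst huv
        rw [gv a, TT_zero, add_zero]
      · rw [gu u hu huv a, CC_apply, CC_apply, TT_add, zero_add]
        abel
    | one => intro y; rw [map_one, map_one]; simp
    | mul p q _ _ hp hq =>
      intro y
      rw [map_mul F, Equiv.Perm.mul_apply, Equiv.Perm.mul_apply, hq y, hp, TT_add,
        hp (F q 0), map_mul (TT C), Equiv.Perm.mul_apply]
      abel
    | inv p _ hp =>
      intro y
      have e1 : ∀ z, F p⁻¹ z = TT C p⁻¹ (z - F p 0) := by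
        intro z
        rw [map_inv, Equiv.Perm.inv_eq_iff_eq, hp, ← Equiv.Perm.mul_apply, ← map_mul,
          mul_inv_cancel, map_one, Equiv.Perm.one_apply, sub_add_cancel]
      rw [e1 y, e1 0, TT_sub, TT_sub, TT_zero]
      abel

end Pool.Agent.H56G
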