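import Pool.Agent.H56G.Stm

/-!
# Project GPR, piece GPX: the Mayer-Vietoris square of the coset spaces of a graph product
-/

set_option autoImplicit false

namespace Pool.Agent.H56G

namespace GPX

section mid

variable {G : Type} [Group G] {A B C P : Subgroup G} (X : Type) [AddCommGroup X]

theorem mid (hCA : C ≤ A) (hCB : C ≤ B) (hAP : A ≤ P) (hBP : B ≤ P) (hP : P ≤ A ⊔ B)
    (a : (G ⧸ A) →₀ X) (b : (G ⧸ B) →₀ X)
    (h : a.mapDomain (Subgroup.quotientMapOfLE hAP) = b.mapDomain (Subgroup.quotientMapOfLE hBP)) :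
    ∃ x : (G ⧸ C) →₀ X, x.mapDomain (Subgroup.quotientMapOfLE hCA) = a ∧
      x.mapDomain (Subgroup.quotientMapOfLE hCB) = b := by
  classical
  let R : ((G ⧸ C) →₀ X) →+ ((G ⧸ A) →₀ X) × ((G ⧸ B) →₀ X) :=
    AddMonoidHom.prod (Finsupp.mapDomain.addMonoidHom (Subgroup.quotientMapOfLE hCA))
      (Finsupp.mapDomain.addMonoidHom (Subgroup.quotientMapOfLE hCB))
  let π := QuotientAddGroup.mk' R.range
  let α : G → X →+ (((G ⧸ A) →₀ X) × ((G ⧸ B) →₀ X)) ⧸ R.range := fun g =>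
    π.comp ((AddMonoidHom.inl _ _).comp (Finsupp.singleAddHom (g : G ⧸ A)))
  let β : G → X →+ (((G ⧸ A) →₀ X) × ((G ⧸ B) →₀ X)) ⧸ R.range := fun g =>
    π.comp ((AddMonoidHom.inr _ _).comp (Finsupp.singleAddHom (g : G ⧸ B)))
  have hαβ : ∀ g, α g + β g = 0 := by
    intro g
    ext x
    change π (Finsupp.single (g : G ⧸ A) x, 0) + π (0, Finsupp.single (g : G ⧸ B) x) = 0
    rw [← map_add, Prod.mk_add_mk, add_zero, zero_add]
    rw [QuotientAddGroup.mk'_apply, QuotientAddGroup.eq_zero_iff]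
    refine ⟨Finsupp.single (g : G ⧸ C) x, ?_⟩
    change (Finsupp.mapDomain _ _, Finsupp.mapDomain _ _) = _
    rw [Finsupp.mapDomain_single, Finsupp.mapDomain_single]
    rfl
  have hβ : ∀ g x, β g x = - α g x := fun g x =>
    eq_neg_of_add_eq_zero_right (DFunLike.congr_fun (hαβ g) x)
  have hA : ∀ g, ∀ p ∈ A, α (g * p) = α g := by
    intro g p hp
    have : ((g * p : G) : G ⧸ A) = (g : G ⧸ A) := by
      rw [QuotientGroup.eq, mul_inv_rev, mul_assoc, inv_mul_cancel, mul_one]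
      exact A.inv_mem hp
    change π.comp ((AddMonoidHom.inl _ _).comp (Finsupp.singleAddHom ((g * p : G) : G ⧸ A))) = _
    rw [this]
  have hB : ∀ g, ∀ p ∈ B, α (g * p) = α g := by
    intro g p hp
    have : ((g * p : G) : G ⧸ B) = (g : G ⧸ B) := by
      rw [QuotientGroup.eq, mul_inv_rev, mul_assoc, inv_mul_cancel, mul_one]
      exact B.inv_mem hp
    have h1 : β (g * p) = β g := by
      change π.comp ((AddMonoidHom.inr _ _).comp (Finsupp.singleAddHom ((g * p : G) : G ⧸ B))) = _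
      rw [this]
    ext x
    have h2 := DFunLike.congr_fun h1 x
    rw [hβ, hβ, neg_inj] at h2
    exact h2
  let S : Subgroup G :=
    { carrier := {p | ∀ g, α (g * p) = α g}
      mul_mem' := fun {p q} hp hq g => by rw [← mul_assoc, hq, hp]
      one_mem' := fun g => by rw [mul_one]
      inv_mem' := fun {p} hp g => by
        have h1 := hp (g * p⁻¹)
        rw [mul_assoc, inv_mul_cancel, mul_one] at h1
        exact h1.symm }
  have hS : P ≤ S := hP.trans (sup_le (fun p hp g => hA g p hp) (fun p hp g => hB g p hp))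
  let γ : G ⧸ P → X →+ (((G ⧸ A) →₀ X) × ((G ⧸ B) →₀ X)) ⧸ R.range := fun s => α (Quotient.out s)
  have hγ : ∀ g : G, γ (g : G ⧸ P) = α g := by
    intro g
    obtain ⟨p, hp⟩ := QuotientGroup.mk_out_eq_mul P g
    change α (Quotient.out (g : G ⧸ P)) = α g
    rw [hp]
    exact hS p.2 g
  let Ψ := Finsupp.liftAddHom γ
  have h1 : Ψ.comp (Finsupp.mapDomain.addMonoidHom (Subgroup.quotientMapOfLE hAP)) =
      π.comp (AddMonoidHom.inl _ _) := by
    refine Finsupp.addHom_ext fun s x => ?_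
    obtain ⟨g, rfl⟩ := QuotientGroup.mk_surjective s
    change Ψ (Finsupp.mapDomain _ (Finsupp.single _ x)) = _
    rw [Finsupp.mapDomain_single]
    change Finsupp.liftAddHom γ (Finsupp.single ((g : G) : G ⧸ P) x) = _
    rw [Finsupp.liftAddHom_apply_single, hγ]
    rfl
  have h2 : Ψ.comp (Finsupp.mapDomain.addMonoidHom (Subgroup.quotientMapOfLE hBP)) =
      - π.comp (AddMonoidHom.inr _ _) := by
    refine Finsupp.addHom_ext fun s x => ?_
    obtain ⟨g, rfl⟩ := QuotientGroup.mk_surjective s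
    change Ψ (Finsupp.mapDomain _ (Finsupp.single _ x)) = _
    rw [Finsupp.mapDomain_single]
    change Finsupp.liftAddHom γ (Finsupp.single ((g : G) : G ⧸ P) x) = - (β g x)
    rw [Finsupp.liftAddHom_apply_single, hγ, hβ, neg_neg]
  have h3 := DFunLike.congr_fun h1 a
  have h4 := DFunLike.congr_fun h2 b
  have h5 : π (a, b) = 0 := by
    have e1 : Ψ (a.mapDomain (Subgroup.quotientMapOfLE hAP)) = π (a, 0) := h3
    have e2 : Ψ (b.mapDomain (Subgroup.quotientMapOfLE hBP)) = - π (0, b) := h4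
    rw [h, e2] at e1
    have e3 : (a, b) = ((a, 0) : ((G ⧸ A) →₀ X) × ((G ⧸ B) →₀ X)) + (0, b) := by
      rw [Prod.mk_add_mk, add_zero, zero_add]
    rw [e3, map_add, ← e1, neg_add_cancel]
  rw [QuotientAddGroup.mk'_apply, QuotientAddGroup.eq_zero_iff] at h5
  obtain ⟨x, hx⟩ := h5
  exact ⟨x, congrArg Prod.fst hx, congrArg Prod.snd hx⟩

end mid

end GPX

theorem t_GPX : S_GPX := by
  intro hI V Γ H _ G _ ι hG D v hv
  refine ⟨fun s => ?_, fun s => Or.inl ?_, fun X _ x h1 h2 => hI V Γ H G ι hG D v hv X x h1 h2, fun X _ a b h => ?_⟩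
  · obtain ⟨g, rfl⟩ := QuotientGroup.mk_surjective s
    rfl
  · obtain ⟨g, rfl⟩ := QuotientGroup.mk_surjective s
    exact ⟨(g : G ⧸ gs ι (D \ {v})), rfl⟩
  · refine GPX.mid X _ _ _ _ ?_ a b h
    unfold gs
    rw [Subgroup.closure_le]
    rintro _ ⟨u, hu, c, rfl⟩
    by_cases huv : u = v
    · subst huv
      exact Subgroup.mem_sup_right (Subgroup.subset_closure ⟨u, Set.mem_insert _ _, c, rfl⟩)
    · exact Subgroup.mem_sup_left (Subgroup.subset_closure ⟨u, ⟨hu, huv⟩, c, rfl⟩)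

end Pool.Agent.H56G
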