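import Pool.Agent.H56G.Stm

/-!
# Project GPR, piece INJ (helper91): injective maps of the vertex groups

One vertex group at a time: if only the group of `v` changes, then the graph product embeds into the amalgam of the graph
product and `H v × C` over `K v × C`, `C` the subgroup of the neighbours of `v`, and this embedding factors through the
graph product of the groups `H`.
-/

set_option autoImplicit false

noncomputable section

namespace Pool.Agent.H56G

namespace INJ

/-- two groups as a family -/
def Gb (X Y : Type) : Bool → Type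
  | true => X
  | false => Y

instance gbGroup (X Y : Type) [hX : Group X] [hY : Group Y] : ∀ b, Group (Gb X Y b)
  | true => hX
  | false => hY

/-- two homomorphisms as a family -/
def ps {C X Y : Type} [Group C] [Group X] [Group Y] (f : C →* X) (g : C →* Y) : ∀ b, C →* Gb X Y b
  | true => f
  | false => g

theorem amalgam {C X Y : Type} [Group C] [Group X] [Group Y] (f : C →* X) (g : C →* Y)
    (hf : Function.Injective f) (hg : Function.Injective g) :
    ∃ (P : Type) (_ : Group P) (j : X →* P) (k : Y →* P), Function.Injective j ∧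
      ∀ c, j (f c) = k (g c) := by
  refine ⟨Monoid.PushoutI (ps f g), inferInstance, Monoid.PushoutI.of (φ := ps f g) true,
    Monoid.PushoutI.of (φ := ps f g) false, ?_, ?_⟩
  · refine Monoid.PushoutI.of_injective (φ := ps f g) (fun b => ?_) true
    cases b
    · exact hg
    · exact hf
  · intro c
    exact (Monoid.PushoutI.of_apply_eq_base (ps f g) true c).trans
      (Monoid.PushoutI.of_apply_eq_base (ps f g) false c).symm

variable {V : Type} {Γ : SimpleGraph V}

theorem hom_ext {H : V → Type} [∀ v, Group (H v)] {G K : Type} [Group G] [Group K]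
    {ι : ∀ v, H v →* G} (h : IsGP Γ ι) {f g : G →* K} (hfg : ∀ v a, f (ι v a) = g (ι v a)) :
    f = g := by
  have h1 := h.gen (f.eqLocus g) hfg
  ext x
  have h2 : x ∈ f.eqLocus g := by
    rw [h1]
    exact Subgroup.mem_top x
  exact h2

theorem step {K H : V → Type} [∀ v, Group (K v)] [∀ v, Group (H v)] {A G : Type} [Group A] [Group G]
    {κ : ∀ v, K v →* A} {ι : ∀ v, H v →* G} (hκ : IsGP Γ κ) (hι : IsGP Γ ι) (φ : A →* G)
    (e : ∀ v, K v →* H v) (hφ : ∀ v k, φ (κ v k) = ι v (e v k))
    (he : ∀ v, Function.Injective (e v)) (v : V) (hs : ∀ w, w ≠ v → Function.Surjective (e w)) :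
    Function.Injective φ := by
  classical
  have hC : ∀ a : K v, ∀ c ∈ gs κ (Γ.neighborSet v), Commute (κ v a) c := by
    intro a c hc
    have h : gs κ (Γ.neighborSet v) ≤ Subgroup.centralizer {κ v a} := by
      refine (Subgroup.closure_le _).2 ?_
      rintro _ ⟨w, hw, b, rfl⟩
      rw [SetLike.mem_coe, Subgroup.mem_centralizer_iff]
      intro x hx
      rw [Set.mem_singleton_iff.1 hx]
      exact hκ.comm v w hw a b
    exact Subgroup.mem_centralizer_iff.1 (h hc) _ rfl
  -- the retraction to the group of `v`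
  obtain ⟨r, hr⟩ := hκ.lift (K v)
    (fun w => (Pi.evalMonoidHom K v).comp (MonoidHom.mulSingle K w)) (by
      intro u w huw a b
      by_cases hu : u = v
      · have hw : w ≠ v := fun h => huw.ne (hu.trans h.symm)
        have h1 : ((Pi.evalMonoidHom K v).comp (MonoidHom.mulSingle K w)) b = 1 :=
          Pi.mulSingle_eq_of_ne (Ne.symm hw) b
        rw [h1]
        exact Commute.one_right _
      · have h1 : ((Pi.evalMonoidHom K v).comp (MonoidHom.mulSingle K u)) a = 1 :=
          Pi.mulSingle_eq_of_ne (Ne.symm hu) a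
        rw [h1]
        exact Commute.one_left _)
  have hrv : ∀ a : K v, r (κ v a) = a := fun a => (hr v a).trans (Pi.mulSingle_eq_same v a)
  have hrC : ∀ c ∈ gs κ (Γ.neighborSet v), r c = 1 := by
    intro c hc
    have h : gs κ (Γ.neighborSet v) ≤ r.ker := by
      refine (Subgroup.closure_le _).2 ?_
      rintro _ ⟨w, hw, b, rfl⟩
      rw [SetLike.mem_coe, MonoidHom.mem_ker, hr]
      have hw' : w ≠ v := (Γ.ne_of_adj hw).symm
      exact Pi.mulSingle_eq_of_ne (Ne.symm hw') b
    exact h hc
  -- the two embeddings of `K v × C`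
  let m : K v × gs κ (Γ.neighborSet v) →* A :=
    MonoidHom.noncommCoprod (κ v) (gs κ (Γ.neighborSet v)).subtype fun a c => hC a c c.2
  have hm : ∀ a c, m (a, c) = κ v a * c := fun a c => rfl
  have hmi : Function.Injective m := by
    refine (injective_iff_map_eq_one m).2 ?_
    rintro ⟨a, c⟩ h
    rw [hm] at h
    have h1 := congrArg r h
    rw [map_mul, hrv, hrC c c.2, mul_one, map_one] at h1
    rw [h1, map_one, one_mul] at h
    exact Prod.ext h1 (Subtype.ext h)
  let g : K v × gs κ (Γ.neighborSet v) →* H v × gs κ (Γ.neighborSet v) :=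
    (e v).prodMap (MonoidHom.id _)
  have hg : ∀ a c, g (a, c) = (e v a, c) := fun a c => rfl
  have hgi : Function.Injective g := by
    rintro ⟨a, c⟩ ⟨a', c'⟩ h
    rw [hg, hg] at h
    have h1 : e v a = e v a' := congrArg Prod.fst h
    have h2 : c = c' := congrArg Prod.snd h
    exact Prod.ext (he v h1) h2
  obtain ⟨P, _, j, k, hj, hjk⟩ := amalgam m g hmi hgi
  -- the homomorphisms of the vertex groups
  have hF : ∀ w, ∃ F : H w →* P, (∀ a, F (e w a) = j (κ w a)) ∧
      (w ≠ v → ∀ h, ∃ a, F h = j (κ w a)) ∧
      (w = v → ∀ h, ∀ c ∈ gs κ (Γ.neighborSet v), Commute (F h) (j c)) := by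
    intro w
    rcases eq_or_ne w v with rfl | hw
    · refine ⟨k.comp (MonoidHom.inl (H w) (gs κ (Γ.neighborSet w))), ?_, fun h => absurd rfl h, ?_⟩
      · intro a
        have h1 := hjk (a, 1)
        rw [hm, hg] at h1
        rw [OneMemClass.coe_one, mul_one] at h1
        exact h1.symm
      · intro _ h c hc
        have h1 := hjk (1, ⟨c, hc⟩)
        rw [hm, hg, map_one, map_one, one_mul] at h1
        have h2 : j c = k (1, ⟨c, hc⟩) := h1
        rw [h2]
        have h3 : Commute ((h, 1) : H w × gs κ (Γ.neighborSet w)) (1, ⟨c, hc⟩) := by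
          refine Prod.ext ?_ ?_
          · exact (mul_one h).trans (one_mul h).symm
          · exact (one_mul _).trans (mul_one _).symm
        exact h3.map k
    · let E : K w ≃* H w := MulEquiv.ofBijective (e w) ⟨he w, hs w hw⟩
      have hE : ∀ a, E a = e w a := fun a => rfl
      refine ⟨(j.comp (κ w)).comp E.symm.toMonoidHom, ?_, fun _ h => ⟨E.symm h, rfl⟩,
        fun h => absurd h hw⟩
      intro a
      show j (κ w (E.symm (e w a))) = j (κ w a)
      rw [← hE, MulEquiv.symm_apply_apply]
  choose F h1 h2 h3 using hF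
  obtain ⟨Φ, hΦ⟩ := hι.lift P F (by
    intro u w huw a b
    by_cases hu : u = v
    · have hw : w ≠ v := fun h => huw.ne (hu.trans h.symm)
      obtain ⟨b', hb'⟩ := h2 w hw b
      rw [hb']
      refine h3 u hu a _ (Subgroup.subset_closure ⟨w, ?_, b', rfl⟩)
      rw [← hu]
      exact huw
    · by_cases hw : w = v
      · obtain ⟨a', ha'⟩ := h2 u hu a
        rw [ha']
        refine (h3 w hw b _ (Subgroup.subset_closure ⟨u, ?_, a', rfl⟩)).symm
        rw [← hw]
        exact huw.symm
      · obtain ⟨a', ha'⟩ := h2 u hu a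
        obtain ⟨b', hb'⟩ := h2 w hw b
        rw [ha', hb']
        exact (hκ.comm u w huw a' b').map j)
  have hcomp : Φ.comp φ = j := by
    refine hom_ext hκ fun w a => ?_
    rw [MonoidHom.comp_apply, hφ, hΦ, h1]
  intro x y hxy
  refine hj ?_
  rw [← hcomp, MonoidHom.comp_apply, MonoidHom.comp_apply, hxy]

/-- the graph product -/
theorem isGP (Γ : SimpleGraph V) (H : V → Type) [∀ v, Group (H v)] : IsGP Γ (gpi Γ H) where
  comm u v h a b := by
    have h1 : (Monoid.CoprodI.of a * Monoid.CoprodI.of b * (Monoid.CoprodI.of a)⁻¹ *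
        (Monoid.CoprodI.of b)⁻¹ : Monoid.CoprodI H) ∈ Subgroup.normalClosure (gpRel Γ H) :=
      Subgroup.subset_normalClosure ⟨u, v, a, b, h, rfl⟩
    have h2 := (QuotientGroup.eq_one_iff _).2 h1
    have h3 : gpi Γ H u a * gpi Γ H v b * (gpi Γ H u a)⁻¹ * (gpi Γ H v b)⁻¹ = 1 := h2
    rw [mul_inv_eq_one, mul_inv_eq_iff_eq_mul] at h3
    exact h3
  lift K _ f hf := by
    refine ⟨QuotientGroup.lift _ (Monoid.CoprodI.lift f) ?_, fun v a => ?_⟩
    · intro x hx
      have h1 : Subgroup.normalClosure (gpRel Γ H) ≤ (Monoid.CoprodI.lift f).ker := by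
        apply Subgroup.normalClosure_le_normal
        rintro _ ⟨v, w, a, b, h, rfl⟩
        rw [SetLike.mem_coe, MonoidHom.mem_ker, map_mul, map_mul, map_mul, map_inv, map_inv,
          Monoid.CoprodI.lift_of, Monoid.CoprodI.lift_of, (hf v w h a b).eq]
        group
      exact h1 hx
    · show Monoid.CoprodI.lift f (Monoid.CoprodI.of a) = f v a
      rw [Monoid.CoprodI.lift_of]
  gen S hS := by
    refine (Subgroup.eq_top_iff' S).2 fun x => ?_
    obtain ⟨y, rfl⟩ := QuotientGroup.mk'_surjective _ x
    induction y using Monoid.CoprodI.induction_on with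
    | one =>
      rw [map_one]
      exact S.one_mem
    | of v a => exact hS v a
    | mul y z hy hz =>
      rw [map_mul]
      exact S.mul_mem hy hz

theorem main {H : V → Type} [∀ v, Group (H v)] {G : Type} [Group G] {ι : ∀ v, H v →* G}
    (hι : IsGP Γ ι) (S : Finset V) : ∀ (K : V → Type) [∀ v, Group (K v)] (A : Type) [Group A]
    (κ : ∀ v, K v →* A), IsGP Γ κ → ∀ (φ : A →* G) (e : ∀ v, K v →* H v),
    (∀ v k, φ (κ v k) = ι v (e v k)) → (∀ v, Function.Injective (e v)) →
    (∀ w, w ∉ S → Function.Surjective (e w)) → Function.Injective φ := by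
  classical
  induction S using Finset.induction_on with
  | empty =>
    intro K _ A _ κ hκ φ e hφ he hs
    obtain ⟨F, hF⟩ := hι.lift A (fun w => (κ w).comp
      (MulEquiv.ofBijective (e w) ⟨he w, hs w (Finset.notMem_empty w)⟩).symm.toMonoidHom)
      (fun u w huw a b => hκ.comm u w huw _ _)
    have hcomp : F.comp φ = MonoidHom.id A := by
      refine hom_ext hκ fun w a => ?_
      rw [MonoidHom.comp_apply, hφ, hF]
      show κ w ((MulEquiv.ofBijective (e w) ⟨he w, hs w (Finset.notMem_empty w)⟩).symm
        ((MulEquiv.ofBijective (e w) ⟨he w, hs w (Finset.notMem_empty w)⟩) a)) = κ w a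
      rw [MulEquiv.symm_apply_apply]
    intro x y hxy
    have h1 : F.comp φ x = F.comp φ y := by
      rw [MonoidHom.comp_apply, MonoidHom.comp_apply, hxy]
    rw [hcomp] at h1
    exact h1
  | insert v S hv ih =>
    intro K _ A _ κ hκ φ e hφ he hs
    let L : ∀ w, Subgroup (H w) := fun w => if w = v then ⊤ else (e w).range
    have hL : ∀ w (k : K w), e w k ∈ L w := by
      intro w k
      show e w k ∈ (if w = v then (⊤ : Subgroup (H w)) else (e w).range)
      split_ifs
      · exact Subgroup.mem_top _
      · exact ⟨k, rfl⟩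
    have hGP : IsGP Γ (gpi Γ fun w => L w) := isGP Γ _
    obtain ⟨φ1, hφ1⟩ := hκ.lift (GP Γ fun w => L w)
      (fun w => (gpi Γ (fun w => L w) w).comp ((e w).codRestrict (L w) (hL w)))
      (fun u w huw a b => hGP.comm u w huw _ _)
    obtain ⟨φ2, hφ2⟩ := hGP.lift G (fun w => (ι w).comp (L w).subtype)
      (fun u w huw a b => hι.comm u w huw _ _)
    have hcomp : φ2.comp φ1 = φ := by
      refine hom_ext hκ fun w a => ?_
      rw [MonoidHom.comp_apply, hφ1, hφ]
      exact hφ2 w _
    have i1 : Function.Injective φ1 := by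
      refine step hκ hGP φ1 (fun w => (e w).codRestrict (L w) (hL w)) hφ1 ?_ v ?_
      · intro w a b hab
        exact he w (congrArg Subtype.val hab)
      · intro w hw y
        have h1 : (y : H w) ∈ (e w).range := by
          have h2 : L w = (e w).range := if_neg hw
          rw [← h2]
          exact y.2
        obtain ⟨k, hk⟩ := h1
        exact ⟨k, Subtype.ext hk⟩
    have i2 : Function.Injective φ2 := by
      refine ih (fun w => L w) (GP Γ fun w => L w) (gpi Γ fun w => L w) hGP φ2
        (fun w => (L w).subtype) hφ2 (fun w => Subtype.val_injective) ?_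
      intro w hw y
      have h1 : y ∈ L w := by
        show y ∈ (if w = v then (⊤ : Subgroup (H w)) else (e w).range)
        split_ifs with h
        · exact Subgroup.mem_top _
        · have h2 : w ∉ insert v S := fun h3 => by
            rcases Finset.mem_insert.1 h3 with h3 | h3
            · exact h h3
            · exact hw h3
          obtain ⟨k, hk⟩ := hs w h2 y
          exact ⟨k, hk⟩
      exact ⟨⟨y, h1⟩, rfl⟩
    rw [← hcomp]
    exact i2.comp i1

end INJ

theorem t_INJ : S_INJ := by
  classical
  intro V _ Γ K H _ _ A G _ _ κ ι hκ hι φ e hφ he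
  obtain ⟨_⟩ := nonempty_fintype V
  exact INJ.main hι Finset.univ K A κ hκ φ e hφ he fun w hw => absurd (Finset.mem_univ w) hw

end Pool.Agent.H56G
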