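import Mathlib

/-!
# Graph products of groups
-/

set_option autoImplicit false

noncomputable section

namespace Pool.Agent.H56G

/-- the relations of the graph product -/
def gpRel {V : Type} (Γ : SimpleGraph V) (H : V → Type) [∀ v, Group (H v)] : Set (Monoid.CoprodI H) :=
  {r | ∃ (u v : V) (a : H u) (b : H v), Γ.Adj u v ∧ r = Monoid.CoprodI.of a * Monoid.CoprodI.of b *
    (Monoid.CoprodI.of a)⁻¹ * (Monoid.CoprodI.of b)⁻¹}

/-- the graph product of the groups `H v`: elements of `H u` and `H v` commute if `u` and `v` are adjacent -/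
abbrev GP {V : Type} (Γ : SimpleGraph V) (H : V → Type) [∀ v, Group (H v)] : Type :=
  Monoid.CoprodI H ⧸ Subgroup.normalClosure (gpRel Γ H)

end Pool.Agent.H56G
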