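import Mathlib
import Pool.Agent.H56T.CTR
import Pool.Agent.H56T.KER
import Pool.Agent.N496.CV.L2Pf
import Pool.Agent.H56G.GPDef

/-!
# Project GPR (helper56): graph products of groups with central elements of infinite order

Goal (MP_ea75ba_gt, hard, the last free place): let `GP Γ H` be the graph product over the finite graph `Γ` of groups
`H v`, each with a central element of infinite order. If a finite index subgroup of `GP Γ H` acts properly on a
contractible `n`-manifold then the `L²`-Betti numbers of `GP Γ H` vanish in the degrees `i > n / 2`.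

Each piece `P` is to be proved as a theorem `t_P : S_P` in the file `Pool/Agent/H56G/P.lean`, with auxiliary lemmas in
the namespace `Pool.Agent.H56G.P`. Everything is in the namespace `Pool.Agent.H56G`.
-/

set_option autoImplicit false

noncomputable section

namespace Pool.Agent.H56G

open CategoryTheory groupHomology Pool.Agent.W907.SG Pool.Agent.H56T Pool.Agent.N496.CV Pool.Agent.Helper655.VN

/-- `G`, with the homomorphisms `ι v : H v → G`, is the graph product of the groups `H v` over the graph `Γ`. -/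
structure IsGP {V : Type} (Γ : SimpleGraph V) {H : V → Type} [∀ v, Group (H v)] {G : Type} [Group G]
    (ι : ∀ v, H v →* G) : Prop where
  comm : ∀ u v, Γ.Adj u v → ∀ a b, Commute (ι u a) (ι v b)
  lift : ∀ (K : Type) [Group K] (f : ∀ v, H v →* K), (∀ u v, Γ.Adj u v → ∀ a b, Commute (f u a) (f v b)) →
    ∃ F : G →* K, ∀ v a, F (ι v a) = f v a
  gen : ∀ S : Subgroup G, (∀ v a, ι v a ∈ S) → S = ⊤

/-- the subgroup of the vertices in `D` -/
def gs {V : Type} {H : V → Type} [∀ v, Group (H v)] {G : Type} [Group G] (ι : ∀ v, H v →* G) (D : Set V) :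
    Subgroup G :=
  Subgroup.closure {x | ∃ v ∈ D, ∃ a, x = ι v a}

theorem gs_mono {V : Type} {H : V → Type} [∀ v, Group (H v)] {G : Type} [Group G] (ι : ∀ v, H v →* G) {D E : Set V}
    (h : D ⊆ E) : gs ι D ≤ gs ι E :=
  Subgroup.closure_mono fun _ ⟨v, hv, a, e⟩ => ⟨v, h hv, a, e⟩

/-- the map of coset spaces -/
def qm {V : Type} {H : V → Type} [∀ v, Group (H v)] {G : Type} [Group G] (ι : ∀ v, H v →* G) {D E : Set V}
    (h : D ⊆ E) : G ⧸ gs ι D → G ⧸ gs ι E :=
  Subgroup.quotientMapOfLE (gs_mono ι h)

/-- the diagonal action on the functions with finite support on a `G`-set -/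
def pr {G X : Type} [Group G] [AddCommGroup X] (ρ : Representation ℤ G X) (S : Type) [MulAction G S] :
    Representation ℤ G (S →₀ X) where
  toFun g := (Finsupp.mapRange.linearMap (ρ g)) ∘ₗ (Finsupp.lmapDomain X ℤ (g • ·))
  map_one' := by
    ext s x : 2
    simp
  map_mul' g h := by
    ext s x : 2
    simp [mul_smul]

/-- the map of a map of sets -/
def fm {A G X : Type} [Group A] [Group G] [AddCommGroup X] (φ : A →* G) (ρ : Representation ℤ G X) {S S' : Type}
    [MulAction A S] [MulAction G S'] (f : S → S') (hf : ∀ (a : A) (s : S), f (a • s) = φ a • f s) :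
    Rep.of (pr (ρ.comp φ) S) ⟶ Rep.res φ (Rep.of (pr ρ S')) :=
  Rep.ofHom ⟨Finsupp.lmapDomain X ℤ f, fun a => by
    ext s x : 2
    simp [pr, hf]⟩

/-- the equivariant map `f` induces a quasi-isomorphism of the complexes of chains -/
def QI {A G X : Type} [Group A] [Group G] [AddCommGroup X] (φ : A →* G) (ρ : Representation ℤ G X) {S S' : Type}
    [MulAction A S] [MulAction G S'] (f : S → S') : Prop :=
  ∃ hf : ∀ (a : A) (s : S), f (a • s) = φ a • f s, QuasiIso (chainsMap φ (fm φ ρ f hf))

/-- a Mayer-Vietoris square -/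
structure MV {S0 S1 S2 S3 : Type} (i1 : S0 → S1) (i2 : S0 → S2) (j1 : S1 → S3) (j2 : S2 → S3) : Prop where
  comm : ∀ s, j1 (i1 s) = j2 (i2 s)
  sur : ∀ s, (∃ t, j1 t = s) ∨ ∃ t, j2 t = s
  inj : ∀ (X : Type) [AddCommGroup X] (x : S0 →₀ X), x.mapDomain i1 = 0 → x.mapDomain i2 = 0 → x = 0
  mid : ∀ (X : Type) [AddCommGroup X] (a : S1 →₀ X) (b : S2 →₀ X), a.mapDomain j1 = b.mapDomain j2 →
    ∃ x : S0 →₀ X, x.mapDomain i1 = a ∧ x.mapDomain i2 = b

/-- **BAS.** Regular sets. Paper proof. For a `G`-set `S'` on which `G` acts simply transitively, `S' = G • t`, the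
complex `inhomogeneousChains (Rep.of (pr ρ S'))` has the homology `X` in degree `0` and no other homology. Identify `S'`
with `G` (`t = 1`). The augmentation `C_0 → X`, `single g x ↦ ρ g⁻¹ x`, vanishes on the boundaries, and
`h (single (g_1, .., g_n) (single g x)) = single (g⁻¹, g_1, .., g_n) (single 1 (ρ g⁻¹ x))` satisfies `d h + h d = 1` in the
degrees `n ≥ 1` and `d h = 1 - (single 1 of the augmentation)` in degree `0` (in Mathlib
`d (single (g_0, .., g_n) a) = single (g_1, .., g_n) (ρ g_0⁻¹ a) + ∑ (-1)^(j+1) single (.., g_j g_(j+1), ..) a`). The map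
of `f` is compatible with the augmentations, so it is an isomorphism on the homology. -/
def S_BAS : Prop := ∀ (A G X : Type) [Group A] [Group G] [AddCommGroup X] (φ : A →* G) (ρ : Representation ℤ G X)
  (S S' : Type) [MulAction A S] [MulAction G S'] (f : S → S') (t : S), (∀ (a : A) (s : S), f (a • s) = φ a • f s) →
  Function.Bijective (fun a : A => a • t) → Function.Bijective (fun g : G => g • f t) → QI φ ρ f

/-- **ACY.** Vanishing. Paper proof. `τ (single s x) = single s (ρ (z s)⁻¹ x)` is an automorphism of the representation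
`pr ρ S`, and `τ - 1` is bijective. The induced chain map is homotopic to the identity: with
`h (single (g_0, .., g_(n-1)) (single s x)) = ∑_{i ≤ n} (-1)^i single (g_0, .., g_(i-1), p_i⁻¹ (z s) p_i, g_i, .., g_(n-1))
(single s x)`, `p_i = g_0 ⋯ g_(i-1)` one gets `d h + h d = τ - 1` (the first face of the term `i = 0` is `τ`, since
`(z s)⁻¹ • s = s`, the last face of the term `i = n` is `-1`, and the terms where `g_(i-1)` or `g_i` is multiplied with the
inserted element cancel; note `z (g⁻¹ • s) = g⁻¹ (z s) g` for the faces `j = 0` of the terms `i ≥ 1`). So a cycle `c` is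
`(τ - 1) c'` with `c'` a cycle (as `τ - 1` is bijective on chains), and `(τ - 1) c' = d (h c')`.
(Other possibility: induction on `n` by dimension shifting.) -/
def S_ACY : Prop := ∀ (G X : Type) [Group G] [AddCommGroup X] (ρ : Representation ℤ G X) (S : Type) [MulAction G S]
  (z : S → G), (∀ (g : G) (s : S), z (g • s) = g * z s * g⁻¹) → (∀ s, z s • s = s) →
  (∀ s, Function.Bijective (fun x : X => x - ρ (z s) x)) →
  ∀ n, (inhomogeneousChains (Rep.of (pr ρ S))).ExactAt n

/-- **MVQ.** Two out of three. Paper proof. For a Mayer-Vietoris square of `G`-sets the sequence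
`0 → X[S0] → X[S1 ⊕ S2] → X[S3] → 0` (first map: `i1` and minus `i2`; second map: `j1`, `j2`; here `S1 ⊕ S2` is the
disjoint union, and `X[S1 ⊕ S2] = X[S1] × X[S2]`) is an exact sequence of representations, hence the sequence of the
complexes of chains is exact (`groupHomology.map_chainsFunctor_shortExact`). The maps `f0`, `f1 ⊕ f2`, `f3` give a
morphism of short exact sequences of complexes; the middle one is a quasi-isomorphism since `f1`, `f2` are (the chains
of a product of representations are the product; or use `quasiIso_τ₂` for the split sequences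
`X[S1] → X[S1 ⊕ S2] → X[S2]`). Now `HomologicalComplex.HomologySequence.quasiIso_τ₃`
(`Mathlib/Algebra/Homology/HomologySequenceLemmas.lean`). -/
def S_MVQ : Prop := ∀ (A G X : Type) [Group A] [Group G] [AddCommGroup X] (φ : A →* G) (ρ : Representation ℤ G X)
  (S0 S1 S2 S3 T0 T1 T2 T3 : Type) [MulAction A S0] [MulAction A S1] [MulAction A S2] [MulAction A S3]
  [MulAction G T0] [MulAction G T1] [MulAction G T2] [MulAction G T3]
  (i1 : S0 → S1) (i2 : S0 → S2) (j1 : S1 → S3) (j2 : S2 → S3)
  (k1 : T0 → T1) (k2 : T0 → T2) (l1 : T1 → T3) (l2 : T2 → T3)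
  (f0 : S0 → T0) (f1 : S1 → T1) (f2 : S2 → T2) (f3 : S3 → T3),
  MV i1 i2 j1 j2 → MV k1 k2 l1 l2 →
  (∀ (a : A) s, i1 (a • s) = a • i1 s) → (∀ (a : A) s, i2 (a • s) = a • i2 s) →
  (∀ (a : A) s, j1 (a • s) = a • j1 s) → (∀ (a : A) s, j2 (a • s) = a • j2 s) →
  (∀ (g : G) s, k1 (g • s) = g • k1 s) → (∀ (g : G) s, k2 (g • s) = g • k2 s) →
  (∀ (g : G) s, l1 (g • s) = g • l1 s) → (∀ (g : G) s, l2 (g • s) = g • l2 s) →
  (∀ s, f1 (i1 s) = k1 (f0 s)) → (∀ s, f2 (i2 s) = k2 (f0 s)) → (∀ s, f3 (j1 s) = l1 (f1 s)) →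
  (∀ s, f3 (j2 s) = l2 (f2 s)) →
  QI φ ρ f0 → QI φ ρ f1 → QI φ ρ f2 → QI φ ρ f3

/-- **GPI.** The graph product as an amalgam. Paper proof. Let `C`, `A`, `B`, `P` be the subgroups of
`D ∩ Γ.neighborSet v`, `D \ {v}`, `{v} ∪ (D ∩ Γ.neighborSet v)`, `D`. Let
`Y = (G ⧸ C →₀ X)` (for one-element functions; or `Y = (G ⧸ C →₀ ℤ)`, `e = single C 1`), with the action of `G` by left
translation. Let `H u` act on `Y` by `Θ a y = a (y + e) - e` for `u ∈ D \ {v}`, `Θ a y = a y` for `u = v` and `Θ a = 1` for
`u ∉ D`. These are commuting permutations for adjacent vertices (for `u` adjacent to `v`, `u ∈ D`, `a ∈ C` fixes `e`), so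
`lift` gives `Θ : G →* Equiv.Perm Y`, and `Θ h y = h y + d h` for `h ∈ P`, with `d (h h') = d h + h d h'`, `d b = 0` for
`b ∈ B`, `d a = a e - e` for `a ∈ A`. So `d` is constant on the cosets `h B` and `h ↦ [h C] - d h` is constant on the
cosets `h A` for `h ∈ P`; extended to all the cosets of `P` by left translation (choose representatives `t`,
`φ (t h) = t d h`) one has functions `φ_A` on `G ⧸ A`, `φ_B` on `G ⧸ B` with values in `G ⧸ C →₀ ℤ` such that
`[g C] = φ_A (g A) + φ_B (g B)`. Hence `x ↦ (x.mapDomain i1, x.mapDomain i2)` has a left inverse on functions with values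
in `X` (`single s x ↦ mapRange (· • x)` of `φ s`). -/
def S_GPI : Prop := ∀ (V : Type) (Γ : SimpleGraph V) (H : V → Type) [∀ v, Group (H v)] (G : Type) [Group G]
  (ι : ∀ v, H v →* G), IsGP Γ ι → ∀ (D : Set V) (v : V), v ∈ D →
  ∀ (X : Type) [AddCommGroup X] (x : (G ⧸ gs ι (D ∩ Γ.neighborSet v)) →₀ X),
  x.mapDomain (qm ι (D := D ∩ Γ.neighborSet v) (E := D \ {v}) (fun _ h => ⟨h.1, fun e => Γ.ne_of_adj h.2 (Eq.symm e)⟩)) = 0 →
  x.mapDomain (qm ι (D := D ∩ Γ.neighborSet v) (E := insert v (D ∩ Γ.neighborSet v)) (Set.subset_insert _ _)) = 0 →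
  x = 0

/-- **GPX.** Paper proof. `comm` and `sur` are clear, `inj` is GPI. (mid), with `C`, `A`, `B`, `P` as in GPI: it is enough that, modulo the images `(i1 x, - i2 x)`, every element of `X[G ⧸ A] × X[G ⧸ B]` is of the form
`(∑ single (t A) x_t, 0)` with fixed representatives `t` of the cosets of `P`: `(0, single (g B) x)` is equivalent to
`(single (g A) x, 0)`, and `(single (g a A) x, 0) = (single (g A) x, 0)`, `(single (g b A) x, 0) ~ (0, single (g b B) x) =
(0, single (g B) x) ~ (single (g A) x, 0)`; and `P` is generated by `A` and `B`. Such an element goes to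
`∑ single (t P) x_t`, which is zero only if all `x_t` are zero. -/
def S_GPX : Prop := S_GPI → ∀ (V : Type) (Γ : SimpleGraph V) (H : V → Type) [∀ v, Group (H v)] (G : Type) [Group G]
  (ι : ∀ v, H v →* G), IsGP Γ ι → ∀ (D : Set V) (v : V) (hv : v ∈ D),
  MV (qm ι (D := D ∩ Γ.neighborSet v) (E := D \ {v}) (fun _ h => ⟨h.1, fun e => Γ.ne_of_adj h.2 (Eq.symm e)⟩))
    (qm ι (D := D ∩ Γ.neighborSet v) (E := insert v (D ∩ Γ.neighborSet v)) (Set.subset_insert _ _))
    (qm ι (D := D \ {v}) (E := D) Set.diff_subset)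
    (qm ι (D := insert v (D ∩ Γ.neighborSet v)) (E := D) (Set.insert_subset hv Set.inter_subset_left))

/-- **IND.** Paper proof. For all `D ⊆ V` the map `A ⧸ gs κ D → G ⧸ gs ι D` induced by `φ` satisfies `QI`, by induction on
the number of elements of `D`: for `D = ∅` this is BAS; for `v ∈ D` use GPX for `κ` and `ι` and MVQ; the induction
hypothesis applies to `D ∩ Γ.neighborSet v` and `D \ {v}`, and for `insert v (D ∩ Γ.neighborSet v)` both complexes are
exact by ACY with `z (g B) = g (ι v (e v (c v))) g⁻¹` (this element is central in `B = gs ι (insert v ..)`), resp.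
`a (κ v (c v)) a⁻¹`. For `D = V` the sets have one element, so the complexes are those of `ρ.comp φ` and of `ρ`. -/
def S_IND : Prop := S_BAS → S_ACY → S_MVQ → S_GPI → S_GPX →
  ∀ (V : Type) [Finite V] (Γ : SimpleGraph V) (K H : V → Type) [∀ v, Group (K v)] [∀ v, Group (H v)] (A G : Type)
    [Group A] [Group G] (κ : ∀ v, K v →* A) (ι : ∀ v, H v →* G), IsGP Γ κ → IsGP Γ ι →
  ∀ (φ : A →* G) (e : ∀ v, K v →* H v), (∀ v k, φ (κ v k) = ι v (e v k)) →
  ∀ (c : ∀ v, K v), (∀ v k, Commute (c v) k) → (∀ v h, Commute (e v (c v)) h) →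
  ∀ (X : Type) [AddCommGroup X] (ρ : Representation ℤ G X),
  (∀ v g, Function.Bijective fun x : X => x - ρ (g * ι v (e v (c v)) * g⁻¹) x) →
  ∀ i, (inhomogeneousChains (Rep.of (ρ.comp φ))).ExactAt i → (inhomogeneousChains (Rep.of ρ)).ExactAt i

/-- the right multiplications -/
def rr {K R : Type} [Group K] [Ring R] (c : K →* R) : Representation ℤ K R where
  toFun g := LinearMap.mulRight ℤ (c g⁻¹)
  map_one' := by
    ext x
    simp
  map_mul' g h := by
    ext x
    simp [mul_assoc]

/-- the boundary -/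
def dd {K R : Type} [Group K] [Ring R] (c : K →* R) (n : ℕ) : ((Fin (n + 1) → K) →₀ R) →ₗ[ℤ] ((Fin n → K) →₀ R) :=
  ((inhomogeneousChains (Rep.of (rr c))).d (n + 1) n).hom

/-- the boundary of the bar resolution -/
def bd (K : Type) [Group K] (n : ℕ) : ((Fin (n + 1) → K) →₀ MonoidAlgebra ℤ K) →ₗ[MonoidAlgebra ℤ K]
    ((Fin n → K) →₀ MonoidAlgebra ℤ K) :=
  Finsupp.linearCombination (MonoidAlgebra ℤ K) fun g : Fin (n + 1) → K =>
    Finsupp.single (fun i => g i.succ) (MonoidAlgebra.single (g 0) (1 : ℤ)) +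
    Finset.univ.sum fun j : Fin (n + 1) =>
      ((-1 : MonoidAlgebra ℤ K) ^ ((j : ℕ) + 1)) • Finsupp.single (Fin.contractNth j (· * ·) g) (1 : MonoidAlgebra ℤ K)

/-- **BRE.** The bar complex is exact. Paper proof. The additive map `h (single g (single x 1)) = single (x, g) 1`
(`x ∈ K`, `g : Fin n → K`, `(x, g) = Fin.cons x g`) satisfies `d h + h d = 1` in positive degrees, and `d h v = v - single 1 (ε v)` in
degree zero, `ε` the augmentation (`V7N.augG`). Mathlib has this complex for `Rep` (`Rep.barComplex`, `Rep.barResolution`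
in `Mathlib/RepresentationTheory/Homological/Resolution.lean`); a direct proof is probably shorter. -/
def S_BRE : Prop := ∀ (K : Type) [Group K],
  (∀ n v, bd K n v = 0 ↔ ∃ w, bd K (n + 1) w = v) ∧
  (∀ v : (Fin 0 → K) →₀ MonoidAlgebra ℤ K, V7N.augG K (v default) = 0 ↔ ∃ w, bd K 0 w = v)

/-- **BRI.** Group homology by the bar resolution. Paper proof. By BRE the complex `bd` is a projective resolution of the
trivial module by the free modules with the bases `Fin n → K` (use `gen_res` in `Pool/Agent/Helper970/V7/P_proj_res.lean`), and `bcF c` of it is isomorphic to the complex `inhomogeneousChains (Rep.of (rr c))`,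
with the `R`-module structure of the left multiplications. Compare `Pool/Agent/Helper970/V7` (`proj_res`, `homology_succ`,
`v7_succ`: the same for resolutions by free modules of finite rank, the definitions of `homR` and `V7N.bcF` are used
there). -/
def S_BRI : Prop := S_BRE → ∀ (K R : Type) [Group K] [Ring R] (c : K →* R) (n : ℕ),
  ∃ π : {v : (Fin (n + 1) → K) →₀ R // dd c n v = 0} → homR c (n + 1),
    Function.Surjective π ∧ (∀ v, π v = 0 ↔ ∃ y, dd c (n + 1) y = v.1) ∧
    ∀ (s : R) v w, w.1 = s • v.1 → π w = s • π v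

/-- **SAV.** The homology of right-angled Artin groups. Paper proof. By the free resolution `FINA.res salv G`
(`Pool/Agent/H56T/FINA.lean`) and `V7N` (`v7_succ` or `homology_succ` in `Pool/Agent/Helper970/V7`, see how `fina` uses
them) `homR c (n + 1)` is the homology of the complex with the boundary matrices with the entries `± (1 - c (agen v))`. As
the elements `1 - c (agen v)` are units, commuting for the vertices of a clique, this complex is isomorphic to the
simplicial complex with coefficients in `R` (multiply the coefficient of the clique `T` by the product over `v ∈ T`), which is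
exact in this degree by `exa_mod` (`Pool/Agent/H56T/Rat.lean`). Compare `KER.ker_l2` for `χ = 1`. -/
def S_SAV : Prop := ∀ (V : Type) [Fintype V] [LinearOrder V] (G : SimpleGraph V) (R : Type) [Ring R] [Algebra ℚ R]
  (c : AG G →* R), (∀ v, IsUnit (1 - c (agen G v))) → ∀ n, Exa G (n + 1) → Subsingleton (homR c (n + 1))

/-- **AGP.** `AG G` is the graph product of infinite cyclic groups. -/
def S_AGP : Prop := ∀ (V : Type) [Fintype V] (Γ : SimpleGraph V),
  IsGP Γ (fun v => (zpowersHom (AG Γ) (agen Γ v) : Multiplicative ℤ →* AG Γ))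

/-- the vertex groups -/
def gpi {V : Type} (Γ : SimpleGraph V) (H : V → Type) [∀ v, Group (H v)] (v : V) : H v →* GP Γ H :=
  (QuotientGroup.mk' (Subgroup.normalClosure (gpRel Γ H))).comp Monoid.CoprodI.of

/-- **GPG.** `GP Γ H` is the graph product. -/
def S_GPG : Prop := ∀ (V : Type) (Γ : SimpleGraph V) (H : V → Type) [∀ v, Group (H v)], IsGP Γ (gpi Γ H)

/-- **INJ.** Paper proof. Normal forms of graph products (Green): a reduced word (no two letters of the same vertex can be
brought together by the commutations) with letters `≠ 1` is not trivial, and `e` maps reduced words to reduced words.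
There are libraries of graph products in the pool (`Helper705_SA`, `Q30/FJ`, `R615/KU`, `N894/WF`). It can also be
deduced from the amalgam decomposition by induction. -/
def S_INJ : Prop := ∀ (V : Type) [Finite V] (Γ : SimpleGraph V) (K H : V → Type) [∀ v, Group (K v)] [∀ v, Group (H v)]
  (A G : Type) [Group A] [Group G] (κ : ∀ v, K v →* A) (ι : ∀ v, H v →* G), IsGP Γ κ → IsGP Γ ι →
  ∀ (φ : A →* G) (e : ∀ v, K v →* H v), (∀ v k, φ (κ v k) = ι v (e v k)) → (∀ v, Function.Injective (e v)) →
  Function.Injective φ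

/-- **TOP.** Paper proof. By AGP and INJ the homomorphism `φ : AG Γ →* G`, `agen v ↦ ι v (z v)`, is injective. The preimage
of `Q` has finite index in `AG Γ` and acts properly on `M`. Now `raag_exa` (`Pool/Agent/H56T/CTR.lean`). -/
def S_TOP : Prop := S_AGP → S_INJ → ∀ (V : Type) [Fintype V] [DecidableEq V] (Γ : SimpleGraph V) (H : V → Type)
  [∀ v, Group (H v)] (G : Type) [Group G] (ι : ∀ v, H v →* G), IsGP Γ ι →
  ∀ z : (∀ v, H v), (∀ v, Function.Injective (fun n : ℕ => z v ^ n)) →
  ∀ Q : Subgroup G, Q.FiniteIndex → ∀ (n : ℕ) (M : Type) [TopologicalSpace M] [ContractibleSpace M], StInj n M →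
  ∀ [MulAction Q M], PropAct Q M → ∀ i, n < 2 * i → Exa Γ i

/-- **DEN.** Paper proof. Let `U` be the ring of fractions of `NG G` (as in `KER.ker_l2` in
`Pool/Agent/H56T/KER.lean`), `u : G →* U`. By `hz` the elements `1 - u (g z g⁻¹)` are units (`P_RU_nz`). IND with
`ρ = rr u`, SAV for `u.comp φ` (`U` is an algebra over `ℚ`) and BRI for `AG Γ` (all cycles are boundaries) show that the chains
of `G` with coefficients in `U` are exact in degree `n + 1`. For a cycle `v` with coefficients in `NG G` there is a chain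
`y` with coefficients in `U` and `d y = v`, and a common denominator `s` of `y` (`KER.common_den`), so `d (s y) = s v`
over `NG G`. By BRI every element of `homR canL (n + 1)` is killed by a non-zero-divisor, so its dimension is zero (see
`fina` or `luck_zero` in `Pool/Agent/N496/CV/P_FINAL.lean`). -/
def S_DEN : Prop := S_BAS → S_ACY → S_MVQ → S_GPI → S_GPX → S_IND → S_BRE → S_BRI → S_SAV → S_AGP →
  ∀ (V : Type) [Fintype V] [LinearOrder V] (Γ : SimpleGraph V) (H : V → Type) [∀ v, Group (H v)] (G : Type) [Group G]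
    (ι : ∀ v, H v →* G), IsGP Γ ι → ∀ z : (∀ v, H v), (∀ v h, Commute (z v) h) →
  (∀ v, Function.Injective (fun n : ℕ => z v ^ n)) → ∀ n, Exa Γ (n + 1) → VN831.l2Betti G (n + 1) = 0

end Pool.Agent.H56G
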