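import Mathlib
import Pool.Agent.H56G.Stm

/-!
# Piece MVQ of project GPR (helper56), written by helper74: Mayer-Vietoris squares, two out of three
-/

set_option autoImplicit false

noncomputable section

namespace Pool.Agent.H56G

open CategoryTheory groupHomology

namespace MVQ

/-- short exact sequences of representations -/
theorem ses {k G : Type} [CommRing k] [Group G] {M1 M2 M3 : Rep.{0} k G} (u : M1 ⟶ M2) (v : M2 ⟶ M3)
    (inj : Function.Injective u.hom) (sur : Function.Surjective v.hom)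
    (ex : ∀ b, v.hom b = 0 ↔ ∃ a, u.hom a = b) :
    ∃ h : u ≫ v = 0, (ShortComplex.mk u v h).ShortExact := by
  have h : u ≫ v = 0 := by
    refine Rep.hom_ext (Representation.IntertwiningMap.ext (LinearMap.ext fun x => ?_))
    exact (ex _).2 ⟨x, rfl⟩
  refine ⟨h, ?_⟩
  have h1 : ((ShortComplex.mk u v h).map (forget₂ (Rep.{0} k G) (ModuleCat k))).Exact := by
    rw [ShortComplex.moduleCat_exact_iff]
    intro b hb
    exact (ex b).1 hb
  exact { exact := (ShortComplex.exact_map_iff_of_faithful _ _).1 h1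
          mono_f := (Rep.mono_iff_injective _).2 inj
          epi_g := (Rep.epi_iff_surjective _).2 sur }

theorem isoSum {C : Type*} [Category C] [Preadditive C] {P P1 P2 Q Q1 Q2 : C}
    (a1 : P1 ⟶ P) (a2 : P2 ⟶ P) (p1 : P ⟶ P1) (p2 : P ⟶ P2) (b1 : Q1 ⟶ Q) (b2 : Q2 ⟶ Q) (q1 : Q ⟶ Q1) (q2 : Q ⟶ Q2)
    (t1 : P1 ⟶ Q1) (t2 : P2 ⟶ Q2) (t : P ⟶ Q) [IsIso t1] [IsIso t2]
    (h : p1 ≫ a1 + p2 ≫ a2 = 𝟙 P) (h' : q1 ≫ b1 + q2 ≫ b2 = 𝟙 Q)
    (e1 : a1 ≫ t = t1 ≫ b1) (e2 : a2 ≫ t = t2 ≫ b2) (f1 : t ≫ q1 = p1 ≫ t1) (f2 : t ≫ q2 = p2 ≫ t2) : IsIso t :=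
  ⟨q1 ≫ inv t1 ≫ a1 + q2 ≫ inv t2 ≫ a2, by simp [reassoc_of% f1, reassoc_of% f2, h], by simp [e1, e2, h']⟩

theorem qiSum {k : Type} [CommRing k] {P P1 P2 Q Q1 Q2 : ChainComplex (ModuleCat.{0} k) ℕ}
    (a1 : P1 ⟶ P) (a2 : P2 ⟶ P) (p1 : P ⟶ P1) (p2 : P ⟶ P2) (b1 : Q1 ⟶ Q) (b2 : Q2 ⟶ Q) (q1 : Q ⟶ Q1) (q2 : Q ⟶ Q2)
    (t1 : P1 ⟶ Q1) (t2 : P2 ⟶ Q2) (t : P ⟶ Q) (i1 : QuasiIso t1) (i2 : QuasiIso t2)
    (h : p1 ≫ a1 + p2 ≫ a2 = 𝟙 P) (h' : q1 ≫ b1 + q2 ≫ b2 = 𝟙 Q)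
    (e1 : a1 ≫ t = t1 ≫ b1) (e2 : a2 ≫ t = t2 ≫ b2) (f1 : t ≫ q1 = p1 ≫ t1) (f2 : t ≫ q2 = p2 ≫ t2) :
    QuasiIso t := by
  rw [quasiIso_iff]
  intro n
  rw [quasiIsoAt_iff_isIso_homologyMap]
  let F := HomologicalComplex.homologyFunctor (ModuleCat.{0} k) (ComplexShape.down ℕ) n
  have j1 : IsIso (F.map t1) := by
    change IsIso (HomologicalComplex.homologyMap t1 n)
    infer_instance
  have j2 : IsIso (F.map t2) := by
    change IsIso (HomologicalComplex.homologyMap t2 n)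
    infer_instance
  exact isoSum (F.map a1) (F.map a2) (F.map p1) (F.map p2) (F.map b1) (F.map b2) (F.map q1) (F.map q2)
    (F.map t1) (F.map t2) (F.map t)
    (by rw [← F.map_comp, ← F.map_comp, ← F.map_add, h, F.map_id])
    (by rw [← F.map_comp, ← F.map_comp, ← F.map_add, h', F.map_id])
    (by rw [← F.map_comp, ← F.map_comp, e1]) (by rw [← F.map_comp, ← F.map_comp, e2])
    (by rw [← F.map_comp, ← F.map_comp, f1]) (by rw [← F.map_comp, ← F.map_comp, f2])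

section two

variable {k A G : Type} [CommRing k] [Group A] [Group G] (φ : A →* G)

theorem sq {P1 P2 : Rep.{0} k A} {Q1 Q2 : Rep.{0} k G} (w : P1 ⟶ P2) (w' : Q1 ⟶ Q2)
    (s1 : P1 ⟶ Rep.res φ Q1) (s2 : P2 ⟶ Rep.res φ Q2) (c : ∀ x : P1, s2.hom (w.hom x) = w'.hom (s1.hom x)) :
    chainsMap φ s1 ≫ chainsMap (MonoidHom.id G) w' = chainsMap (MonoidHom.id A) w ≫ chainsMap φ s2 := by
  rw [← chainsMap_comp, ← chainsMap_comp]
  refine chainsMap_congr rfl ?_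
  exact LinearMap.ext fun x => (c x).symm

theorem cadd {P P1 P2 : Rep.{0} k G} (a1 : P1 ⟶ P) (a2 : P2 ⟶ P) (p1 : P ⟶ P1) (p2 : P ⟶ P2)
    (c : ∀ x : P, a1.hom (p1.hom x) + a2.hom (p2.hom x) = x) :
    chainsMap (MonoidHom.id G) p1 ≫ chainsMap (MonoidHom.id G) a1 +
      chainsMap (MonoidHom.id G) p2 ≫ chainsMap (MonoidHom.id G) a2 = 𝟙 (inhomogeneousChains P) := by
  rw [← chainsMap_id_comp, ← chainsMap_id_comp]
  refine HomologicalComplex.hom_ext _ _ fun n => ModuleCat.hom_ext (Finsupp.lhom_ext fun x y => ?_)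
  simp only [HomologicalComplex.add_f_apply, ModuleCat.hom_add, LinearMap.add_apply,
    chainsMap_id_f_hom_eq_mapRange, Finsupp.mapRange.linearMap_apply, Finsupp.mapRange_single]
  rw [← Finsupp.single_add]
  exact congrArg _ (c y)

theorem middle {P P1 P2 : Rep.{0} k A} {Q Q1 Q2 : Rep.{0} k G}
    (a1 : P1 ⟶ P) (a2 : P2 ⟶ P) (p1 : P ⟶ P1) (p2 : P ⟶ P2) (b1 : Q1 ⟶ Q) (b2 : Q2 ⟶ Q) (q1 : Q ⟶ Q1) (q2 : Q ⟶ Q2)
    (t1 : P1 ⟶ Rep.res φ Q1) (t2 : P2 ⟶ Rep.res φ Q2) (t : P ⟶ Rep.res φ Q)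
    (i1 : QuasiIso (chainsMap φ t1)) (i2 : QuasiIso (chainsMap φ t2))
    (h : ∀ x : P, a1.hom (p1.hom x) + a2.hom (p2.hom x) = x) (h' : ∀ x : Q, b1.hom (q1.hom x) + b2.hom (q2.hom x) = x)
    (e1 : ∀ x : P1, t.hom (a1.hom x) = b1.hom (t1.hom x)) (e2 : ∀ x : P2, t.hom (a2.hom x) = b2.hom (t2.hom x))
    (f1 : ∀ x : P, t1.hom (p1.hom x) = q1.hom (t.hom x)) (f2 : ∀ x : P, t2.hom (p2.hom x) = q2.hom (t.hom x)) :
    QuasiIso (chainsMap φ t) :=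
  qiSum (chainsMap (MonoidHom.id A) a1) (chainsMap (MonoidHom.id A) a2) (chainsMap (MonoidHom.id A) p1)
    (chainsMap (MonoidHom.id A) p2) (chainsMap (MonoidHom.id G) b1) (chainsMap (MonoidHom.id G) b2)
    (chainsMap (MonoidHom.id G) q1) (chainsMap (MonoidHom.id G) q2) (chainsMap φ t1) (chainsMap φ t2) (chainsMap φ t)
    i1 i2 (cadd a1 a2 p1 p2 h) (cadd b1 b2 q1 q2 h') (sq φ a1 b1 t1 t e1).symm (sq φ a2 b2 t2 t e2).symm
    (sq φ p1 q1 t t1 f1) (sq φ p2 q2 t t2 f2)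

theorem two {M1 M2 M3 : Rep.{0} k A} {N1 N2 N3 : Rep.{0} k G}
    (u : M1 ⟶ M2) (v : M2 ⟶ M3) (u' : N1 ⟶ N2) (v' : N2 ⟶ N3)
    (inj : Function.Injective u.hom) (sur : Function.Surjective v.hom)
    (ex : ∀ b, v.hom b = 0 ↔ ∃ a, u.hom a = b)
    (inj' : Function.Injective u'.hom) (sur' : Function.Surjective v'.hom)
    (ex' : ∀ b, v'.hom b = 0 ↔ ∃ a, u'.hom a = b)
    (t1 : M1 ⟶ Rep.res φ N1) (t2 : M2 ⟶ Rep.res φ N2) (t3 : M3 ⟶ Rep.res φ N3)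
    (c12 : ∀ x : M1, t2.hom (u.hom x) = u'.hom (t1.hom x))
    (c23 : ∀ x : M2, t3.hom (v.hom x) = v'.hom (t2.hom x)) :
    QuasiIso (chainsMap φ t1) → QuasiIso (chainsMap φ t2) → QuasiIso (chainsMap φ t3) := by
  obtain ⟨h, hS⟩ := ses u v inj sur ex
  obtain ⟨h', hS'⟩ := ses u' v' inj' sur' ex'
  have e1 := map_chainsFunctor_shortExact hS
  have e2 := map_chainsFunctor_shortExact hS'
  let Φ : (ShortComplex.mk u v h).map (chainsFunctor k A) ⟶ (ShortComplex.mk u' v' h').map (chainsFunctor k G) :=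
    { τ₁ := chainsMap φ t1
      τ₂ := chainsMap φ t2
      τ₃ := chainsMap φ t3
      comm₁₂ := sq φ u u' t1 t2 c12
      comm₂₃ := sq φ v v' t2 t3 c23 }
  exact fun a b => HomologicalComplex.HomologySequence.quasiIso_τ₃ Φ e1 e2 a b

end two

section fin

variable {G X : Type} [Group G] [AddCommGroup X]

/-- the product of two representations -/
def pp {M N : Type} [AddCommGroup M] [AddCommGroup N] (σ : Representation ℤ G M) (τ : Representation ℤ G N) :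
    Representation ℤ G (M × N) where
  toFun g := (σ g).prodMap (τ g)
  map_one' := by
    ext x <;> simp
  map_mul' g h := by
    ext x <;> simp

/-- morphisms from additive maps -/
def mk {M N : Type} [AddCommGroup M] [AddCommGroup N] (σ : Representation ℤ G M) (τ : Representation ℤ G N)
    (f : M →ₗ[ℤ] N) (hf : ∀ g x, f (σ g x) = τ g (f x)) : Rep.of σ ⟶ Rep.of τ :=
  Rep.ofHom ⟨f, fun g => LinearMap.ext fun x => hf g x⟩

theorem pr_dom (ρ : Representation ℤ G X) {S S' : Type} [MulAction G S] [MulAction G S'] (f : S → S')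
    (hf : ∀ (a : G) (s : S), f (a • s) = a • f s) (g : G) (x : S →₀ X) :
    Finsupp.lmapDomain X ℤ f (pr ρ S g x) = pr ρ S' g (Finsupp.lmapDomain X ℤ f x) := by
  have h : Finsupp.lmapDomain X ℤ f ∘ₗ pr ρ S g = pr ρ S' g ∘ₗ Finsupp.lmapDomain X ℤ f := by
    ext s x : 2
    simp [pr, hf]
  exact LinearMap.congr_fun h x

/-- the map of a product -/
def fmm {A : Type} [Group A] (φ : A →* G) (ρ : Representation ℤ G X) {S1 S2 T1 T2 : Type}
    [MulAction A S1] [MulAction G T1] [MulAction A S2] [MulAction G T2] (f1 : S1 → T1)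
    (h1 : ∀ (a : A) (s : S1), f1 (a • s) = φ a • f1 s) (f2 : S2 → T2)
    (h2 : ∀ (a : A) (s : S2), f2 (a • s) = φ a • f2 s) :
    Rep.of (pp (pr (ρ.comp φ) S1) (pr (ρ.comp φ) S2)) ⟶ Rep.res φ (Rep.of (pp (pr ρ T1) (pr ρ T2))) :=
  Rep.ofHom ⟨(Finsupp.lmapDomain X ℤ f1).prodMap (Finsupp.lmapDomain X ℤ f2), fun a => by
    refine LinearMap.ext fun x => Prod.ext ?_ ?_
    · exact LinearMap.congr_fun ((fm φ ρ f1 h1).hom.isIntertwining' a) x.1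
    · exact LinearMap.congr_fun ((fm φ ρ f2 h2).hom.isIntertwining' a) x.2⟩

/-- the first map of the sequence -/
def uu (ρ : Representation ℤ G X) {S0 S1 S2 : Type} [MulAction G S0] [MulAction G S1] [MulAction G S2] (i1 : S0 → S1)
    (i2 : S0 → S2) (h1 : ∀ (a : G) (s : S0), i1 (a • s) = a • i1 s) (h2 : ∀ (a : G) (s : S0), i2 (a • s) = a • i2 s) :
    Rep.of (pr ρ S0) ⟶ Rep.of (pp (pr ρ S1) (pr ρ S2)) :=
  mk _ _ ((Finsupp.lmapDomain X ℤ i1).prod (- Finsupp.lmapDomain X ℤ i2)) fun g x => by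
    refine Prod.ext ?_ ?_
    · exact pr_dom ρ i1 h1 g x
    · change - (Finsupp.lmapDomain X ℤ i2 (pr ρ S0 g x)) = pr ρ S2 g (- (Finsupp.lmapDomain X ℤ i2 x))
      rw [pr_dom ρ i2 h2 g x, map_neg]

/-- the second map of the sequence -/
def vv (ρ : Representation ℤ G X) {S1 S2 S3 : Type} [MulAction G S1] [MulAction G S2] [MulAction G S3] (j1 : S1 → S3)
    (j2 : S2 → S3) (h1 : ∀ (a : G) s, j1 (a • s) = a • j1 s) (h2 : ∀ (a : G) s, j2 (a • s) = a • j2 s) :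
    Rep.of (pp (pr ρ S1) (pr ρ S2)) ⟶ Rep.of (pr ρ S3) :=
  mk _ _ ((Finsupp.lmapDomain X ℤ j1).coprod (Finsupp.lmapDomain X ℤ j2)) fun g x => by
    change Finsupp.lmapDomain X ℤ j1 (pr ρ S1 g x.1) + Finsupp.lmapDomain X ℤ j2 (pr ρ S2 g x.2) =
      pr ρ S3 g (Finsupp.lmapDomain X ℤ j1 x.1 + Finsupp.lmapDomain X ℤ j2 x.2)
    rw [pr_dom ρ j1 h1 g, pr_dom ρ j2 h2 g, map_add]

theorem exa (ρ : Representation ℤ G X) {S0 S1 S2 S3 : Type} [MulAction G S0] [MulAction G S1] [MulAction G S2]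
    [MulAction G S3] (i1 : S0 → S1) (i2 : S0 → S2) (j1 : S1 → S3) (j2 : S2 → S3) (m : MV i1 i2 j1 j2)
    (h1 : ∀ (a : G) s, i1 (a • s) = a • i1 s) (h2 : ∀ (a : G) s, i2 (a • s) = a • i2 s)
    (h3 : ∀ (a : G) s, j1 (a • s) = a • j1 s) (h4 : ∀ (a : G) s, j2 (a • s) = a • j2 s) :
    Function.Injective (uu ρ i1 i2 h1 h2).hom ∧ Function.Surjective (vv ρ j1 j2 h3 h4).hom ∧
    ∀ b, (vv ρ j1 j2 h3 h4).hom b = 0 ↔ ∃ a, (uu ρ i1 i2 h1 h2).hom a = b := by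
  have e1 : ∀ x : S0 →₀ X, (uu ρ i1 i2 h1 h2).hom x = (x.mapDomain i1, - x.mapDomain i2) := fun x => rfl
  have e2 : ∀ x : (S1 →₀ X) × (S2 →₀ X), (vv ρ j1 j2 h3 h4).hom x = x.1.mapDomain j1 + x.2.mapDomain j2 :=
    fun x => rfl
  refine ⟨?_, ?_, ?_⟩
  · change Function.Injective ((Finsupp.lmapDomain X ℤ i1).prod (- Finsupp.lmapDomain X ℤ i2))
    rw [injective_iff_map_eq_zero]
    intro x hx
    have h5 : x.mapDomain i1 = 0 := congrArg Prod.fst hx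
    have h6 : - x.mapDomain i2 = 0 := congrArg Prod.snd hx
    exact m.inj X x h5 (neg_eq_zero.1 h6)
  · intro y
    change ∃ x, ((Finsupp.lmapDomain X ℤ j1).coprod (Finsupp.lmapDomain X ℤ j2)) x = y
    have h5 : (⊤ : Submodule ℤ (S3 →₀ X)) ≤ LinearMap.range ((Finsupp.lmapDomain X ℤ j1).coprod (Finsupp.lmapDomain X ℤ j2)) := by
      intro z _
      induction z using Finsupp.induction_linear with
      | zero => exact Submodule.zero_mem _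
      | add p q hp hq => exact Submodule.add_mem _ (hp trivial) (hq trivial)
      | single s x =>
        rcases m.sur s with ⟨t, rfl⟩ | ⟨t, rfl⟩
        · exact ⟨(Finsupp.single t x, 0), by simp⟩
        · exact ⟨(0, Finsupp.single t x), by simp⟩
    exact h5 trivial
  · intro b
    constructor
    · intro hb
      have h5 : b.1.mapDomain j1 + b.2.mapDomain j2 = 0 := hb
      have h6 : b.1.mapDomain j1 = (-b.2).mapDomain j2 := by
        have h7 : (-b.2).mapDomain j2 = - b.2.mapDomain j2 := map_neg (Finsupp.lmapDomain X ℤ j2) b.2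
        rw [h7]
        exact eq_neg_of_add_eq_zero_left h5
      obtain ⟨x, hx, hy⟩ := m.mid X b.1 (-b.2) h6
      refine ⟨x, ?_⟩
      change (x.mapDomain i1, - x.mapDomain i2) = b
      rw [hx, hy, neg_neg]
    · rintro ⟨x, rfl⟩
      change (x.mapDomain i1).mapDomain j1 + (- x.mapDomain i2).mapDomain j2 = 0
      have h7 : (- x.mapDomain i2).mapDomain j2 = - (x.mapDomain i2).mapDomain j2 :=
        map_neg (Finsupp.lmapDomain X ℤ j2) _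
      rw [h7, ← Finsupp.mapDomain_comp, ← Finsupp.mapDomain_comp]
      have h8 : j1 ∘ i1 = j2 ∘ i2 := funext m.comm
      rw [h8, add_neg_cancel]

end fin

end MVQ

theorem t_MVQ : S_MVQ := by
  intro A G X _ _ _ φ ρ S0 S1 S2 S3 T0 T1 T2 T3 _ _ _ _ _ _ _ _ i1 i2 j1 j2 k1 k2 l1 l2 f0 f1 f2 f3 m m'
    hi1 hi2 hj1 hj2 hk1 hk2 hl1 hl2 q1 q2 q3 q4 ⟨g0, Q0⟩ ⟨g1, Q1⟩ ⟨g2, Q2⟩
  have g3 : ∀ (a : A) s, f3 (a • s) = φ a • f3 s := by
    intro a s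
    rcases m.sur s with ⟨t, rfl⟩ | ⟨t, rfl⟩
    · rw [← hj1, q3, g1, hl1, q3]
    · rw [← hj2, q4, g2, hl2, q4]
  refine ⟨g3, ?_⟩
  obtain ⟨e1, e2, e3⟩ := MVQ.exa (ρ.comp φ) i1 i2 j1 j2 m hi1 hi2 hj1 hj2
  obtain ⟨e1', e2', e3'⟩ := MVQ.exa ρ k1 k2 l1 l2 m' hk1 hk2 hl1 hl2
  have mid : QuasiIso (chainsMap φ (MVQ.fmm φ ρ f1 g1 f2 g2)) := by
    refine MVQ.middle φ (MVQ.mk _ _ (LinearMap.inl ℤ _ _) ?_) (MVQ.mk _ _ (LinearMap.inr ℤ _ _) ?_)
      (MVQ.mk _ _ (LinearMap.fst ℤ _ _) ?_) (MVQ.mk _ _ (LinearMap.snd ℤ _ _) ?_) (MVQ.mk _ _ (LinearMap.inl ℤ _ _) ?_)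
      (MVQ.mk _ _ (LinearMap.inr ℤ _ _) ?_) (MVQ.mk _ _ (LinearMap.fst ℤ _ _) ?_) (MVQ.mk _ _ (LinearMap.snd ℤ _ _) ?_)
      (fm φ ρ f1 g1) (fm φ ρ f2 g2) (MVQ.fmm φ ρ f1 g1 f2 g2) Q1 Q2 ?_ ?_ ?_ ?_ ?_ ?_
    · intro g x
      exact Prod.ext rfl (map_zero (pr (ρ.comp φ) S2 g)).symm
    · intro g x
      exact Prod.ext (map_zero (pr (ρ.comp φ) S1 g)).symm rfl
    · intro g x
      rfl
    · intro g x
      rfl
    · intro g x
      exact Prod.ext rfl (map_zero (pr ρ T2 g)).symm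
    · intro g x
      exact Prod.ext (map_zero (pr ρ T1 g)).symm rfl
    · intro g x
      rfl
    · intro g x
      rfl
    · intro x
      exact Prod.ext (add_zero _) (zero_add _)
    · intro x
      exact Prod.ext (add_zero _) (zero_add _)
    · intro x
      exact Prod.ext rfl (map_zero (Finsupp.lmapDomain X ℤ f2))
    · intro x
      exact Prod.ext (map_zero (Finsupp.lmapDomain X ℤ f1)) rfl
    · intro x
      rfl
    · intro x
      rfl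
  refine MVQ.two φ (MVQ.uu (ρ.comp φ) i1 i2 hi1 hi2) (MVQ.vv (ρ.comp φ) j1 j2 hj1 hj2) (MVQ.uu ρ k1 k2 hk1 hk2)
    (MVQ.vv ρ l1 l2 hl1 hl2) e1 e2 e3 e1' e2' e3' (fm φ ρ f0 g0) (MVQ.fmm φ ρ f1 g1 f2 g2) (fm φ ρ f3 g3) ?_ ?_ Q0 mid
  · intro x
    change ((Finsupp.mapDomain f1 (Finsupp.mapDomain i1 x)), (Finsupp.mapDomain f2 (- Finsupp.mapDomain i2 x))) =
      ((Finsupp.mapDomain k1 (Finsupp.mapDomain f0 x)), (- Finsupp.mapDomain k2 (Finsupp.mapDomain f0 x)))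
    have h7 : (- Finsupp.mapDomain i2 x).mapDomain f2 = - (Finsupp.mapDomain i2 x).mapDomain f2 :=
      map_neg (Finsupp.lmapDomain X ℤ f2) _
    rw [h7, ← Finsupp.mapDomain_comp, ← Finsupp.mapDomain_comp, ← Finsupp.mapDomain_comp, ← Finsupp.mapDomain_comp,
      show f1 ∘ i1 = k1 ∘ f0 from funext q1, show f2 ∘ i2 = k2 ∘ f0 from funext q2]
  · intro x
    change Finsupp.mapDomain f3 (Finsupp.mapDomain j1 x.1 + Finsupp.mapDomain j2 x.2) =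
      Finsupp.mapDomain l1 (Finsupp.mapDomain f1 x.1) + Finsupp.mapDomain l2 (Finsupp.mapDomain f2 x.2)
    rw [Finsupp.mapDomain_add, ← Finsupp.mapDomain_comp, ← Finsupp.mapDomain_comp, ← Finsupp.mapDomain_comp,
      ← Finsupp.mapDomain_comp, show f3 ∘ j1 = l1 ∘ f1 from funext q3, show f3 ∘ j2 = l2 ∘ f2 from funext q4]

end Pool.Agent.H56G
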