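import Pool.Agent.H56G.Stm
import Pool.Agent.H56T.FINA
import Pool.Agent.H56T.SALV

/-!
# Project GPR, piece SAV (helper51): the homology of right-angled Artin groups with coefficients where `1 - t` is a unit
-/

set_option autoImplicit false

noncomputable section

namespace Pool.Agent.H56G

open Pool.Agent.W907.SG Pool.Agent.N496.LT Pool.Agent.Helper655.VN Pool.Agent.RK Pool.Agent.H56T Pool.Agent.N496.CV

attribute [local instance] VN831.bcFunctor_additive VN831.viaAdd VN831.viaMod V7N.bcF_additive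
  V7N.rmAdd V7N.rmMod

namespace SAV

open Pool.Agent.H56T.FINA Pool.Agent.N496.CV.FinAux

section

variable {V : Type} [Fintype V] [LinearOrder V] {G : SimpleGraph V} {R : Type} [Ring R]

/-- extension by zero -/
def ex (f : Cl G → R) (T : Finset V) : R := FINA.ext (fun x (_ : AG G) => f x) T 1

theorem ex_of (f : Cl G → R) (T : Cl G) : ex f T.1 = f T := by
  unfold ex
  rw [ext_of]

theorem ex_not (f : Cl G → R) (T : Finset V) (h : ¬ G.IsClique (T : Set V)) : ex f T = 0 := by
  unfold ex
  rw [ext_not _ T h]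
  rfl

theorem ext_tw (c : AG G →* R) (f : Cl G → R) (T : Finset V) (g : AG G) :
    FINA.ext (fun x g => f x * c g⁻¹) T g = ex f T * c g⁻¹ := by
  by_cases h : G.IsClique (T : Set V)
  · rw [ext_of _ ⟨T, h⟩, ex_of f ⟨T, h⟩]
  · rw [ext_not _ T h, ex_not f T h, zero_mul]
    rfl

theorem keyR (c : AG G →* R) (f : Cl G → R) (j : Cl G) :
    ∑ i, f i * V7N.evM c (DD G i j) = ∑ t ∈ j.1ᶜ, sg t j.1 • (ex f (insert t j.1) * (1 - c (agen G t))) := by
  have h := key (fun (x : Cl G) (g : AG G) => f x * c g⁻¹) j 1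
  have h1 : ∀ i : Cl G, (DD G i j).coeff.sum (fun γ a => a • (f i * c (1 * γ⁻¹)⁻¹)) = f i * V7N.evM c (DD G i j) := by
    intro i
    rw [evM_apply]
    unfold Finsupp.sum
    rw [Finset.mul_sum]
    refine Finset.sum_congr rfl fun γ _ => ?_
    show (DD G i j).coeff γ • (f i * c (1 * γ⁻¹)⁻¹) = f i * ((DD G i j).coeff γ • c γ)
    rw [one_mul, inv_inv, mul_smul_comm]
  rw [← Finset.sum_congr rfl fun i _ => h1 i]
  refine h.trans ?_
  unfold bda
  refine Finset.sum_congr rfl fun t _ => ?_
  rw [ext_tw, ext_tw, one_mul, inv_one, map_one, inv_inv, mul_one, mul_sub, mul_one]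

open Classical in
/-- the product -/
def PP (u : V → Rˣ) (T : Finset V) : Rˣ :=
  if h : (T : Set V).Pairwise (Function.onFun Commute u) then T.noncommProd u h else 1

theorem PP_insert (u : V → Rˣ) {T : Finset V} {t : V} (ht : t ∉ T)
    (h : ((insert t T : Finset V) : Set V).Pairwise (Function.onFun Commute u)) :
    PP u (insert t T) = u t * PP u T := by
  have h' : (T : Set V).Pairwise (Function.onFun Commute u) :=
    h.mono (by rw [Finset.coe_subset]; exact Finset.subset_insert _ _)
  unfold PP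
  rw [dif_pos h, dif_pos h', Finset.noncommProd_insert_of_notMem _ _ _ _ ht]

theorem comm_cl (c : AG G →* R) (u : V → Rˣ) (hu : ∀ t, (u t : R) = 1 - c (agen G t)) {T : Finset V}
    (h : G.IsClique (T : Set V)) : (T : Set V).Pairwise (Function.onFun Commute u) := by
  intro s hs t ht hst
  have h1 : Commute (c (agen G s)) (c (agen G t)) := (agen_comm (h hs ht hst)).map c
  have h2 : Commute (1 - c (agen G s)) (1 - c (agen G t)) :=
    (Commute.one_left _).sub_left ((Commute.one_right _).sub_right h1)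
  refine Units.ext ?_
  rw [Units.val_mul, Units.val_mul, hu, hu]
  exact h2.eq

theorem sbP (c : AG G →* R) (u : V → Rˣ) (hu : ∀ t, (u t : R) = 1 - c (agen G t)) (f : Cl G → R) (j : Cl G) :
    (∑ i, f i * V7N.evM c (DD G i j)) * (PP u j.1 : R) = sb (fun T => ex f T * (PP u T : R)) j.1 := by
  rw [keyR, Finset.sum_mul]
  unfold sb
  refine Finset.sum_congr rfl fun t ht => ?_
  rw [Finset.mem_compl] at ht
  rw [smul_mul_assoc]
  show _ = sg t j.1 • (ex f (insert t j.1) * (PP u (insert t j.1) : R))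
  by_cases h : G.IsClique ((insert t j.1 : Finset V) : Set V)
  · rw [PP_insert u ht (comm_cl c u hu h), Units.val_mul, hu, mul_assoc]
  · rw [ex_not f _ h, zero_mul, zero_mul, zero_mul]

end

end SAV

open SAV FINA Pool.Agent.N496.CV.FinAux in
/-- **SAV** -/
theorem t_SAV : S_SAV := by
  classical
  intro V _ _ G R _ _ c hc n hE
  obtain ⟨ε, h1, h2, h3, h4⟩ := res salv G
  let C : V7N.FreeRes (AG G) := ⟨(sal G).toFree.rank, (sal G).toFree.d, ε, h1, h2, h3, h4⟩
  have hind : VN831.CosetIndep (RingHom.id R) c (MonoidHom.id (AG G)).range := by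
    intro s hs x hx g hg
    have h5 : s = {g} := by
      refine Finset.eq_singleton_iff_unique_mem.2 ⟨hg, fun y hy => ?_⟩
      by_contra hne
      exact hs y hy g hg hne ⟨_, rfl⟩
    rw [h5, Finset.sum_singleton] at hx
    have h6 : x g * c g = 0 := hx
    have h7 : x g * c g * c g⁻¹ = 0 := by rw [h6, zero_mul]
    rwa [mul_assoc, ← map_mul, mul_inv_cancel, map_one, mul_one] at h7
  obtain ⟨f⟩ := V7N.v7_succ C n (MonoidHom.id _) Function.injective_id c c (RingHom.id R) (fun _ => rfl) hind
  have f' : homR c (n + 1) ≃ₗ[R] VN831.HR (RingHom.id R) c (((sal G).toFree.d (n + 1)).map (V7N.evM c))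
    (((sal G).toFree.d n).map (V7N.evM c)) := f
  refine @Equiv.subsingleton _ _ f'.toEquiv ?_
  refine Submodule.Quotient.subsingleton_iff.2 (eq_top_iff.2 ?_)
  rintro ⟨v, hv⟩ -
  obtain ⟨u, hu⟩ : ∃ u : V → Rˣ, ∀ t, (u t : R) = 1 - c (agen G t) :=
    ⟨fun t => (hc t).unit, fun t => (hc t).unit_spec⟩
  let vv : Fin ((sal G).toFree.rank (n + 1)) → R := v
  let v' : Cl G → R := fun x => if h : ∃ k, cell (sal G) (n + 1) k = x then vv h.choose else 0
  have hv1 : ∀ k, v' (cell (sal G) (n + 1) k) = vv k := by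
    intro k
    have h : ∃ k', cell (sal G) (n + 1) k' = cell (sal G) (n + 1) k := ⟨k, rfl⟩
    have h5 : v' (cell (sal G) (n + 1) k) = vv h.choose := dif_pos h
    rw [h5, cell_inj _ _ h.choose_spec]
  have hv0 : ∀ x : Cl G, (sal G).deg x ≠ n + 1 → v' x = 0 := by
    intro x hx
    refine dif_neg ?_
    rintro ⟨k, rfl⟩
    exact hx (cell_deg _ _ k)
  have hcyc : ∀ y : Cl G, ∑ i, v' i * V7N.evM c (DD G i y) = 0 := by
    intro y
    by_cases hy : (sal G).deg y = n
    · obtain ⟨l, hl⟩ := exists_cell (sal G) hy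
      have h5 : ∑ k, vv k * (((sal G).toFree.d n).map (V7N.evM c)) k l = 0 := congrFun hv.2 l
      refine Eq.trans ?_ h5
      refine (sum_cell (sal G) (n + 1) (fun x : Cl G => v' x * V7N.evM c (DD G x y)) ?_).symm.trans ?_
      · intro x hx
        rw [hv0 x hx, zero_mul]
      · refine Finset.sum_congr rfl fun k _ => ?_
        rw [Matrix.map_apply, d_apply, hl, hv1]
        rfl
    · refine Finset.sum_eq_zero fun x _ => ?_
      by_cases hx : (sal G).deg x = n + 1
      · have h5 : DD G x y = 0 := by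
          by_contra h5
          have := (sal G).D_deg x y h5
          omega
        rw [h5, map_zero, mul_zero]
      · rw [hv0 x hx, zero_mul]
  have hX : Chn G (n + 1) (fun T => ex v' T * (PP u T : R)) := by
    intro T hT
    by_cases h : G.IsClique (T : Set V)
    · have h5 : ex v' T = 0 := (ex_of v' ⟨T, h⟩).trans (hv0 ⟨T, h⟩ fun h2 => hT ⟨h, h2⟩)
      show ex v' T * _ = 0
      rw [h5, zero_mul]
    · show ex v' T * _ = 0
      rw [ex_not v' T h, zero_mul]
  have hb : ∀ T, sb (fun T => ex v' T * (PP u T : R)) T = 0 := by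
    intro T
    by_cases h : G.IsClique (T : Set V)
    · have h5 := sbP c u hu v' ⟨T, h⟩
      rw [hcyc, zero_mul] at h5
      exact h5.symm
    · unfold sb
      refine Finset.sum_eq_zero fun t _ => ?_
      show sg t T • (SAV.ex v' (insert t T) * (PP u (insert t T) : R)) = 0
      rw [ex_not v' (insert t T) fun h' => h (h'.subset (by
        rw [Finset.coe_subset]; exact Finset.subset_insert _ _)), zero_mul, smul_zero]
  obtain ⟨y, hy, hyb⟩ := exa_mod hE _ hX hb
  let w' : Cl G → R := fun T => y T.1 * (((PP u T.1)⁻¹ : Rˣ) : R)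
  have hw : ∀ T, ex w' T * (PP u T : R) = y T := by
    intro T
    by_cases h : G.IsClique (T : Set V)
    · have h5 : ex w' T = y T * (((PP u T)⁻¹ : Rˣ) : R) := ex_of w' ⟨T, h⟩
      rw [h5, Units.inv_mul_cancel_right]
    · rw [ex_not w' T h, hy T fun h2 => h h2.1, zero_mul]
  have hw' : ∀ j : Cl G, ∑ i, w' i * V7N.evM c (DD G i j) = v' j := by
    intro j
    have h5 := sbP c u hu w' j
    rw [show (fun T => ex w' T * (PP u T : R)) = y from funext hw, hyb, ex_of v' j] at h5
    exact (Units.mul_left_inj _).1 h5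
  have hSR : ∀ x : R, (show VN831.Via (RingHom.id R) from x) ∈ VN831.SR (RingHom.id R) c := by
    intro x
    have h5 : (show VN831.Via (RingHom.id R) from x) = x • (show VN831.Via (RingHom.id R) from c 1) := by
      have h6 : x = x * c 1 := by rw [map_one, mul_one]
      exact h6
    rw [h5]
    exact Submodule.smul_mem _ _ (Submodule.subset_span ⟨1, rfl⟩)
  refine ⟨fun m => w' (cell (sal G) (n + 1 + 1) m), fun m _ => hSR _, ?_⟩
  funext k
  refine Eq.trans ?_ (hv1 k)
  refine Eq.trans ?_ (hw' (cell (sal G) (n + 1) k))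
  refine Eq.trans ?_ (sum_cell (sal G) (n + 1 + 1) (fun x : Cl G => w' x * V7N.evM c (DD G x (cell (sal G) (n + 1) k))) ?_)
  · rfl
  · intro x hx
    have h5 : y x.1 = 0 := hy x.1 fun h => hx h.2
    show y x.1 * _ * _ = 0
    rw [h5, zero_mul, zero_mul]

end Pool.Agent.H56G
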