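import Pool.Agent.H56G.Stm3

set_option autoImplicit false

noncomputable section

namespace Pool.Agent.H56G

namespace SHC

variable {G : Type} [Group G] (Q : Subgroup G)

/-- the set of the right cosets -/
abbrev RQ : Type := Quotient (QuotientGroup.rightRel Q)

/-- the class -/
def cl (g : G) : RQ Q := Quotient.mk (QuotientGroup.rightRel Q) g

theorem cl_eq {x y : G} : cl Q x = cl Q y ↔ y * x⁻¹ ∈ Q := by
  unfold cl
  rw [Quotient.eq, QuotientGroup.rightRel_apply]

open Classical in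
/-- the section -/
def sec (i : RQ Q) : G := if i = cl Q 1 then 1 else i.out

theorem cl_sec (i : RQ Q) : cl Q (sec Q i) = i := by
  unfold sec
  split_ifs with h
  · exact h.symm
  · exact Quotient.out_eq i

theorem sec_one : sec Q (cl Q 1) = 1 := by
  unfold sec
  rw [if_pos rfl]

end SHC

theorem t_SHC : S_SHC := by
  intro G _ Q hQ
  have hfin : Finite (SHC.RQ Q) := by
    have h1 : Finite (G ⧸ Q) := inferInstance
    exact Finite.of_equiv _ (QuotientGroup.quotientRightRelEquivQuotientLeftRel Q).symm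
  have _ := Fintype.ofFinite (SHC.RQ Q)
  refine ⟨SHC.RQ Q, Fintype.ofFinite _, SHC.sec Q, fun i g => SHC.cl Q (SHC.sec Q i * g), SHC.cl Q 1,
    ⟨?_, ?_, ?_, ?_, ?_⟩, ?_⟩
  · intro i g
    exact (SHC.cl_eq Q).1 (SHC.cl_sec Q _)
  · intro i g h
    refine ((SHC.cl_eq Q).2 ?_)
    have h1 := (SHC.cl_eq Q).1 (SHC.cl_sec Q (SHC.cl Q (SHC.sec Q i * g)))
    have h2 : SHC.sec Q i * (g * h) * (SHC.sec Q (SHC.cl Q (SHC.sec Q i * g)) * h)⁻¹ =
        SHC.sec Q i * g * (SHC.sec Q (SHC.cl Q (SHC.sec Q i * g)))⁻¹ := by group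
    rw [h2]
    exact h1
  · intro i
    show SHC.cl Q (SHC.sec Q i * 1) = i
    rw [mul_one, SHC.cl_sec]
  · exact SHC.sec_one Q
  · intro q hq
    show SHC.cl Q (SHC.sec Q (SHC.cl Q 1) * q) = SHC.cl Q 1
    rw [SHC.sec_one, one_mul, SHC.cl_eq, one_mul]
    exact Q.inv_mem hq
  · intro i g h
    show SHC.cl Q (SHC.sec Q i * g) = i
    conv_rhs => rw [← SHC.cl_sec Q i]
    rw [eq_comm, SHC.cl_eq]
    exact h

end Pool.Agent.H56G
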