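import Pool.Agent.H56G.Stm3

/-!
# GPR, piece SHR (helper70)
-/

set_option autoImplicit false

noncomputable section

namespace Pool.Agent.H56G

open CategoryTheory groupHomology

namespace SHR

theorem dd_single {K R : Type} [Group K] [Ring R] (c : K →* R) (n : ℕ) (g : Fin (n + 1) → K) (x : R) :
    dd c n (Finsupp.single g x) = Finsupp.single (fun i => g i.succ) (x * c (g 0)) +
      ∑ j : Fin (n + 1), (-1 : ℤ) ^ ((j : ℕ) + 1) • Finsupp.single (Fin.contractNth j (· * ·) g) x := by
  unfold dd
  rw [inhomogeneousChains.d_def]
  refine (inhomogeneousChains.d_single (A := Rep.of (rr c)) n g x).trans ?_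
  congr 1
  show Finsupp.single (fun i : Fin n => g i.succ) (x * c ((g 0)⁻¹)⁻¹) = _
  rw [inv_inv]

variable {G : Type} [Group G] {Q : Subgroup G} {I : Type} {t : I → G} {a : I → G → I} {o : I}

theorem q_mul (h : Cos Q t a o) (i : I) (g g' : G) : h.q i (g * g') = h.q i g * h.q (a i g) g' := by
  apply Subtype.ext
  show t i * (g * g') * (t (a i (g * g')))⁻¹ = (t i * g * (t (a i g))⁻¹) * (t (a i g) * g' * (t (a (a i g) g'))⁻¹)
  rw [h.act]
  group

/-- The group elements of the other side. -/
def psi (h : Cos Q t a o) {n : ℕ} (i : I) (g : Fin n → G) (k : Fin n) : Q :=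
  h.q (a i (Fin.partialProd g k.castSucc)) (g k)

theorem psi_contract (h : Cos Q t a o) {n : ℕ} (i : I) (g : Fin (n + 1) → G) (j : Fin (n + 1)) :
    Fin.contractNth j (· * ·) (psi h i g) = psi h i (Fin.contractNth j (· * ·) g) := by
  funext k
  have hpp : Fin.partialProd (Fin.contractNth j (· * ·) g) k.castSucc =
      Fin.partialProd g (j.succ.succAbove k.castSucc) := by
    have := congrFun (Fin.partialProd_contractNth g j) k.castSucc
    exact this
  unfold psi
  rw [hpp]
  rcases lt_trichotomy (k : ℕ) (j : ℕ) with hk | hk | hk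
  · rw [Fin.contractNth_apply_of_lt _ _ _ _ hk, Fin.contractNth_apply_of_lt _ _ _ _ hk]
    have h1 : j.succ.succAbove k.castSucc = k.castSucc.castSucc := by
      apply Fin.succAbove_of_castSucc_lt
      rw [Fin.lt_def]
      simp only [Fin.val_castSucc, Fin.val_succ]
      omega
    rw [h1]
  · rw [Fin.contractNth_apply_of_eq _ _ _ _ hk, Fin.contractNth_apply_of_eq _ _ _ _ hk]
    have h1 : j.succ.succAbove k.castSucc = k.castSucc.castSucc := by
      apply Fin.succAbove_of_castSucc_lt
      rw [Fin.lt_def]
      simp only [Fin.val_castSucc, Fin.val_succ]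
      omega
    rw [h1, q_mul, h.act]
    have h2 : Fin.partialProd g k.succ.castSucc = Fin.partialProd g k.castSucc.castSucc * g k.castSucc := by
      rw [← Fin.succ_castSucc, Fin.partialProd_succ]
    rw [h2]
  · rw [Fin.contractNth_apply_of_gt _ _ _ _ hk, Fin.contractNth_apply_of_gt _ _ _ _ hk]
    have h1 : j.succ.succAbove k.castSucc = k.succ.castSucc := by
      rw [Fin.succAbove_of_le_castSucc, Fin.succ_castSucc]
      rw [Fin.le_def]
      simp only [Fin.val_castSucc, Fin.val_succ]
      omega
    rw [h1]

theorem psi_succ (h : Cos Q t a o) {n : ℕ} (i : I) (g : Fin (n + 1) → G) :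
    (fun k : Fin n => psi h i g k.succ) = psi h (a i (g 0)) (fun k => g k.succ) := by
  funext k
  unfold psi
  have h1 : Fin.partialProd g k.succ.castSucc =
      g 0 * Fin.partialProd (fun k => g k.succ) k.castSucc := by
    rw [← Fin.succ_castSucc, Fin.partialProd_succ']
    rfl
  rw [h1, ← h.act]

theorem psi_zero (h : Cos Q t a o) {n : ℕ} (i : I) (g : Fin (n + 1) → G) :
    psi h i g 0 = h.q i (g 0) := by
  unfold psi
  rw [Fin.castSucc_zero, Fin.partialProd_zero, h.act_one]

theorem pp_mem {n : ℕ} (g : Fin n → Q) (j : Fin (n + 1)) :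
    Fin.partialProd (fun k => (g k : G)) j ∈ Q := by
  induction j using Fin.induction with
  | zero => rw [Fin.partialProd_zero]; exact Q.one_mem
  | succ j ih => rw [Fin.partialProd_succ]; exact Q.mul_mem ih (g j).2

theorem q_o (h : Cos Q t a o) (x : Q) : h.q o (x : G) = x := by
  apply Subtype.ext
  show t o * (x : G) * (t (a o (x : G)))⁻¹ = x
  rw [h.fix x x.2, h.one]
  group

theorem psi_o (h : Cos Q t a o) {n : ℕ} (g : Fin n → Q) : psi h o (fun k => (g k : G)) = g := by
  funext k
  unfold psi
  rw [h.fix _ (pp_mem g _), q_o]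

variable [Fintype I] [DecidableEq I] {U : Type} [Ring U]

/-- The inclusion of the coefficients. -/
def sg (o : I) (U : Type) [Ring U] : U →+ Matrix I I U where
  toFun x := Matrix.single o o x
  map_zero' := Matrix.single_zero o o
  map_add' x y := Matrix.single_add o o x y

/-- The map to the chains of `G`. -/
def kap (G : Type) [Group G] (Q : Subgroup G) (o : I) (U : Type) [Ring U] (n : ℕ) :
    ((Fin n → Q) →₀ U) →+ ((Fin n → G) →₀ Matrix I I U) :=
  (Finsupp.mapRange.addMonoidHom (sg o U)).comp
    (Finsupp.mapDomain.addMonoidHom (fun g : Fin n → Q => fun k => ((g k : Q) : G)))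

theorem kap_single (n : ℕ) (g : Fin n → Q) (x : U) :
    kap G Q o U n (Finsupp.single g x) = Finsupp.single (fun k => ((g k : Q) : G)) (Matrix.single o o x) := by
  unfold kap
  show Finsupp.mapRange (sg o U) (map_zero _) (Finsupp.mapDomain _ (Finsupp.single g x)) = _
  rw [Finsupp.mapDomain_single, Finsupp.mapRange_single]
  rfl

/-- The map back. -/
def ret (h : Cos Q t a o) (U : Type) [Ring U] (n : ℕ) :
    ((Fin n → G) →₀ Matrix I I U) →+ ((Fin n → Q) →₀ U) :=
  Finsupp.liftAddHom fun g => ∑ i : I,
    (Finsupp.singleAddHom (psi h i g)).comp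
      ({ toFun := fun A : Matrix I I U => A o i, map_zero' := rfl, map_add' := fun _ _ => rfl } :
        Matrix I I U →+ U)

theorem ret_single (h : Cos Q t a o) (n : ℕ) (g : Fin n → G) (A : Matrix I I U) :
    ret h U n (Finsupp.single g A) = ∑ i : I, Finsupp.single (psi h i g) (A o i) := by
  unfold ret
  rw [Finsupp.liftAddHom_apply_single, AddMonoidHom.finsetSum_apply]
  rfl

theorem ret_kap (h : Cos Q t a o) (n : ℕ) (v : (Fin n → Q) →₀ U) : ret h U n (kap G Q o U n v) = v := by
  induction v using Finsupp.induction_linear with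
  | zero => rw [map_zero, map_zero]
  | add v w hv hw => rw [map_add, map_add, hv, hw]
  | single g x =>
    rw [kap_single, ret_single, Finset.sum_eq_single o]
    · rw [psi_o, Matrix.single_apply_same]
    · intro i _ hi
      rw [Matrix.single_apply_of_ne, Finsupp.single_zero]
      intro hh
      exact hi hh.2.symm
    · intro hh
      exact absurd (Finset.mem_univ o) hh

theorem ret_dd (h : Cos Q t a o) (u : Q →* U) (c : G →* Matrix I I U) (hc : ∀ g, c g = h.mat u g) (n : ℕ)
    (v : (Fin (n + 1) → G) →₀ Matrix I I U) :
    ret h U n (dd c n v) = dd u n (ret h U (n + 1) v) := by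
  induction v using Finsupp.induction_linear with
  | zero => rw [map_zero, map_zero, map_zero, map_zero]
  | add v w hv hw => rw [map_add, map_add, map_add, map_add, hv, hw]
  | single g A =>
    rw [dd_single, map_add, ret_single, ret_single, map_sum, map_sum]
    have h1 : ∀ i : I, dd u n (Finsupp.single (psi h i g) (A o i)) =
        Finsupp.single (psi h (a i (g 0)) (fun k => g k.succ)) (A o i * u (h.q i (g 0))) +
        ∑ j : Fin (n + 1), (-1 : ℤ) ^ ((j : ℕ) + 1) •
          Finsupp.single (psi h i (Fin.contractNth j (· * ·) g)) (A o i) := by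
      intro i
      rw [dd_single, psi_succ, psi_zero]
      congr 1
      refine Finset.sum_congr rfl fun j _ => ?_
      rw [psi_contract]
    rw [Finset.sum_congr rfl fun i _ => h1 i, Finset.sum_add_distrib]
    congr 1
    · have h2 : ∀ k : I, (A * c (g 0)) o k =
          ∑ i : I, if k = a i (g 0) then A o i * u (h.q i (g 0)) else 0 := by
        intro k
        rw [hc, Matrix.mul_apply]
        refine Finset.sum_congr rfl fun i _ => ?_
        unfold Cos.mat
        rw [Matrix.of_apply]
        split_ifs
        · rfl
        · rw [mul_zero]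
      have h3 : ∀ k : I, Finsupp.single (psi h k (fun k => g k.succ)) ((A * c (g 0)) o k) =
          ∑ i : I, if k = a i (g 0) then
            Finsupp.single (psi h k (fun k => g k.succ)) (A o i * u (h.q i (g 0))) else 0 := by
        intro k
        rw [h2]
        refine (map_sum (Finsupp.singleAddHom (psi h k (fun k => g k.succ))) _ _).trans ?_
        refine Finset.sum_congr rfl fun i _ => ?_
        show Finsupp.single (psi h k (fun k => g k.succ)) _ = _
        split_ifs
        · rfl
        · rw [Finsupp.single_zero]
      rw [Finset.sum_congr rfl fun k _ => h3 k, Finset.sum_comm]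
      refine Finset.sum_congr rfl fun i _ => ?_
      rw [Finset.sum_ite_eq']
      rw [if_pos (Finset.mem_univ _)]
    · rw [Finset.sum_comm]
      refine Finset.sum_congr rfl fun j _ => ?_
      rw [map_zsmul, ret_single, Finset.smul_sum]

theorem kap_dd (h : Cos Q t a o) (u : Q →* U) (c : G →* Matrix I I U) (hc : ∀ g, c g = h.mat u g) (n : ℕ)
    (v : (Fin (n + 1) → Q) →₀ U) :
    dd c n (kap G Q o U (n + 1) v) = kap G Q o U n (dd u n v) := by
  induction v using Finsupp.induction_linear with
  | zero => rw [map_zero, map_zero, map_zero, map_zero]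
  | add v w hv hw => rw [map_add, map_add, map_add, map_add, hv, hw]
  | single g x =>
    rw [dd_single, map_add, kap_single, kap_single, dd_single, map_sum]
    congr 1
    · congr 1
      rw [hc]
      ext i j
      rw [Matrix.mul_apply]
      unfold Cos.mat
      by_cases hi : i = o
      · subst hi
        rw [Finset.sum_eq_single i]
        · rw [Matrix.single_apply_same, Matrix.of_apply, h.fix _ (g 0).2, q_o]
          by_cases hj : j = i
          · rw [if_pos hj, hj, Matrix.single_apply_same]
          · rw [if_neg hj, mul_zero, Matrix.single_apply_of_ne]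
            exact fun hh => hj hh.2.symm
        · intro k _ hk
          rw [Matrix.single_apply_of_ne, zero_mul]
          exact fun hh => hk hh.2.symm
        · intro hh
          exact absurd (Finset.mem_univ _) hh
      · rw [Matrix.single_apply_of_ne]
        · refine Finset.sum_eq_zero fun k _ => ?_
          rw [Matrix.single_apply_of_ne, zero_mul]
          exact fun hh => hi hh.1.symm
        · exact fun hh => hi hh.1.symm
    · refine Finset.sum_congr rfl fun j _ => ?_
      rw [map_zsmul, kap_single]
      congr 2
      exact (Fin.comp_contractNth (· * ·) (· * ·) (f := fun q : Q => (q : G)) (fun _ _ => rfl) j g).symm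

end SHR

open SHR in
theorem t_SHR : S_SHR := by
  intro G _ Q I _ _ t a o h U _ u c hc n hex v hv
  obtain ⟨y, hy⟩ := hex (kap G Q o U (n + 1) v) (by rw [kap_dd h u c hc, hv, map_zero])
  refine ⟨ret h U (n + 1 + 1) y, ?_⟩
  rw [← ret_dd h u c hc, hy, ret_kap]

end Pool.Agent.H56G
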