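import Pool.Agent.H56G.Stm

set_option autoImplicit false

noncomputable section

namespace Pool.Agent.H56G

open Pool.Agent.H56T

namespace TOP

/-- the pull back of a proper action along an injective homomorphism is proper -/
theorem propAct_comp {A G M : Type} [Group A] [Group G] [TopologicalSpace M] [MulAction G M] (f : A →* G)
    (hf : Function.Injective f) (hP : PropAct G M) :
    @PropAct A M _ _ (MulAction.compHom M f) := by
  letI : MulAction A M := MulAction.compHom M f
  refine ⟨fun q => hP.1 (f q), fun K hK => ?_⟩
  have h1 := (hP.2 K hK).preimage (f := f) hf.injOn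
  exact h1.subset fun q hq => hq

theorem zpowers_inj {A : Type} [Group A] (z : A) (hz : Function.Injective (fun n : ℕ => z ^ n)) :
    Function.Injective (zpowersHom A z) := by
  rw [injective_iff_map_eq_one]
  intro k hk
  rw [zpowersHom_apply] at hk
  have h1 : z ^ k.toAdd.natAbs = 1 := by
    rcases Int.natAbs_eq k.toAdd with h | h
    · rw [h, zpow_natCast] at hk
      exact hk
    · rw [h, zpow_neg, zpow_natCast, inv_eq_one] at hk
      exact hk
  have h2 : k.toAdd.natAbs = 0 := hz (by simpa using h1)
  have h3 : k.toAdd = 0 := Int.natAbs_eq_zero.1 h2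
  exact Multiplicative.toAdd.injective h3

end TOP

theorem t_TOP : S_TOP := by
  intro hAGP hINJ V _ _ Γ H _ G _ ι hι z hz Q hQ n M _ _ hM _ hP i hi
  obtain ⟨φ, hφ⟩ := (hAGP V Γ).lift G (fun v => (ι v).comp (zpowersHom (H v) (z v)))
    (fun u v huv a b => hι.comm u v huv _ _)
  have hinj : Function.Injective φ :=
    hINJ V Γ (fun _ => Multiplicative ℤ) H (AG Γ) G _ ι (hAGP V Γ) hι φ (fun v => zpowersHom (H v) (z v))
      (fun v k => hφ v k) (fun v => TOP.zpowers_inj (z v) (hz v))
  letI : MulAction (Q.comap φ) M := MulAction.compHom M (φ.subgroupComap Q)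
  have hfi : (Q.comap φ).FiniteIndex := by
    refine ⟨?_⟩
    rw [Subgroup.index_comap]
    exact (inferInstance : (Q.subgroupOf φ.range).FiniteIndex).index_ne_zero
  have hinj' : Function.Injective (φ.subgroupComap Q) := by
    intro x y hxy
    apply Subtype.ext
    apply hinj
    exact congrArg Subtype.val hxy
  exact CTR.raag_exa hM hfi (TOP.propAct_comp _ hinj' hP) hi

end Pool.Agent.H56G
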