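import Pool.Agent.H56G.FIN
import Pool.Agent.H56G.BAS
import Pool.Agent.H56G.ACY
import Pool.Agent.H56G.ACR
import Pool.Agent.H56G.ACN
import Pool.Agent.H56G.MVQ
import Pool.Agent.H56G.GPI
import Pool.Agent.H56G.GPX
import Pool.Agent.H56G.BRE
import Pool.Agent.H56G.BRI
import Pool.Agent.H56G.SAV
import Pool.Agent.H56G.AGP
import Pool.Agent.H56G.GPG
import Pool.Agent.H56G.INJ
import Pool.Agent.H56G.TOP
import Pool.Agent.H56G.SHC
import Pool.Agent.H56G.SHU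
import Pool.Agent.H56G.SHR

/-!
# Project GPR: the theorem
-/

set_option autoImplicit false

namespace Pool.Agent.H56G

open Pool.Agent.H56T Pool.Agent.N496.CV

theorem graph_products {V : Type} [Fintype V] (Γ : SimpleGraph V) (H : V → Type) [∀ v, Group (H v)]
    (hH : ∀ v, ∃ N : Subgroup (H v), N.Normal ∧ (∀ a ∈ N, ∀ b ∈ N, a * b = b * a) ∧ ∃ z ∈ N, orderOf z = 0)
    (Q : Subgroup (GP Γ H)) (hQ : Q.FiniteIndex) {n : ℕ} {M : Type} [TopologicalSpace M] [ContractibleSpace M]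
    (hM : StInj n M) [MulAction Q M] (hP : PropAct Q M) {i : ℕ} (hi : n < 2 * i) : HasL2Betti Q i 0 :=
  FIN.gpr_thm t_BAS t_ACY t_MVQ t_GPI t_GPX t_ACR t_ACN t_BRE t_BRI t_SAV t_AGP t_GPG t_INJ t_TOP t_SHC t_SHU t_SHR Γ H
    hH Q hQ hM hP hi

end Pool.Agent.H56G
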