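import Pool.Agent.H56G.Stm

/-!
# Project GPR, second part: vertex groups with a normal subgroup which has a central element of infinite order

(For example all vertex groups with an infinite normal abelian subgroup which is not a torsion group: infinite virtually
polycyclic groups, Baumslag-Solitar groups `BS(1, n)`, ...)
-/

set_option autoImplicit false

noncomputable section

namespace Pool.Agent.H56G

open CategoryTheory groupHomology

/-- **ACR.** Acyclic resolutions. Paper proof. Induction on `n`, for all sequences `Y` with these properties. Let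
`Z = kernel (d 0)`, `0 → Z → Y 1 → Y 0 → 0`. In degree `0`: `H_0 (Y 1) → H_0 (Y 0)` is surjective (right exactness of the
coinvariants; the chains of degree `0` are `Y` itself, so exactness in degree `0` says that the boundary `C_1 → C_0` is
surjective). In degree `n + 1`: `H_(n+1) (Y 0)` embeds in `H_n Z` by the long exact sequence
(`groupHomology.map_chainsFunctor_shortExact`, or `Mathlib/RepresentationTheory/Homological/GroupHomology/
LongExactSequence.lean`), and `H_n Z = 0` by induction for the sequence `Z, Y 2, Y 3, ..`. -/
def S_ACR : Prop := ∀ (G : Type) [Group G] (n : ℕ) (Y : ℕ → Rep.{0} ℤ G) (d : ∀ k, Y (k + 1) ⟶ Y k),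
  Function.Surjective (d 0).hom →
  (∀ k (y : Y (k + 1)), (d k).hom y = 0 ↔ ∃ w : Y (k + 2), (d (k + 1)).hom w = y) →
  (∀ k m, (inhomogeneousChains (Y (k + 1))).ExactAt m) → (inhomogeneousChains (Y 0)).ExactAt n

/-- **ACN.** Paper proof. Let `S_k` be the `G`-set of all the `x : Fin (k + 1) → G ⧸ N` whose entries have the same image in
`G ⧸ B` (`S_(-1) = G ⧸ B`). For `x 0 = g N` put `z x = g z g⁻¹` (well defined as `z` is central in `N`); it fixes `x` because
`x i = g b_i N` with `b_i ∈ B` and `N` is normal in `B`. By ACY the chains with coefficients in `pr ρ S_k` are exact. The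
sequence `.. → X[S_1] → X[S_0] → X[G ⧸ B] → 0` (alternating sums of the maps which omit one entry) is exact: a contraction
is given by `x ↦ (t, x)`, where `t` is a chosen element of `G ⧸ N` over the common image of the `x i` in `G ⧸ B` (only
additive, not equivariant). Now ACR. -/
def S_ACN : Prop := S_ACY → S_ACR → ∀ (G X : Type) [Group G] [AddCommGroup X] (ρ : Representation ℤ G X)
  (N B : Subgroup G) (z : G), N ≤ B → (∀ b ∈ B, ∀ n ∈ N, b * n * b⁻¹ ∈ N) → z ∈ N → (∀ n ∈ N, Commute z n) →
  (∀ g, Function.Bijective (fun x : X => x - ρ (g * z * g⁻¹) x)) →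
  ∀ n, (inhomogeneousChains (Rep.of (pr ρ (G ⧸ B)))).ExactAt n

end Pool.Agent.H56G
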