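import Pool.Agent.H56G.IND
import Pool.Agent.H56G.Stm2

/-!
# Project GPR: the induction with general vertex groups
-/

set_option autoImplicit false

noncomputable section

namespace Pool.Agent.H56G

open CategoryTheory groupHomology

namespace COR

open IND

variable {V : Type} {Γ : SimpleGraph V} {K H : V → Type} [∀ v, Group (K v)] [∀ v, Group (H v)]
  {A G : Type} [Group A] [Group G]

theorem all (hBAS : S_BAS) (hMVQ : S_MVQ) (hGPI : S_GPI) (hGPX : S_GPX) [Finite V]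
    {κ : ∀ v, K v →* A} {ι : ∀ v, H v →* G} (hκ : IsGP Γ κ) (hι : IsGP Γ ι) (φ : A →* G)
    (e : ∀ v, K v →* H v) (hφ : ∀ v k, φ (κ v k) = ι v (e v k)) (X : Type)
    [AddCommGroup X] (ρ : Representation ℤ G X)
    (hA : ∀ (D : Set V) (v : V) (n : ℕ),
      (inhomogeneousChains (Rep.of (pr (ρ.comp φ) (A ⧸ gs κ (insert v (D ∩ Γ.neighborSet v)))))).ExactAt n)
    (hG : ∀ (D : Set V) (v : V) (n : ℕ),
      (inhomogeneousChains (Rep.of (pr ρ (G ⧸ gs ι (insert v (D ∩ Γ.neighborSet v)))))).ExactAt n) (n : ℕ) :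
    ∀ D : Set V, D.ncard ≤ n → QI φ ρ (cm κ ι φ e hφ D) := by
  have hempty : ∀ D : Set V, D = ∅ → QI φ ρ (cm κ ι φ e hφ D) := by
    rintro D rfl
    have hb : ∀ {H' : V → Type} [∀ v, Group (H' v)] {G' : Type} [Group G'] (ι' : ∀ v, H' v →* G'),
        gs ι' (∅ : Set V) = ⊥ := by
      intro H' _ G' _ ι'
      refine Subgroup.closure_eq_bot_iff.2 ?_
      rintro x ⟨v, hv, -⟩
      exact absurd hv (Set.notMem_empty v)
    refine hBAS A G X φ ρ _ _ (cm κ ι φ e hφ ∅) ((1 : A) : A ⧸ gs κ ∅)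
      (cm_smul κ ι φ e hφ ∅) (bij_bot _ (hb κ)) ?_
    have h1 : cm κ ι φ e hφ ∅ ((1 : A) : A ⧸ gs κ ∅) = ((1 : G) : G ⧸ gs ι ∅) := by
      show ((φ 1 : G) : G ⧸ gs ι ∅) = ((1 : G) : G ⧸ gs ι ∅)
      rw [map_one]
    rw [h1]
    exact bij_bot _ (hb ι)
  induction n with
  | zero =>
    intro D hD
    exact hempty D ((Set.ncard_eq_zero (Set.toFinite D)).1 (Nat.le_zero.1 hD))
  | succ n ih =>
    intro D hD
    rcases D.eq_empty_or_nonempty with h0 | ⟨v, hv⟩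
    · exact hempty D h0
    have hlt : (D \ {v}).ncard ≤ n := by
      have := Set.ncard_sdiff_singleton_lt_of_mem hv (Set.toFinite D)
      omega
    have hsub : D ∩ Γ.neighborSet v ⊆ D \ {v} := fun _ h => ⟨h.1, fun e => Γ.ne_of_adj h.2 (Eq.symm e)⟩
    have hle : (D ∩ Γ.neighborSet v).ncard ≤ n :=
      (Set.ncard_le_ncard hsub (Set.toFinite _)).trans hlt
    have m1 := hGPX hGPI V Γ K A κ hκ D v hv
    have m2 := hGPX hGPI V Γ H G ι hι D v hv
    have q2 : QI φ ρ (cm κ ι φ e hφ (insert v (D ∩ Γ.neighborSet v))) :=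
      ⟨cm_smul κ ι φ e hφ _, ⟨fun i => (quasiIsoAt_iff_exactAt _ i (hA D v i)).2 (hG D v i)⟩⟩
    exact hMVQ A G X φ ρ _ _ _ _ _ _ _ _ _ _ _ _ _ _ _ _ (cm κ ι φ e hφ _) (cm κ ι φ e hφ _)
      (cm κ ι φ e hφ _) (cm κ ι φ e hφ _) m1 m2
      (qm_smul κ _) (qm_smul κ _) (qm_smul κ _) (qm_smul κ _)
      (qm_smul ι _) (qm_smul ι _) (qm_smul ι _) (qm_smul ι _)
      (cm_qm κ ι φ e hφ _) (cm_qm κ ι φ e hφ _) (cm_qm κ ι φ e hφ _) (cm_qm κ ι φ e hφ _)
      (ih _ hle) (ih _ hlt) q2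

theorem core (hBAS : S_BAS) (hMVQ : S_MVQ) (hGPI : S_GPI) (hGPX : S_GPX) [Finite V]
    {κ : ∀ v, K v →* A} {ι : ∀ v, H v →* G} (hκ : IsGP Γ κ) (hι : IsGP Γ ι) (φ : A →* G)
    (e : ∀ v, K v →* H v) (hφ : ∀ v k, φ (κ v k) = ι v (e v k)) (X : Type)
    [AddCommGroup X] (ρ : Representation ℤ G X)
    (hA : ∀ (D : Set V) (v : V) (n : ℕ),
      (inhomogeneousChains (Rep.of (pr (ρ.comp φ) (A ⧸ gs κ (insert v (D ∩ Γ.neighborSet v)))))).ExactAt n)
    (hG : ∀ (D : Set V) (v : V) (n : ℕ),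
      (inhomogeneousChains (Rep.of (pr ρ (G ⧸ gs ι (insert v (D ∩ Γ.neighborSet v)))))).ExactAt n) (i : ℕ)
    (hex : (inhomogeneousChains (Rep.of (ρ.comp φ))).ExactAt i) : (inhomogeneousChains (Rep.of ρ)).ExactAt i := by
  obtain ⟨hf, hq⟩ := all hBAS hMVQ hGPI hGPX hκ hι φ e hφ X ρ hA hG
    (Set.univ : Set V).ncard Set.univ le_rfl
  have t1 : gs κ (Set.univ : Set V) = ⊤ :=
    hκ.gen _ fun v a => Subgroup.subset_closure ⟨v, Set.mem_univ v, a, rfl⟩
  have t2 : gs ι (Set.univ : Set V) = ⊤ :=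
    hι.gen _ fun v a => Subgroup.subset_closure ⟨v, Set.mem_univ v, a, rfl⟩
  letI := uniq _ t1
  letI := uniq _ t2
  rw [← exact_iff ρ (G ⧸ gs ι (Set.univ : Set V))]
  rw [← exact_iff (ρ.comp φ) (A ⧸ gs κ (Set.univ : Set V))] at hex
  exact (quasiIsoAt_iff_exactAt _ i hex).1 (hq.quasiIsoAt i)

/-- the subgroups of the stars -/
theorem star (hACY : S_ACY) (hACR : S_ACR) (hACN : S_ACN) {ι : ∀ v, H v →* G} (hι : IsGP Γ ι) (v : V)
    (N : Subgroup (H v)) (hN : N.Normal) (z : H v) (hz : z ∈ N) (hzN : ∀ n ∈ N, Commute z n) (X : Type)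
    [AddCommGroup X] (ρ : Representation ℤ G X)
    (hρ : ∀ g, Function.Bijective fun x : X => x - ρ (g * ι v z * g⁻¹) x) (D : Set V) (n : ℕ) :
    (inhomogeneousChains (Rep.of (pr ρ (G ⧸ gs ι (insert v (D ∩ Γ.neighborSet v)))))).ExactAt n := by
  refine hACN hACY hACR G X ρ (N.map (ι v)) _ (ι v z) ?_ ?_ ⟨z, hz, rfl⟩ ?_ hρ n
  · rintro _ ⟨a, -, rfl⟩
    exact Subgroup.subset_closure ⟨v, Set.mem_insert _ _, a, rfl⟩
  · intro b hb
    have h : gs ι (insert v (D ∩ Γ.neighborSet v)) ≤ Subgroup.normalizer ((N.map (ι v) : Subgroup G) : Set G) := by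
      refine (Subgroup.closure_le _).2 ?_
      rintro _ ⟨w, hw, a, rfl⟩
      rw [SetLike.mem_coe, Subgroup.mem_normalizer_iff]
      intro x
      rcases hw with rfl | hw
      · constructor
        · rintro ⟨n, hn, rfl⟩
          exact ⟨a * n * a⁻¹, hN.conj_mem n hn a, by simp⟩
        · rintro ⟨n, hn, hx⟩
          refine ⟨a⁻¹ * n * a⁻¹⁻¹, hN.conj_mem n hn a⁻¹, ?_⟩
          rw [map_mul, map_mul, hx, inv_inv, map_inv]
          group
      · constructor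
        · rintro ⟨n, hn, rfl⟩
          refine ⟨n, hn, ?_⟩
          have h1 := (hι.comm v w hw.2 n a).eq
          rw [← h1, mul_inv_cancel_right]
        · rintro ⟨n, hn, hx⟩
          refine ⟨n, hn, ?_⟩
          have h1 := (hι.comm v w hw.2 n a).eq
          have h2 : ι w a * x = ι w a * ι v n := by
            rw [← h1, hx]
            group
          exact (mul_left_cancel h2).symm
    exact fun n hn => (Subgroup.mem_normalizer_iff.1 (h hb) n).1 hn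
  · rintro _ ⟨a, ha, rfl⟩
    exact (hzN a ha).map (ι v)

end COR

end Pool.Agent.H56G
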