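import Pool.Agent.H56G.Stm
import Pool.Agent.N496.CV.P_FINAL
import Pool.Agent.N496.CV.P_RU

/-!
# Project GPR, piece DEN: the algebraic part
-/

set_option autoImplicit false

noncomputable section

namespace Pool.Agent.H56G

open CategoryTheory groupHomology Pool.Agent.W907.SG Pool.Agent.H56T Pool.Agent.N496.CV Pool.Agent.Helper655.VN
  Pool.Agent.RK

namespace DEN

/-- exactness in terms of elements -/
theorem exactAt_iff {K R : Type} [Group K] [Ring R] (c : K →* R) (n : ℕ) :
    (inhomogeneousChains (Rep.of (rr c))).ExactAt (n + 1) ↔ ∀ v, dd c n v = 0 → ∃ y, dd c (n + 1) y = v := by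
  rw [HomologicalComplex.exactAt_iff' _ (n + 1 + 1) (n + 1) n (by simp) (by simp)]
  exact ShortComplex.moduleCat_exact_iff _

/-- the vertex groups are retracts -/
theorem iota_inj {V : Type} {Γ : SimpleGraph V} {H : V → Type} [∀ v, Group (H v)] {G : Type} [Group G]
    {ι : ∀ v, H v →* G} (hι : IsGP Γ ι) (v : V) : Function.Injective (ι v) := by
  classical
  obtain ⟨F, hF⟩ := hι.lift (H v) (fun w => if h : w = v then h ▸ MonoidHom.id (H w) else 1) (by
    intro u w huw a b
    by_cases hu : u = v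
    · have hw : ¬ w = v := fun hw => huw.ne (hu.trans hw.symm)
      simp only [dif_neg hw, MonoidHom.one_apply]
      exact Commute.one_right _
    · simp only [dif_neg hu, MonoidHom.one_apply]
      exact Commute.one_left _)
  have h1 : ∀ a : H v, F (ι v a) = a := by
    intro a
    rw [hF]
    simp
  intro a b hab
  rw [← h1 a, hab, h1 b]

theorem bij_of_unit {K R : Type} [Group K] [Ring R] (c : K →* R) (g : K) (h : IsUnit (1 - c g⁻¹)) :
    Function.Bijective (fun x : R => x - rr c g x) := by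
  have h1 : (fun x : R => x - rr c g x) = fun x => x * (1 - c g⁻¹) := by
    funext x
    show x - x * c g⁻¹ = _
    rw [mul_sub, mul_one]
  rw [h1]
  obtain ⟨w, hw⟩ := h
  rw [← hw]
  exact (Units.mulRight w).bijective

theorem rr_comp {A K R : Type} [Group A] [Group K] [Ring R] (φ : A →* K) (c : K →* R) :
    (rr c).comp φ = rr (c.comp φ) := by
  ext g x
  show x * c (φ g)⁻¹ = x * c (φ g⁻¹)
  rw [map_inv φ]

theorem dd_single {K R : Type} [Group K] [Ring R] (c : K →* R) (n : ℕ) (g : Fin (n + 1) → K) (x : R) :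
    dd c n (Finsupp.single g x) = Finsupp.single (fun i => g i.succ) (x * c (g 0)) +
      ∑ j : Fin (n + 1), (-1 : ℤ) ^ ((j : ℕ) + 1) • Finsupp.single (Fin.contractNth j (· * ·) g) x := by
  unfold dd
  rw [inhomogeneousChains.d_def]
  refine (inhomogeneousChains.d_single (A := Rep.of (rr c)) n g x).trans ?_
  congr 1
  show Finsupp.single (fun i : Fin n => g i.succ) (x * c ((g 0)⁻¹)⁻¹) = _
  rw [inv_inv]

theorem dd_smul {K R : Type} [Group K] [Ring R] (c : K →* R) (n : ℕ) (s : R) (v : (Fin (n + 1) → K) →₀ R) :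
    dd c n (s • v) = s • dd c n v := by
  induction v using Finsupp.induction_linear with
  | zero => rw [smul_zero, map_zero, smul_zero]
  | add v w hv hw => rw [smul_add, map_add, map_add, smul_add, hv, hw]
  | single g x =>
    rw [Finsupp.smul_single, dd_single, dd_single, smul_add, Finset.smul_sum, Finsupp.smul_single]
    congr 1
    · rw [smul_eq_mul, smul_eq_mul, mul_assoc]
    · refine Finset.sum_congr rfl fun j _ => ?_
      rw [smul_comm s, Finsupp.smul_single s]

theorem dd_map {K R U : Type} [Group K] [Ring R] [Ring U] (j : R →+* U) (c : K →* R) (u : K →* U)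
    (hu : ∀ h, u h = j (c h)) (n : ℕ) (v : (Fin (n + 1) → K) →₀ R) :
    dd u n (v.mapRange j (map_zero j)) = (dd c n v).mapRange j (map_zero j) := by
  induction v using Finsupp.induction_linear with
  | zero => rw [Finsupp.mapRange_zero, map_zero, map_zero, Finsupp.mapRange_zero]
  | add v w hv hw => rw [Finsupp.mapRange_add (map_add j), map_add, map_add, Finsupp.mapRange_add (map_add j), hv, hw]
  | single g x =>
    rw [Finsupp.mapRange_single, dd_single, dd_single, Finsupp.mapRange_add (map_add j), Finsupp.mapRange_single, hu,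
      map_mul]
    congr 1
    have h1 : ∀ w : (Fin n → K) →₀ R, w.mapRange j (map_zero j) = Finsupp.mapRange.addMonoidHom j.toAddMonoidHom w :=
      fun w => rfl
    rw [h1, map_sum]
    refine Finset.sum_congr rfl fun i _ => ?_
    rw [map_zsmul]
    congr 1
    exact (Finsupp.mapRange_single (hf := map_zero j)).symm

end DEN

open DEN

theorem t_DEN : S_DEN := by
  classical
  intro hBAS hACY hMVQ hGPI hGPX hIND hBRE hBRI hSAV hAGP V _ _ Γ H _ G _ ι hι z hz hzi n hE
  obtain ⟨U, hU, j, hloc⟩ := Pool.Agent.RK.LocEx.loc_exists (vn_NG (G := G))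
  obtain ⟨u, hu⟩ : ∃ u : G →* U, ∀ h, u h = j (canL h) := ⟨(j : NG G →* U).comp canL, fun h => rfl⟩
  have hunit : ∀ h : G, Function.Injective (fun n : ℕ => h ^ n) → IsUnit (1 - u h) := by
    intro h hw
    have h1 : j (1 - canL h) = 1 - u h := by rw [map_sub, map_one, hu]
    rw [← h1]
    exact hloc.unit _ (Pool.Agent.N496.CV.P_RU_nz h hw)
  -- the rational structure
  let f : ℚ →+* U := j.comp ((algebraMap ℂ (NG G)).comp (algebraMap ℚ ℂ))
  have hfc : ∀ q x, f q * x = x * f q := fun q x =>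
    KER.central hloc (fun y => Algebra.commutes (algebraMap ℚ ℂ q) y) x
  let _ : Algebra ℚ U := f.toAlgebra' hfc
  have hord : ∀ v (g : G), Function.Injective (fun n : ℕ => (g * ι v (z v) * g⁻¹)⁻¹ ^ n) := by
    intro v g a b hab
    apply hzi v
    apply iota_inj hι v
    have h1 : ((g * ι v (z v) * g⁻¹)⁻¹) ^ a = ((g * ι v (z v) * g⁻¹)⁻¹) ^ b := hab
    rw [inv_pow, inv_pow, inv_inj, conj_pow, conj_pow] at h1
    have h2 := mul_left_cancel (mul_right_cancel h1)
    show ι v (z v ^ a) = ι v (z v ^ b)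
    rw [map_pow, map_pow]
    exact h2
  have hbij : ∀ v (g : G), Function.Bijective (fun x : U => x - rr u (g * ι v (z v) * g⁻¹) x) := fun v g =>
    bij_of_unit u _ (hunit _ (hord v g))
  obtain ⟨φ, hφ⟩ := (hAGP V Γ).lift G (fun v => (ι v).comp (zpowersHom (H v) (z v))) (by
    intro v w hvw a b
    exact hι.comm v w hvw _ _)
  have hzh : ∀ (v : V), (zpowersHom (H v) (z v)) (Multiplicative.ofAdd (1 : ℤ)) = z v := by
    intro v
    rw [zpowersHom_apply]
    simp
  have h1 := hIND hBAS hACY hMVQ hGPI hGPX V Γ (fun _ => Multiplicative ℤ) H (AG Γ) G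
    (fun v => zpowersHom (AG Γ) (agen Γ v)) ι (hAGP V Γ) hι φ (fun v => zpowersHom (H v) (z v)) hφ
    (fun v => Multiplicative.ofAdd (1 : ℤ)) (fun v k => Commute.all _ _) (fun v h => by rw [hzh]; exact hz v h) U (rr u)
    (fun v g => by rw [hzh]; exact hbij v g) (n + 1)
  have hgen : ∀ v, φ (agen Γ v) = ι v (z v) := by
    intro v
    have h2 := hφ v (Multiplicative.ofAdd (1 : ℤ))
    rw [zpowersHom_apply, MonoidHom.comp_apply, hzh] at h2
    rw [← h2]
    simp
  have hS : Subsingleton (homR (u.comp φ) (n + 1)) := by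
    refine hSAV V Γ U (u.comp φ) (fun v => ?_) n hE
    rw [MonoidHom.comp_apply, hgen]
    refine hunit _ fun a b hab => hzi v (iota_inj hι v ?_)
    show ι v (z v ^ a) = ι v (z v ^ b)
    rw [map_pow, map_pow]
    exact hab
  have h2 : (inhomogeneousChains (Rep.of (rr (u.comp φ)))).ExactAt (n + 1) := by
    rw [exactAt_iff]
    intro v hv
    obtain ⟨π, -, h3, -⟩ := hBRI hBRE (AG Γ) U (u.comp φ) n
    exact (h3 ⟨v, hv⟩).1 (Subsingleton.elim _ _)
  rw [rr_comp] at h1
  have h3 : (inhomogeneousChains (Rep.of (rr u))).ExactAt (n + 1) := h1 h2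
  rw [exactAt_iff] at h3
  -- chains over the von Neumann algebra
  let J : ∀ m : ℕ, ((Fin m → G) →₀ NG G) → ((Fin m → G) →₀ U) := fun m v => v.mapRange j (map_zero j)
  have hJd : ∀ m (v : (Fin (m + 1) → G) →₀ NG G), dd u m (J (m + 1) v) = J m (dd canL m v) := by
    intro m v
    exact dd_map j canL u hu m v
  obtain ⟨π, hπ1, hπ2, hπ3⟩ := hBRI hBRE G (NG G) canL n
  show VN831.luckDim G (homR (canL : G →* NG G) (n + 1)) = 0
  refine FinAux.luck_zero fun m => ?_
  obtain ⟨v, rfl⟩ := hπ1 m
  obtain ⟨y, hy⟩ := h3 (J (n + 1) v.1) (by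
    rw [hJd, v.2]
    exact Finsupp.mapRange_zero)
  obtain ⟨s, hs, hx⟩ := KER.common_den hloc (fun a b ha hb => Pool.Agent.RK.Nz.nz_mul a b ha hb) y.support (fun a => y a)
  refine ⟨s, hs, ?_⟩
  have hall : ∀ a, ∃ x : NG G, j s * y a = j x := by
    intro a
    by_cases h0 : a ∈ y.support
    · exact hx a h0
    · exact ⟨0, by rw [Finsupp.notMem_support_iff.1 h0, mul_zero, map_zero]⟩
  choose x hx' using hall
  have hx0 : ∀ a, x a ≠ 0 → a ∈ y.support := by
    intro a ha
    by_contra h0
    apply ha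
    apply hloc.inj
    rw [← hx', Finsupp.notMem_support_iff.1 h0, mul_zero, map_zero]
  let w : (Fin (n + 2) → G) →₀ NG G := Finsupp.onFinset y.support x hx0
  have hw : J (n + 2) w = j s • y := by
    ext a
    show j (x a) = j s * y a
    exact (hx' a).symm
  have hJinj : ∀ m, Function.Injective (J m) := fun m => Finsupp.mapRange_injective j (map_zero j) hloc.inj
  have hdw : dd canL (n + 1) w = s • v.1 := by
    apply hJinj
    rw [← hJd, hw, dd_smul, hy]
    ext a
    show j s * j (v.1 a) = j (s * v.1 a)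
    rw [map_mul]
  have h5 : π ⟨s • v.1, by rw [dd_smul, v.2, smul_zero]⟩ = 0 := (hπ2 _).2 ⟨w, hdw⟩
  rw [← h5]
  exact (hπ3 s v _ rfl).symm

end Pool.Agent.H56G
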