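import Pool.Agent.H56G.Stm

/-!
# Project GPR, third part: finite index subgroups
-/

set_option autoImplicit false

noncomputable section

namespace Pool.Agent.H56G

open CategoryTheory groupHomology

/-- representatives `t i` of the cosets `Q (t i)`, and the right action of `G` on the set `I` of the cosets -/
structure Cos {G : Type} [Group G] (Q : Subgroup G) {I : Type} (t : I → G) (a : I → G → I) (o : I) : Prop where
  mem : ∀ i g, t i * g * (t (a i g))⁻¹ ∈ Q
  act : ∀ i g h, a (a i g) h = a i (g * h)
  act_one : ∀ i, a i 1 = i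
  one : t o = 1
  fix : ∀ q ∈ Q, a o q = o

/-- the element `q` with `t i * g = q * t (a i g)` -/
def Cos.q {G : Type} [Group G] {Q : Subgroup G} {I : Type} {t : I → G} {a : I → G → I} {o : I} (h : Cos Q t a o)
    (i : I) (g : G) : Q := ⟨t i * g * (t (a i g))⁻¹, h.mem i g⟩

/-- the matrices of the induced representation -/
def Cos.mat {G : Type} [Group G] {Q : Subgroup G} {I : Type} [Fintype I] [DecidableEq I] {t : I → G} {a : I → G → I}
    {o : I} (h : Cos Q t a o) {U : Type} [Ring U] (u : Q →* U) (g : G) : Matrix I I U :=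
  Matrix.of fun i j => if j = a i g then u (h.q i g) else 0

/-- **SHC.** Representatives. (`I` = the quotient by the right coset relation, `t` a section with `t o = 1` for the class
`o` of `1`, `a i g` = the class of `t i * g`.) -/
def S_SHC : Prop := ∀ (G : Type) [Group G] (Q : Subgroup G), Q.FiniteIndex →
  ∃ (I : Type) (_ : Fintype I) (t : I → G) (a : I → G → I) (o : I), Cos Q t a o ∧
    ∀ i g, t i * g * (t i)⁻¹ ∈ Q → a i g = i

/-- **SHU.** The matrices of the induced representation. Paper proof. Multiplicative: `q i (g h) = q i g * q (a i g) h`.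
Units: if `g` has infinite order choose `N > 0` such that `g ^ N` is in the normal core of `Q`; then `a i (g ^ N) = i` by the
hypothesis and `mat (g ^ N)` is the diagonal matrix with the entries `u` of the elements
`t i g^N (t i)⁻¹` of infinite order, so `1 - mat (g ^ N)` is a unit, and `1 - mat g` is a factor of it which commutes with the
other factor. -/
def S_SHU : Prop := ∀ (G : Type) [Group G] (Q : Subgroup G), Q.FiniteIndex →
  ∀ (I : Type) [Fintype I] [DecidableEq I] (t : I → G) (a : I → G → I) (o : I) (h : Cos Q t a o),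
  (∀ i g, t i * g * (t i)⁻¹ ∈ Q → a i g = i) → ∀ (U : Type) [Ring U] (u : Q →* U),
  (∀ q : Q, Function.Injective (fun n : ℕ => q ^ n) → IsUnit (1 - u q)) →
  ∃ c : G →* Matrix I I U, (∀ g, c g = h.mat u g) ∧
    ∀ g : G, Function.Injective (fun n : ℕ => g ^ n) → IsUnit (1 - c g)

/-- **SHR.** Paper proof. The map `x ↦ single o o x` from `U` to the matrices is compatible with `rr u`, `rr c`, so it induces a
chain map `κ` from the chains of `Q` to the chains of `G`. The map
`r (single (g_1, .., g_n) A) = ∑ i, single (q i g_1, q (a i g_1) g_2, q (a i (g_1 g_2)) g_3, ..) (A o i)` is a chain map back (by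
`(A * c g) o j = ∑_{i : a i g = j} A o i * u (q i g)` and `q i (g h) = q i g * q (a i g) h`) and `r ∘ κ = 1`, since
`a o x = o`, `q o x = x` for `x ∈ Q`. If `v` is a cycle then `κ v = d y` and `v = r (κ v) = d (r y)`. -/
def S_SHR : Prop := ∀ (G : Type) [Group G] (Q : Subgroup G) (I : Type) [Fintype I] [DecidableEq I] (t : I → G)
  (a : I → G → I) (o : I) (h : Cos Q t a o) (U : Type) [Ring U] (u : Q →* U) (c : G →* Matrix I I U),
  (∀ g, c g = h.mat u g) → ∀ n, (∀ v, dd c n v = 0 → ∃ y, dd c (n + 1) y = v) →
    ∀ v, dd u n v = 0 → ∃ y, dd u (n + 1) y = v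

end Pool.Agent.H56G
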