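import Pool.Agent.H56G.COR
import Pool.Agent.H56G.DEN
import Pool.Agent.H56G.Stm3

/-!
# Project GPR: the theorem, from the pieces
-/

set_option autoImplicit false

noncomputable section

namespace Pool.Agent.H56G

open CategoryTheory groupHomology Pool.Agent.W907.SG Pool.Agent.H56T Pool.Agent.N496.CV Pool.Agent.Helper655.VN
  Pool.Agent.RK

namespace FIN

open DEN

/-- the vanishing of the `L²`-Betti numbers, from the exactness over the ring of fractions -/
theorem den (hBRE : S_BRE) (hBRI : S_BRI) {Q : Type} [Group Q] {U : Type} [Ring U] {j : NG Q →+* U}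
    (hloc : Loc j) {u : Q →* U} (hu : ∀ h, u h = j (canL h)) (n : ℕ)
    (h3 : ∀ v, dd u n v = 0 → ∃ y, dd u (n + 1) y = v) : VN831.l2Betti Q (n + 1) = 0 := by
  classical
  let J : ∀ m : ℕ, ((Fin m → Q) →₀ NG Q) → ((Fin m → Q) →₀ U) := fun m v => v.mapRange j (map_zero j)
  have hJd : ∀ m (v : (Fin (m + 1) → Q) →₀ NG Q), dd u m (J (m + 1) v) = J m (dd canL m v) := by
    intro m v
    exact dd_map j canL u hu m v
  obtain ⟨π, hπ1, hπ2, hπ3⟩ := hBRI hBRE Q (NG Q) canL n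
  show VN831.luckDim Q (homR (canL : Q →* NG Q) (n + 1)) = 0
  refine FinAux.luck_zero fun m => ?_
  obtain ⟨v, rfl⟩ := hπ1 m
  obtain ⟨y, hy⟩ := h3 (J (n + 1) v.1) (by
    rw [hJd, v.2]
    exact Finsupp.mapRange_zero)
  obtain ⟨s, hs, hx⟩ := KER.common_den hloc (fun a b ha hb => Pool.Agent.RK.Nz.nz_mul a b ha hb) y.support (fun a => y a)
  refine ⟨s, hs, ?_⟩
  have hall : ∀ a, ∃ x : NG Q, j s * y a = j x := by
    intro a
    by_cases h0 : a ∈ y.support
    · exact hx a h0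
    · exact ⟨0, by rw [Finsupp.notMem_support_iff.1 h0, mul_zero, map_zero]⟩
  choose x hx' using hall
  have hx0 : ∀ a, x a ≠ 0 → a ∈ y.support := by
    intro a ha
    by_contra h0
    apply ha
    apply hloc.inj
    rw [← hx', Finsupp.notMem_support_iff.1 h0, mul_zero, map_zero]
  let w : (Fin (n + 2) → Q) →₀ NG Q := Finsupp.onFinset y.support x hx0
  have hw : J (n + 2) w = j s • y := by
    ext a
    show j (x a) = j s * y a
    exact (hx' a).symm
  have hJinj : ∀ m, Function.Injective (J m) := fun m => Finsupp.mapRange_injective j (map_zero j) hloc.inj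
  have hdw : dd canL (n + 1) w = s • v.1 := by
    apply hJinj
    rw [← hJd, hw, dd_smul, hy]
    ext a
    show j s * j (v.1 a) = j (s * v.1 a)
    rw [map_mul]
  have h5 : π ⟨s • v.1, by rw [dd_smul, v.2, smul_zero]⟩ = 0 := (hπ2 _).2 ⟨w, hdw⟩
  rw [← h5]
  exact (hπ3 s v _ rfl).symm

/-- the exactness for rings in which `1 - c g` is a unit for all elements `g` of infinite order -/
theorem exact (hBAS : S_BAS) (hACY : S_ACY) (hMVQ : S_MVQ) (hGPI : S_GPI) (hGPX : S_GPX) (hACR : S_ACR)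
    (hACN : S_ACN) (hBRE : S_BRE) (hBRI : S_BRI) (hSAV : S_SAV) (hAGP : S_AGP) {V : Type} [Fintype V] [LinearOrder V]
    {Γ : SimpleGraph V} {H : V → Type} [∀ v, Group (H v)] {G : Type} [Group G] {ι : ∀ v, H v →* G} (hι : IsGP Γ ι)
    (N : ∀ v, Subgroup (H v)) (hN : ∀ v, (N v).Normal) (z : ∀ v, H v) (hz : ∀ v, z v ∈ N v)
    (hzN : ∀ v, ∀ n ∈ N v, Commute (z v) n) (hzi : ∀ v, Function.Injective (fun n : ℕ => z v ^ n))
    {R : Type} [Ring R] [Algebra ℚ R] (c : G →* R)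
    (hunit : ∀ g : G, Function.Injective (fun n : ℕ => g ^ n) → IsUnit (1 - c g)) (n : ℕ) (hE : Exa Γ (n + 1)) :
    ∀ v, dd c n v = 0 → ∃ y, dd c (n + 1) y = v := by
  have hinv : ∀ v (g : G), Function.Injective (fun n : ℕ => (g * ι v (z v) * g⁻¹)⁻¹ ^ n) := by
    intro v g a b hab
    apply hzi v
    apply iota_inj hι v
    have h1 : ((g * ι v (z v) * g⁻¹)⁻¹) ^ a = ((g * ι v (z v) * g⁻¹)⁻¹) ^ b := hab
    rw [inv_pow, inv_pow, inv_inj, conj_pow, conj_pow] at h1
    have h2 := mul_left_cancel (mul_right_cancel h1)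
    show ι v (z v ^ a) = ι v (z v ^ b)
    rw [map_pow, map_pow]
    exact h2
  have hbij : ∀ v (g : G), Function.Bijective (fun x : R => x - rr c (g * ι v (z v) * g⁻¹) x) := fun v g =>
    bij_of_unit c _ (hunit _ (hinv v g))
  obtain ⟨φ, hφ⟩ := (hAGP V Γ).lift G (fun v => (ι v).comp (zpowersHom (H v) (z v))) (by
    intro v w hvw a b
    exact hι.comm v w hvw _ _)
  have hzh : ∀ (v : V), (zpowersHom (H v) (z v)) (Multiplicative.ofAdd (1 : ℤ)) = z v := by
    intro v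
    rw [zpowersHom_apply]
    simp
  have hgen : ∀ v, φ (zpowersHom (AG Γ) (agen Γ v) (Multiplicative.ofAdd (1 : ℤ))) = ι v (z v) := by
    intro v
    have h2 := hφ v (Multiplicative.ofAdd (1 : ℤ))
    rw [MonoidHom.comp_apply, hzh] at h2
    exact h2
  have hgen' : ∀ v, φ (agen Γ v) = ι v (z v) := by
    intro v
    rw [← hgen v, zpowersHom_apply]
    simp
  have h1 := COR.core hBAS hMVQ hGPI hGPX (hAGP V Γ) hι φ (fun v => zpowersHom (H v) (z v)) hφ R (rr c)
    (fun D v m => COR.star hACY hACR hACN (hAGP V Γ) v ⊤ inferInstance (Multiplicative.ofAdd (1 : ℤ))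
      (Subgroup.mem_top _) (fun _ _ => Commute.all _ _) R ((rr c).comp φ) (fun a => by
        have h2 := hbij v (φ a)
        rw [← hgen, ← map_inv, ← map_mul, ← map_mul] at h2
        exact h2) D m)
    (fun D v m => COR.star hACY hACR hACN hι v (N v) (hN v) (z v) (hz v) (hzN v) R (rr c) (hbij v) D m) (n + 1)
  rw [rr_comp] at h1
  have hS : Subsingleton (homR (c.comp φ) (n + 1)) := by
    refine hSAV V Γ R (c.comp φ) (fun v => ?_) n hE
    rw [MonoidHom.comp_apply, hgen']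
    refine hunit _ fun a b hab => hzi v (iota_inj hι v ?_)
    show ι v (z v ^ a) = ι v (z v ^ b)
    rw [map_pow, map_pow]
    exact hab
  have h2 : (inhomogeneousChains (Rep.of (rr (c.comp φ)))).ExactAt (n + 1) := by
    rw [exactAt_iff]
    intro v hv
    obtain ⟨π, -, h3, -⟩ := hBRI hBRE (AG Γ) R (c.comp φ) n
    exact (h3 ⟨v, hv⟩).1 (Subsingleton.elim _ _)
  exact (exactAt_iff c n).1 (h1 h2)

/-- **Theorem.** -/
theorem gpr_thm (hBAS : S_BAS) (hACY : S_ACY) (hMVQ : S_MVQ) (hGPI : S_GPI) (hGPX : S_GPX) (hACR : S_ACR)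
    (hACN : S_ACN) (hBRE : S_BRE) (hBRI : S_BRI) (hSAV : S_SAV) (hAGP : S_AGP) (hGPG : S_GPG) (hINJ : S_INJ)
    (hTOP : S_TOP) (hSHC : S_SHC) (hSHU : S_SHU) (hSHR : S_SHR) {V : Type} [Fintype V] (Γ : SimpleGraph V)
    (H : V → Type) [∀ v, Group (H v)]
    (hH : ∀ v, ∃ N : Subgroup (H v), N.Normal ∧ (∀ a ∈ N, ∀ b ∈ N, a * b = b * a) ∧ ∃ z ∈ N, orderOf z = 0)
    (Q : Subgroup (GP Γ H)) (hQ : Q.FiniteIndex) {n : ℕ} {M : Type} [TopologicalSpace M] [ContractibleSpace M]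
    (hM : StInj n M) [MulAction Q M] (hP : PropAct Q M) {i : ℕ} (hi : n < 2 * i) : HasL2Betti Q i 0 := by
  classical
  obtain ⟨m, rfl⟩ : ∃ m, i = m + 1 := ⟨i - 1, by omega⟩
  choose N hN hNc z hz hzo using hH
  have hzi : ∀ v, Function.Injective (fun n : ℕ => z v ^ n) := by
    intro v
    rw [injective_pow_iff_not_isOfFinOrder, isOfFinOrder_iff_pow_eq_one]
    rintro ⟨k, hk, hk1⟩
    have := Nat.le_of_dvd hk (orderOf_dvd_of_pow_eq_one hk1)
    have h2 := orderOf_dvd_of_pow_eq_one hk1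
    rw [hzo v, zero_dvd_iff] at h2
    omega
  have hι := hGPG V Γ H
  have hE : ∀ [DecidableEq V], Exa Γ (m + 1) := by
    intro _
    exact hTOP hAGP hINJ V Γ H (GP Γ H) (gpi Γ H) hι z hzi Q hQ n M hM hP (m + 1) hi
  letI : LinearOrder V := LinearOrder.lift' (Fintype.equivFin V) (Fintype.equivFin V).injective
  obtain ⟨U, hU, j, hloc⟩ := Pool.Agent.RK.LocEx.loc_exists (vn_NG (G := Q))
  obtain ⟨u, hu⟩ : ∃ u : Q →* U, ∀ h, u h = j (canL h) := ⟨(j : NG Q →* U).comp canL, fun h => rfl⟩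
  have hunit : ∀ h : Q, Function.Injective (fun n : ℕ => h ^ n) → IsUnit (1 - u h) := by
    intro h hw
    have h1 : j (1 - canL h) = 1 - u h := by rw [map_sub, map_one, hu]
    rw [← h1]
    exact hloc.unit _ (Pool.Agent.N496.CV.P_RU_nz h hw)
  let f : ℚ →+* U := j.comp ((algebraMap ℂ (NG Q)).comp (algebraMap ℚ ℂ))
  have hfc : ∀ q x, f q * x = x * f q := fun q x =>
    KER.central hloc (fun y => Algebra.commutes (algebraMap ℚ ℂ q) y) x
  let _ : Algebra ℚ U := f.toAlgebra' hfc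
  obtain ⟨I, hI, t, a, o, hC, hCa⟩ := hSHC (GP Γ H) Q hQ
  obtain ⟨c, hc, hcu⟩ := hSHU (GP Γ H) Q hQ I t a o hC hCa U u hunit
  have h1 := exact hBAS hACY hMVQ hGPI hGPX hACR hACN hBRE hBRI hSAV hAGP hι N hN z hz
    (fun v n hn => hNc v _ (hz v) n hn) hzi c hcu m hE
  have h2 := hSHR (GP Γ H) Q I t a o hC U u c hc m h1
  have h3 := den hBRE hBRI hloc hu m h2
  have h4 := hasL2Betti Q (m + 1)
  rwa [h3] at h4

end FIN

end Pool.Agent.H56G
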