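import Pool.Agent.H56G.Stm

/-!
# Project GPR, piece IND (helper91): induction over the subsets of the vertices
-/

set_option autoImplicit false

noncomputable section

namespace Pool.Agent.H56G

open CategoryTheory groupHomology

namespace IND

variable {V : Type} {Γ : SimpleGraph V} {K H : V → Type} [∀ v, Group (K v)] [∀ v, Group (H v)]
  {A G : Type} [Group A] [Group G]

theorem gs_map (κ : ∀ v, K v →* A) (ι : ∀ v, H v →* G) (φ : A →* G) (e : ∀ v, K v →* H v)
    (hφ : ∀ v k, φ (κ v k) = ι v (e v k)) (D : Set V) : gs κ D ≤ (gs ι D).comap φ := by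
  refine (Subgroup.closure_le _).2 ?_
  rintro _ ⟨v, hv, a, rfl⟩
  rw [SetLike.mem_coe, Subgroup.mem_comap, hφ]
  exact Subgroup.subset_closure ⟨v, hv, _, rfl⟩

/-- the map of the coset spaces -/
def cm (κ : ∀ v, K v →* A) (ι : ∀ v, H v →* G) (φ : A →* G) (e : ∀ v, K v →* H v)
    (hφ : ∀ v k, φ (κ v k) = ι v (e v k)) (D : Set V) : A ⧸ gs κ D → G ⧸ gs ι D :=
  Quotient.map' φ fun a b h => by
    rw [QuotientGroup.leftRel_apply] at h ⊢
    rw [← map_inv, ← map_mul]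
    exact gs_map κ ι φ e hφ D h

theorem cm_smul (κ : ∀ v, K v →* A) (ι : ∀ v, H v →* G) (φ : A →* G) (e : ∀ v, K v →* H v)
    (hφ : ∀ v k, φ (κ v k) = ι v (e v k)) (D : Set V) (a : A) (s : A ⧸ gs κ D) :
    cm κ ι φ e hφ D (a • s) = φ a • cm κ ι φ e hφ D s := by
  induction s using QuotientGroup.induction_on with
  | H b =>
    show ((φ (a * b) : G) : G ⧸ gs ι D) = ((φ a * φ b : G) : G ⧸ gs ι D)
    rw [map_mul]

theorem qm_smul (ι : ∀ v, H v →* G) {D E : Set V} (h : D ⊆ E) (g : G) (s : G ⧸ gs ι D) :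
    qm ι h (g • s) = g • qm ι h s := by
  induction s using QuotientGroup.induction_on with
  | H b => rfl

theorem cm_qm (κ : ∀ v, K v →* A) (ι : ∀ v, H v →* G) (φ : A →* G) (e : ∀ v, K v →* H v)
    (hφ : ∀ v k, φ (κ v k) = ι v (e v k)) {D E : Set V} (h : D ⊆ E) (s : A ⧸ gs κ D) :
    cm κ ι φ e hφ E (qm κ h s) = qm ι h (cm κ ι φ e hφ D s) := by
  induction s using QuotientGroup.induction_on with
  | H b => rfl

theorem bij_bot (S : Subgroup G) (hS : S = ⊥) :
    Function.Bijective (fun g : G => g • ((1 : G) : G ⧸ S)) := by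
  constructor
  · intro a b h
    have h1 : ((a * 1 : G) : G ⧸ S) = ((b * 1 : G) : G ⧸ S) := h
    rw [QuotientGroup.eq, hS, Subgroup.mem_bot, mul_one, mul_one] at h1
    exact inv_mul_eq_one.1 h1
  · intro s
    induction s using QuotientGroup.induction_on with
    | H b =>
      refine ⟨b, ?_⟩
      show ((b * 1 : G) : G ⧸ S) = (b : G ⧸ S)
      rw [mul_one]

/-- the conjugates of an element which commutes with a subgroup -/
def zq (S : Subgroup G) (ζ : G) (hζ : ∀ s ∈ S, Commute ζ s) : G ⧸ S → G :=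
  Quotient.lift (fun g : G => g * ζ * g⁻¹) fun a b h => by
    have h1 : a⁻¹ * b ∈ S := QuotientGroup.leftRel_apply.1 h
    have h2 : ζ * (a⁻¹ * b) = (a⁻¹ * b) * ζ := (hζ _ h1).eq
    show a * ζ * a⁻¹ = b * ζ * b⁻¹
    calc a * ζ * a⁻¹ = a * (ζ * (a⁻¹ * b)) * b⁻¹ := by group
      _ = a * ((a⁻¹ * b) * ζ) * b⁻¹ := by rw [h2]
      _ = b * ζ * b⁻¹ := by group

theorem zq_smul (S : Subgroup G) (ζ : G) (hζ : ∀ s ∈ S, Commute ζ s) (g : G) (s : G ⧸ S) :
    zq S ζ hζ (g • s) = g * zq S ζ hζ s * g⁻¹ := by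
  induction s using QuotientGroup.induction_on with
  | H b =>
    show (g * b) * ζ * (g * b)⁻¹ = g * (b * ζ * b⁻¹) * g⁻¹
    group

theorem zq_fix (S : Subgroup G) (ζ : G) (hζ : ∀ s ∈ S, Commute ζ s) (hS : ζ ∈ S) (s : G ⧸ S) :
    zq S ζ hζ s • s = s := by
  induction s using QuotientGroup.induction_on with
  | H b =>
    show ((b * ζ * b⁻¹ * b : G) : G ⧸ S) = (b : G ⧸ S)
    rw [QuotientGroup.eq]
    have h : (b * ζ * b⁻¹ * b)⁻¹ * b = ζ⁻¹ := by group
    rw [h]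
    exact S.inv_mem hS

theorem comm_gs {ι : ∀ v, H v →* G} (hι : IsGP Γ ι) (v : V) (ζ : H v) (hζ : ∀ h, Commute ζ h)
    (D : Set V) : ∀ s ∈ gs ι (insert v (D ∩ Γ.neighborSet v)), Commute (ι v ζ) s := by
  intro s hs
  have h : gs ι (insert v (D ∩ Γ.neighborSet v)) ≤ Subgroup.centralizer {ι v ζ} := by
    refine (Subgroup.closure_le _).2 ?_
    rintro _ ⟨w, hw, b, rfl⟩
    rw [SetLike.mem_coe, Subgroup.mem_centralizer_iff]
    intro x hx
    rw [Set.mem_singleton_iff.1 hx]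
    rcases hw with rfl | hw
    · exact ((hζ b).map (ι w)).eq
    · exact (hι.comm v w hw.2 ζ b).eq
  exact Subgroup.mem_centralizer_iff.1 (h hs) _ rfl

/-- functions on one point -/
def ev1 (S X : Type) [AddCommGroup X] [Unique S] : (S →₀ X) ≃ₗ[ℤ] X where
  toFun f := f default
  map_add' _ _ := rfl
  map_smul' _ _ := rfl
  invFun x := Finsupp.single default x
  left_inv f := by
    refine Finsupp.ext fun s => ?_
    have hs : s = default := Subsingleton.elim s default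
    rw [hs]
    exact Finsupp.single_eq_same
  right_inv x := Finsupp.single_eq_same

theorem ev1_apply (S X : Type) [AddCommGroup X] [Unique S] (f : S →₀ X) : ev1 S X f = f default :=
  rfl

/-- the representation on the functions on one point -/
theorem exact_iff {X : Type} [AddCommGroup X] (ρ : Representation ℤ G X) (S : Type)
    [MulAction G S] [Unique S] (i : ℕ) : (inhomogeneousChains (Rep.of (pr ρ S))).ExactAt i ↔
      (inhomogeneousChains (Rep.of ρ)).ExactAt i := by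
  let E : (pr ρ S).Equiv ρ := Representation.Equiv.mk
    (ev1 S X) (by
      intro g
      ext s x
      have hg : g • s = s := Subsingleton.elim _ _
      have hs : default = s := Subsingleton.elim _ _
      simp [pr, ev1_apply, hg, hs])
  let I := (chainsFunctor ℤ G).mapIso (Rep.mkIso E)
  exact ⟨fun h => HomologicalComplex.ExactAt.of_iso h I,
    fun h => HomologicalComplex.ExactAt.of_iso h I.symm⟩

/-- one coset -/
@[reducible] def uniq (S : Subgroup G) (hS : S = ⊤) : Unique (G ⧸ S) where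
  default := ((1 : G) : G ⧸ S)
  uniq s := by
    induction s using QuotientGroup.induction_on with
    | H b =>
      rw [QuotientGroup.eq, hS]
      exact Subgroup.mem_top _

theorem all (hBAS : S_BAS) (hMVQ : S_MVQ) (hGPI : S_GPI) (hGPX : S_GPX) [Finite V]
    {κ : ∀ v, K v →* A} {ι : ∀ v, H v →* G} (hκ : IsGP Γ κ) (hι : IsGP Γ ι) (φ : A →* G)
    (e : ∀ v, K v →* H v) (hφ : ∀ v k, φ (κ v k) = ι v (e v k)) (X : Type)
    [AddCommGroup X] (ρ : Representation ℤ G X)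
    (hA : ∀ (D : Set V) (v : V), v ∈ D → ∀ n, (inhomogeneousChains (Rep.of (pr (ρ.comp φ)
      (A ⧸ gs κ (insert v (D ∩ Γ.neighborSet v)))))).ExactAt n)
    (hG : ∀ (D : Set V) (v : V), v ∈ D → ∀ n, (inhomogeneousChains (Rep.of (pr ρ
      (G ⧸ gs ι (insert v (D ∩ Γ.neighborSet v)))))).ExactAt n) (n : ℕ) :
    ∀ D : Set V, D.ncard ≤ n → QI φ ρ (cm κ ι φ e hφ D) := by
  have hempty : ∀ D : Set V, D = ∅ → QI φ ρ (cm κ ι φ e hφ D) := by
    rintro D rfl
    have hb : ∀ {H' : V → Type} [∀ v, Group (H' v)] {G' : Type} [Group G'] (ι' : ∀ v, H' v →* G'),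
        gs ι' (∅ : Set V) = ⊥ := by
      intro H' _ G' _ ι'
      refine Subgroup.closure_eq_bot_iff.2 ?_
      rintro x ⟨v, hv, -⟩
      exact absurd hv (Set.notMem_empty v)
    refine hBAS A G X φ ρ _ _ (cm κ ι φ e hφ ∅) ((1 : A) : A ⧸ gs κ ∅)
      (cm_smul κ ι φ e hφ ∅) (bij_bot _ (hb κ)) ?_
    have h1 : cm κ ι φ e hφ ∅ ((1 : A) : A ⧸ gs κ ∅) = ((1 : G) : G ⧸ gs ι ∅) := by
      show ((φ 1 : G) : G ⧸ gs ι ∅) = ((1 : G) : G ⧸ gs ι ∅)
      rw [map_one]
    rw [h1]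
    exact bij_bot _ (hb ι)
  induction n with
  | zero =>
    intro D hD
    exact hempty D ((Set.ncard_eq_zero (Set.toFinite D)).1 (Nat.le_zero.1 hD))
  | succ n ih =>
    intro D hD
    rcases D.eq_empty_or_nonempty with h0 | ⟨v, hv⟩
    · exact hempty D h0
    have hlt : (D \ {v}).ncard ≤ n := by
      have := Set.ncard_sdiff_singleton_lt_of_mem hv (Set.toFinite D)
      omega
    have hsub : D ∩ Γ.neighborSet v ⊆ D \ {v} := fun _ h => ⟨h.1, fun e => Γ.ne_of_adj h.2 (Eq.symm e)⟩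
    have hle : (D ∩ Γ.neighborSet v).ncard ≤ n :=
      (Set.ncard_le_ncard hsub (Set.toFinite _)).trans hlt
    have m1 := hGPX hGPI V Γ K A κ hκ D v hv
    have m2 := hGPX hGPI V Γ H G ι hι D v hv
    have q2 : QI φ ρ (cm κ ι φ e hφ (insert v (D ∩ Γ.neighborSet v))) :=
      ⟨cm_smul κ ι φ e hφ _, ⟨fun i => (quasiIsoAt_iff_exactAt _ i (hA D v hv i)).2 (hG D v hv i)⟩⟩
    exact hMVQ A G X φ ρ _ _ _ _ _ _ _ _ _ _ _ _ _ _ _ _ (cm κ ι φ e hφ _) (cm κ ι φ e hφ _)
      (cm κ ι φ e hφ _) (cm κ ι φ e hφ _) m1 m2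
      (qm_smul κ _) (qm_smul κ _) (qm_smul κ _) (qm_smul κ _)
      (qm_smul ι _) (qm_smul ι _) (qm_smul ι _) (qm_smul ι _)
      (cm_qm κ ι φ e hφ _) (cm_qm κ ι φ e hφ _) (cm_qm κ ι φ e hφ _) (cm_qm κ ι φ e hφ _)
      (ih _ hle) (ih _ hlt) q2

/-- the exactness for the stars gives the comparison of `A` and `G` -/
theorem core (hBAS : S_BAS) (hMVQ : S_MVQ) (hGPI : S_GPI) (hGPX : S_GPX) [Finite V]
    {κ : ∀ v, K v →* A} {ι : ∀ v, H v →* G} (hκ : IsGP Γ κ) (hι : IsGP Γ ι) (φ : A →* G)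
    (e : ∀ v, K v →* H v) (hφ : ∀ v k, φ (κ v k) = ι v (e v k)) (X : Type)
    [AddCommGroup X] (ρ : Representation ℤ G X)
    (hA : ∀ (D : Set V) (v : V), v ∈ D → ∀ n, (inhomogeneousChains (Rep.of (pr (ρ.comp φ)
      (A ⧸ gs κ (insert v (D ∩ Γ.neighborSet v)))))).ExactAt n)
    (hG : ∀ (D : Set V) (v : V), v ∈ D → ∀ n, (inhomogeneousChains (Rep.of (pr ρ
      (G ⧸ gs ι (insert v (D ∩ Γ.neighborSet v)))))).ExactAt n) (i : ℕ)
    (hex : (inhomogeneousChains (Rep.of (ρ.comp φ))).ExactAt i) :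
    (inhomogeneousChains (Rep.of ρ)).ExactAt i := by
  obtain ⟨hf, hq⟩ := all hBAS hMVQ hGPI hGPX hκ hι φ e hφ X ρ hA hG
    (Set.univ : Set V).ncard Set.univ le_rfl
  have t1 : gs κ (Set.univ : Set V) = ⊤ :=
    hκ.gen _ fun v a => Subgroup.subset_closure ⟨v, Set.mem_univ v, a, rfl⟩
  have t2 : gs ι (Set.univ : Set V) = ⊤ :=
    hι.gen _ fun v a => Subgroup.subset_closure ⟨v, Set.mem_univ v, a, rfl⟩
  let _ := uniq _ t1
  let _ := uniq _ t2
  rw [← exact_iff ρ (G ⧸ gs ι (Set.univ : Set V))]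
  rw [← exact_iff (ρ.comp φ) (A ⧸ gs κ (Set.univ : Set V))] at hex
  exact (quasiIsoAt_iff_exactAt _ i hex).1 (hq.quasiIsoAt i)

end IND

open IND in
theorem t_IND : S_IND := by
  intro hBAS hACY hMVQ hGPI hGPX V _ Γ K H _ _ A G _ _ κ ι hκ hι φ e hφ c hc hec X _ ρ hρ i hex
  refine core hBAS hMVQ hGPI hGPX hκ hι φ e hφ X ρ (fun D v _ => ?_) (fun D v _ => ?_) i hex
  · have c1 := comm_gs hκ v (c v) (hc v) D
    have s1 : κ v (c v) ∈ gs κ (insert v (D ∩ Γ.neighborSet v)) :=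
      Subgroup.subset_closure ⟨v, Set.mem_insert _ _, _, rfl⟩
    exact hACY A X (ρ.comp φ) (A ⧸ gs κ (insert v (D ∩ Γ.neighborSet v)))
      (zq _ (κ v (c v)) c1) (zq_smul _ _ c1) (zq_fix _ _ c1 s1) (fun s => by
        induction s using QuotientGroup.induction_on with
        | H a =>
          have h1 := hρ v (φ a)
          rw [← hφ, ← map_inv, ← map_mul, ← map_mul] at h1
          exact h1)
  · have c2 := comm_gs hι v (e v (c v)) (hec v) D
    have s2 : ι v (e v (c v)) ∈ gs ι (insert v (D ∩ Γ.neighborSet v)) :=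
      Subgroup.subset_closure ⟨v, Set.mem_insert _ _, _, rfl⟩
    exact hACY G X ρ (G ⧸ gs ι (insert v (D ∩ Γ.neighborSet v)))
      (zq _ (ι v (e v (c v))) c2) (zq_smul _ _ c2) (zq_fix _ _ c2 s2) (fun s => by
        induction s using QuotientGroup.induction_on with
        | H a => exact hρ v a)

end Pool.Agent.H56G
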