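import Pool.Agent.H56G.Stm3

/-!
Project GPR (helper56), piece SHU (helper95): the matrices of the induced representation.
-/

set_option autoImplicit false

noncomputable section

namespace Pool.Agent.H56G

namespace SHU

variable {G : Type} [Group G] {Q : Subgroup G} {I : Type} [Fintype I] [DecidableEq I] {t : I → G}
  {a : I → G → I} {o : I} (h : Cos Q t a o) {U : Type} [Ring U] (u : Q →* U)

theorem mat_one : h.mat u 1 = 1 := by
  ext i j
  have hq : h.q i 1 = 1 := by
    apply Subtype.ext
    show t i * 1 * (t (a i 1))⁻¹ = 1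
    rw [h.act_one, mul_one, mul_inv_cancel]
  show (if j = a i 1 then u (h.q i 1) else 0) = (1 : Matrix I I U) i j
  rw [hq, map_one, h.act_one, Matrix.one_apply]
  by_cases hij : i = j
  · rw [if_pos hij, if_pos hij.symm]
  · rw [if_neg hij, if_neg (fun e => hij e.symm)]

theorem q_mul (i : I) (g g' : G) : h.q i (g * g') = h.q i g * h.q (a i g) g' := by
  apply Subtype.ext
  show t i * (g * g') * (t (a i (g * g')))⁻¹ =
    t i * g * (t (a i g))⁻¹ * (t (a i g) * g' * (t (a (a i g) g'))⁻¹)
  rw [h.act]
  group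

theorem mat_mul (g g' : G) : h.mat u (g * g') = h.mat u g * h.mat u g' := by
  ext i j
  rw [Matrix.mul_apply]
  show (if j = a i (g * g') then u (h.q i (g * g')) else 0) =
    ∑ k, (if k = a i g then u (h.q i g) else 0) * (if j = a k g' then u (h.q k g') else 0)
  rw [Finset.sum_eq_single (a i g)]
  · rw [if_pos rfl, h.act, q_mul, map_mul, mul_ite, mul_zero]
  · intro k _ hk
    rw [if_neg hk, zero_mul]
  · intro hk
    exact absurd (Finset.mem_univ _) hk

/-- the representation -/
def rep : G →* Matrix I I U where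
  toFun := h.mat u
  map_one' := mat_one h u
  map_mul' := mat_mul h u

theorem mat_diag (g : G) (hg : ∀ i, a i g = i) :
    h.mat u g = Matrix.diagonalRingHom I U (fun i => u (h.q i g)) := by
  ext i j
  show (if j = a i g then u (h.q i g) else 0) = Matrix.diagonal (fun i => u (h.q i g)) i j
  rw [hg, Matrix.diagonal_apply]
  by_cases hij : i = j
  · rw [if_pos hij, if_pos hij.symm]
  · rw [if_neg hij, if_neg (fun e => hij e.symm)]

theorem main : S_SHU := by
  intro G _ Q hQ I _ _ t a o h hfix U _ u hu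
  refine ⟨rep h u, fun g => rfl, fun g hg => ?_⟩
  have hQc : Q.normalCore.FiniteIndex := inferInstance
  obtain ⟨N, hN, -, hgN⟩ := Subgroup.exists_pow_mem_of_index_ne_zero hQc.index_ne_zero g
  have hmem : ∀ x : G, x * g ^ N * x⁻¹ ∈ Q := fun x =>
    Q.normalCore_le ((Subgroup.normalCore_normal Q).conj_mem _ hgN x)
  have ha : ∀ i, a i (g ^ N) = i := fun i => hfix i _ (hmem _)
  have hinj : ∀ i, Function.Injective (fun n : ℕ => h.q i (g ^ N) ^ n) := by
    intro i n m hnm
    have h1 : ((h.q i (g ^ N) : Q) : G) = t i * g ^ N * (t i)⁻¹ := by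
      show t i * g ^ N * (t (a i (g ^ N)))⁻¹ = _
      rw [ha]
    have h2 := congrArg (fun x : Q => (x : G)) hnm
    simp only [SubmonoidClass.coe_pow, h1, conj_pow] at h2
    have h3 : (g ^ N) ^ n = (g ^ N) ^ m := mul_left_cancel (mul_right_cancel h2)
    rw [← pow_mul, ← pow_mul] at h3
    exact Nat.eq_of_mul_eq_mul_left hN (hg h3)
  have hunit : IsUnit (1 - rep h u (g ^ N)) := by
    have h1 : rep h u (g ^ N) = Matrix.diagonalRingHom I U (fun i => u (h.q i (g ^ N))) :=
      mat_diag h u _ ha
    rw [h1, ← map_one (Matrix.diagonalRingHom I U), ← map_sub]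
    refine IsUnit.map _ (Pi.isUnit_iff.2 fun i => ?_)
    exact hu _ (hinj i)
  rw [map_pow, ← mul_neg_geom_sum] at hunit
  have hc : Commute (1 - rep h u g) (∑ i ∈ Finset.range N, rep h u g ^ i) := by
    show _ = _
    rw [mul_neg_geom_sum, geom_sum_mul_neg]
  exact (hc.isUnit_mul_iff.1 hunit).1

end SHU

theorem t_SHU : S_SHU := SHU.main

end Pool.Agent.H56G
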